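import Pool.Agent.Lib.MP_d9b062_al_h67.Rat
import Pool.Agent.Lib.MP_d9b062_al_h9.Omega

/-!
# The factors of the block LU decomposition of an element of the group are in the group
-/

namespace Pool.Agent.Lib.MP_d9b062_al

section

variable {N : ℕ} {G : Subgroup (Op N)ˣ} {ι : Type} [Fintype ι] [LinearOrder ι] {P : ι → Op N}
  {r : ι → ι → Prop}

/-- polynomials vanishing on `N⁻` vanish at the factor `yL` of regular elements of `G` -/
lemma yL_eq_zero46 (hP : IsGrading P) (hs : ∀ i, star (P i) = P i)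
    (hr : ∀ i j, r i j → i < j)
    (hdense : ∀ F ∈ PolyFun (Op N), (∀ y ∈ G, ∀ l ∈ G, ∀ x ∈ G, Unip P r (y : Op N) →
      Diag P (l : Op N) → Unip P (fun i j => r j i) (x : Op N) → F (y * l * x) = 0) →
        ∀ g ∈ G, F (g : Op N) = 0)
    {F : Op N → ℝ} (hF : F ∈ PolyFun (Op N))
    (h0 : ∀ y ∈ G, Unip P r (y : Op N) → F (y : Op N) = 0)
    {g : (Op N)ˣ} (hg : g ∈ G) (hreg : Reg P (g : Op N)) : F (yL P (g : Op N)) = 0 := by
  obtain ⟨D, hD, Q, hQ, -, hDr, -, hy⟩ := exists_rat hP hs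
  obtain ⟨k, F1, hF1, h1⟩ := PolyFun.comp_rat hF hD hQ
  have h2 := hdense (fun T => D T * F1 T) (PolyFun.mul hD hF1) (by
    intro y hy' l _ x _ uy dl ux
    have hlu := LU_unique hP hs (y := (y : Op N)) (x := (x : Op N)) (d := l)
      (uy.mono hr) dl (ux.mono fun i j h => hr j i h)
    have h3 : D ((y : Op N) * l * x) ≠ 0 := (hDr _).1 hlu.1
    rw [h1 _ h3, ← hy _ hlu.1, hlu.2.1, h0 y hy' uy, mul_zero, mul_zero]) g hg
  have h3 : D (g : Op N) ≠ 0 := (hDr _).1 hreg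
  have h4 : F1 (g : Op N) = 0 := (mul_eq_zero.1 h2).resolve_left h3
  rw [h1 _ h3, ← hy _ hreg] at h4
  exact (mul_eq_zero.1 h4).resolve_left (pow_ne_zero _ h3)

/-- the lower unipotent factor -/
lemma exists_yL46 (hP : IsGrading P) (hs : ∀ i, star (P i) = P i)
    (hr : ∀ i j, r i j → i < j)
    (hclosed : ∀ g : (Op N)ˣ, (∀ F ∈ PolyFun (Op N), (∀ h ∈ G, F (h : Op N) = 0) →
      F (g : Op N) = 0) → g ∈ G)
    (hdense : ∀ F ∈ PolyFun (Op N), (∀ y ∈ G, ∀ l ∈ G, ∀ x ∈ G, Unip P r (y : Op N) →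
      Diag P (l : Op N) → Unip P (fun i j => r j i) (x : Op N) → F (y * l * x) = 0) →
        ∀ g ∈ G, F (g : Op N) = 0)
    {g : (Op N)ˣ} (hg : g ∈ G) (hreg : Reg P (g : Op N)) :
    ∃ y ∈ G, (y : Op N) = yL P (g : Op N) ∧ Unip P r (y : Op N) := by
  obtain ⟨y, hy⟩ := yL_isUnit hP hreg
  refine ⟨y, ?_, hy, ?_⟩
  · apply hclosed
    intro F hF h0
    rw [hy]
    exact yL_eq_zero46 hP hs hr hdense hF (fun y hy _ => h0 y hy) hg hreg
  · rw [hy]
    refine ⟨(yL_unip hP hreg).1, fun i j hij hn => ?_⟩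
    rw [← Module.forall_dual_apply_eq_zero_iff ℝ (P i * yL P (g : Op N) * P j)]
    intro φ
    have hpoly : (fun T : Op N => φ (P i * T * P j)) ∈ PolyFun (Op N) :=
      ((IsPolyMap.const (P i)).mul IsPolyMap.id).mul (IsPolyMap.const (P j)) φ
    exact yL_eq_zero46 hP hs hr hdense hpoly
      (fun y _ hu => by rw [hu.2 i j hij hn]; exact map_zero φ) hg hreg

/-- abstract factorization theorem -/
theorem fac_of_dense (hP : IsGrading P) (hs : ∀ i, star (P i) = P i)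
    (hr : ∀ i j, r i j → i < j)
    (hclosed : ∀ g : (Op N)ˣ, (∀ F ∈ PolyFun (Op N), (∀ h ∈ G, F (h : Op N) = 0) →
      F (g : Op N) = 0) → g ∈ G)
    (hstar : ∀ g ∈ G, star g ∈ G)
    (hdense : ∀ F ∈ PolyFun (Op N), (∀ y ∈ G, ∀ l ∈ G, ∀ x ∈ G, Unip P r (y : Op N) →
      Diag P (l : Op N) → Unip P (fun i j => r j i) (x : Op N) → F (y * l * x) = 0) →
        ∀ g ∈ G, F (g : Op N) = 0)
    {g : (Op N)ˣ} (hg : g ∈ G) (hreg : Reg P (g : Op N)) :
    ∃ y ∈ G, ∃ l ∈ G, ∃ x ∈ G, Unip P r (y : Op N) ∧ Diag P (l : Op N) ∧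
      Unip P (fun i j => r j i) (x : Op N) ∧ (g : Op N) = y * l * x := by
  obtain ⟨y, hyG, hy, uy⟩ := exists_yL46 hP hs hr hclosed hdense hg hreg
  have hreg' : Reg P ((star g : (Op N)ˣ) : Op N) := by
    rw [Units.coe_star]; exact hreg.star hs
  obtain ⟨x', hxG', hx', ux'⟩ := exists_yL46 hP hs hr hclosed hdense (hstar g hg) hreg'
  have hx : ((star x' : (Op N)ˣ) : Op N) = xU P (g : Op N) := by
    rw [Units.coe_star, hx', Units.coe_star, xU]
  refine ⟨y, hyG, y⁻¹ * g * (star x')⁻¹, G.mul_mem (G.mul_mem (G.inv_mem hyG) hg)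
    (G.inv_mem (hstar _ hxG')), star x', hstar _ hxG', uy, ?_, ?_, ?_⟩
  · have h := dD_diag hP hs hreg
    rw [dD, ← hy, ← hx, Ring.inverse_unit, Ring.inverse_unit] at h
    exact h
  · rw [Units.coe_star]; exact ux'.star hs
  · have h : g = y * (y⁻¹ * g * (star x')⁻¹) * star x' := by group
    exact congrArg (fun u : (Op N)ˣ => (u : Op N)) h

end

theorem WeightData.fac {N : ℕ} {G : Subgroup (Op N)ˣ} {A : Submodule ℝ (Op N)} {ι : Type}
    [Fintype ι] [LinearOrder ι] (W : WeightData A ι) (hG : IsConnectedSemisimple G)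
    (hA : IsCartan G A) {g : (Op N)ˣ} (hg : g ∈ G) (hr : Reg W.P (g : Op N)) :
    ∃ y ∈ G, ∃ l ∈ G, ∃ x ∈ G, Unip W.P (W.r G) (y : Op N) ∧ Diag W.P (l : Op N) ∧
      Unip W.P (fun i j => W.r G j i) (x : Op N) ∧ (g : Op N) = y * l * x :=
  fac_of_dense W.grading W.star_P (fun _ _ h => W.r_lt h)
    (fun g h => hG.closed g fun p hp => h _ (polyVal_mem p) hp) hG.star_mem
    (fun _ hF h => W.omega_dense hG hA hF h) hg hr

end Pool.Agent.Lib.MP_d9b062_al
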