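import Pool.Agent.Lib.MP_d9b062_al_h46.Final

/-!
# The theorem `Good.final`
-/

namespace Pool.Agent.Lib.MP_d9b062_al

open Filter
open scoped Topology

namespace Cell

variable {N : ℕ} {G : Subgroup (Op N)ˣ} {ι : Type} [Fintype ι] [LinearOrder ι]
  {c : Cell G ι} {Γ : Subgroup (Aff (V N))}

/-- the steering lemma for words -/
lemma FCtx46.steer (hΓ : c.Good Γ) (S : c.FCtx46 Γ)
    (h₂ : ∀ e ∈ c.EL, e ≠ 0 → ∃ δ ∈ Γ, ∃ F l t, c.ALox δ F l t ∧
      (∀ i, i ≠ c.o → 0 < sg46 (S.X i) * c.tau (l : Op N) i) ∧ 0 < inner ℝ (c.PL t) e) :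
    ∃ R : ℝ, ∀ k : ℝ, ∃ w : Word46 S, k ≤ w.size ∧ ‖w.D.tr‖ ≤ R := by
  classical
  obtain ⟨K, n₀, h⟩ := exists_mul46 S
  choose f hf using h
  have := S.nonempty
  let FL : Submodule ℝ c.Eo46 :=
    { carrier := {v | ∀ w : Word46 S, c.resL46 (w.D.lin : Op N) v = v}
      add_mem' := fun {v w} hv hw p => by rw [map_add, hv p, hw p]
      zero_mem' := fun p => map_zero _
      smul_mem' := fun a v hv p => by rw [map_smul, hv p] }
  have hFLEL : ∀ e ∈ FL, (e : V N) ∈ c.EL := by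
    intro e he
    apply S.fix_mem_EL hΓ e.2
    intro w
    have h1 : c.resL46 (w.D.lin : Op N) e = e := he w
    rw [← c.coe_resL46 w.D_mem.1, h1]
  let b : Word46 S → c.Eo46 := fun w => ⟨w.D.tr, w.D_mem.2⟩
  let mul : Word46 S → ℕ → Word46 S → Word46 S := fun p n w =>
    if hn : n₀ ≤ n then f p w n hn else p
  have hmul : ∀ p n w (hn : n₀ ≤ n), mul p n w = f p w n hn := fun p n w hn => dif_pos hn
  obtain ⟨R, hR⟩ := steering (F := c.Eo46) (𝒲 := Word46 S) b (fun w => c.resL46 (w.D.lin : Op N))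
    Word46.size mul (c.resL46 (S.δ.lin : Op N)) ⟨S.δ.tr, S.hδ.2⟩
    (by
      apply Subtype.ext
      rw [c.coe_resL46 S.hδ.1]
      exact S.hl)
    K S.a S.ha n₀ (fun w v => c.norm_resL46 w.D_mem.1 v) (fun v => c.norm_resL46 S.hδ.1 v)
    (by
      intro p n w hn
      rw [hmul p n w hn]
      have h1 := (hf p w n hn).1
      have h2 : ((b (f p w n hn) - (b p + c.resL46 (p.D.lin : Op N) ((n : ℝ) •
          (⟨S.δ.tr, S.hδ.2⟩ : c.Eo46) + (c.resL46 (S.δ.lin : Op N) ^ n) (b w))) : c.Eo46) : V N) =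
          (f p w n hn).D.tr - (p.D.tr + (p.D.lin : Op N) ((n : ℝ) • S.δ.tr +
            ((S.δ.lin ^ n : (Op N)ˣ) : Op N) w.D.tr)) := by
        rw [Submodule.coe_sub, Submodule.coe_add, c.coe_resL46 p.D_mem.1, Submodule.coe_add,
          Submodule.coe_smul, c.coe_resL_pow46 S.hδ.1]
      have h3 : ‖b (f p w n hn) - (b p + c.resL46 (p.D.lin : Op N) ((n : ℝ) •
          (⟨S.δ.tr, S.hδ.2⟩ : c.Eo46) + (c.resL46 (S.δ.lin : Op N) ^ n) (b w)))‖ =
          ‖(f p w n hn).D.tr - (p.D.tr + (p.D.lin : Op N) ((n : ℝ) • S.δ.tr +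
            ((S.δ.lin ^ n : (Op N)ˣ) : Op N) w.D.tr))‖ := by
        rw [← h2]; rfl
      rw [h3]
      exact h1)
    FL (fun v => Iff.rfl)
    (by
      intro e he p n w hn
      rw [hmul p n w hn]
      exact (hf p w n hn).2.1 e (hFLEL e he))
    (by
      intro e he hne R
      have he' := hFLEL e he
      have hne' : (e : V N) ≠ 0 := by
        intro h0
        have : e = 0 := Subtype.ext h0
        rw [this, norm_zero] at hne
        exact zero_ne_one hne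
      obtain ⟨w, hw⟩ := S.exists_large hΓ he' (h₂ _ he' hne') R
      exact ⟨w, hw⟩)
    (by
      intro p n w hn
      rw [hmul p n w hn]
      exact (hf p w n hn).2.2)
    (fun w => w.one_le_size)
  refine ⟨R, fun k => ?_⟩
  obtain ⟨w, hw1, hw2⟩ := hR k
  exact ⟨w, hw1, hw2⟩

/-! ## TASK FINAL -/

theorem Good.final {c : Cell G ι} {Γ : Subgroup (Aff (V N))} (hΓ : c.Good Γ) {X : ι → ℝ}
    (hX : ∀ i, i ≠ c.o → X i ≠ 0)
    (h₁ : ∃ δ ∈ Γ, ∃ F l t, c.ALox δ F l t ∧ ∀ i, i ≠ c.o → 0 < X i * c.tau (l : Op N) i)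
    (h₂ : ∀ e ∈ c.EL, e ≠ 0 → ∃ δ ∈ Γ, ∃ F l t, c.ALox δ F l t ∧
        (∀ i, i ≠ c.o → 0 < X i * c.tau (l : Op N) i) ∧ 0 < inner ℝ (c.PL t) e) :
    ∃ K : Set (V N), IsCompact K ∧
      ¬ {γ : Aff (V N) | γ ∈ Γ ∧ (γ.act '' K ∩ K).Nonempty}.Finite := by
  obtain ⟨δ₀, hδ₀, F, l, t, hA, hs⟩ := h₁
  -- the sign pattern of `l`
  have hSgn : c.Sgn46 (c.tau (l : Op N)) :=
    ⟨c.tau_o hA.l_mem, hA.vreg, hA.dom⟩
  have hsg : ∀ (l' : (Op N)ˣ), (∀ i, i ≠ c.o → 0 < X i * c.tau (l' : Op N) i) →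
      ∀ i, i ≠ c.o → 0 < sg46 (c.tau (l : Op N) i) * c.tau (l' : Op N) i := by
    intro l' h i hi
    have h1 := hs i hi
    have h2 := h i hi
    rcases lt_or_gt_of_ne (hA.vreg i hi) with h3 | h3
    · rw [sg_neg46 h3]
      have h4 : X i < 0 := by
        by_contra hcon
        rw [not_lt] at hcon
        have := mul_nonpos_of_nonneg_of_nonpos hcon h3.le
        linarith
      nlinarith [h2, h4]
    · rw [sg_pos46 h3]
      have h4 : 0 < X i := by
        by_contra hcon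
        rw [not_lt] at hcon
        have := mul_nonpos_of_nonpos_of_nonneg hcon h3.le
        linarith
      rw [one_mul]
      exact (mul_pos_iff_of_pos_left h4).1 h2
  obtain ⟨C, hC, a, ha, hk⟩ := c.exists_kk_pow46 (X := c.tau (l : Op N)) hA.l_mem hA.dom
    (hsg l hs) hA.l_t
  let S : c.FCtx46 Γ :=
    { X := c.tau (l : Op N)
      hX := hSgn
      F := F
      hF := hA.F_mem
      δ := ⟨l, t⟩
      hδ := ⟨hA.l_mem, hA.P_t⟩
      hl := hA.l_t
      hm := by rw [← hA.eq]; exact hδ₀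
      C := C
      hC := hC
      a := a
      ha := ha
      hk := hk }
  obtain ⟨R, hR⟩ := S.steer hΓ (by
    intro e he hne
    obtain ⟨δ, hδ, F', l', t', h1, h2, h3⟩ := h₂ e he hne
    exact ⟨δ, hδ, F', l', t', h1, hsg l' h2, h3⟩)
  have hR0 : 0 ≤ R := by
    obtain ⟨w, -, hw⟩ := hR 0
    exact (norm_nonneg _).trans hw
  refine ⟨F.act '' Metric.closedBall 0 (2 * R + 1), ?_, ?_⟩
  · apply (isCompact_closedBall (0 : V N) (2 * R + 1)).image
    exact (F.lin : Op N).continuous.add continuous_const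
  · intro hfin
    -- the size as a function of the group element
    let φ : Aff (V N) → ℝ := fun γ =>
      -Real.log (c.kA46 S.X (dD c.P ((F.lin⁻¹ * γ.lin * F.lin : (Op N)ˣ) : Op N)))
    obtain ⟨B, hB⟩ := (hfin.image φ).bddAbove
    obtain ⟨w, hw1, hw2⟩ := hR (B + 1)
    set γ : Aff (V N) := F * (w.Y * w.D * w.Z) * F⁻¹ with hγ
    have hφ : φ γ = w.size := by
      have h1 : F.lin⁻¹ * γ.lin * F.lin = w.Y.lin * w.D.lin * w.Z.lin := by
        rw [hγ, Aff.mul_lin, Aff.mul_lin, Aff.mul_lin, Aff.mul_lin, Aff.inv_lin]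
        group
      have h2 := (c.LU_val w.Y_mem.1 w.D_mem.1 w.Z_mem.1).2.2.1
      change -Real.log (c.kA46 S.X (dD c.P ((F.lin⁻¹ * γ.lin * F.lin : (Op N)ˣ) : Op N))) = _
      rw [h1, h2]
      rfl
    have hmem : γ ∈ {γ : Aff (V N) | γ ∈ Γ ∧
        (γ.act '' (F.act '' Metric.closedBall 0 (2 * R + 1)) ∩
          F.act '' Metric.closedBall 0 (2 * R + 1)).Nonempty} := by
      refine ⟨w.mem, F.act (w.Y.act w.D.tr), ⟨F.act (w.Z⁻¹.act 0), ⟨w.Z⁻¹.act 0, ?_, rfl⟩, ?_⟩,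
        ⟨w.Y.act w.D.tr, ?_, rfl⟩⟩
      · rw [mem_closedBall_zero_iff, Aff.act, map_zero, zero_add, Aff.inv_tr, norm_neg]
        have h1 : ‖((w.Z.lin⁻¹ : (Op N)ˣ) : Op N)‖ ≤ 2 :=
          norm_inv_le_two46 _ ((Aff.norm_lin_sub_le46 w.Z).trans (w.nZ_le.trans (by norm_num)))
        have h2 : ‖w.Z.tr‖ ≤ 1 / 4 := (Aff.norm_tr_le46 w.Z).trans w.nZ_le
        have h3 := (ContinuousLinearMap.le_opNorm ((w.Z.lin⁻¹ : (Op N)ˣ) : Op N) w.Z.tr)
        nlinarith [norm_nonneg w.Z.tr]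
      · have h1 : (F⁻¹).act (F.act (w.Z⁻¹.act 0)) = w.Z⁻¹.act 0 := by
          rw [← Aff.act_mul46, inv_mul_cancel, Aff.act_one46]
        have h2 : w.D.act 0 = w.D.tr := by rw [Aff.act, map_zero, zero_add]
        rw [hγ, Aff.act_mul46, Aff.act_mul46, h1, Aff.act_mul46, Aff.act_mul46, Aff.act_inv_act46, h2]
      · rw [mem_closedBall_zero_iff, Aff.act]
        have h1 : ‖(w.Y.lin : Op N)‖ ≤ 2 :=
          norm_le_two46 _ ((Aff.norm_lin_sub_le46 w.Y).trans (w.nY_le.trans (by norm_num)))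
        have h2 : ‖w.Y.tr‖ ≤ 1 / 4 := (Aff.norm_tr_le46 w.Y).trans w.nY_le
        have h3 := (ContinuousLinearMap.le_opNorm (w.Y.lin : Op N) w.D.tr)
        have h4 := norm_add_le ((w.Y.lin : Op N) w.D.tr) w.Y.tr
        nlinarith [norm_nonneg w.D.tr]
    have h3 := hB ⟨γ, hmem, rfl⟩
    rw [hφ] at h3
    linarith

end Cell

end Pool.Agent.Lib.MP_d9b062_al
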