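import Pool.Agent.Lib.MP_d9b062_al_h46.Root

/-!
# Task KAK
-/

namespace Pool.Agent.Lib.MP_d9b062_al

open NormedSpace Filter H46
open scoped Topology

section KAK

variable {N : ℕ} {G : Subgroup (Op N)ˣ} {A : Submodule ℝ (Op N)} {ι : Type} [Fintype ι]
  [LinearOrder ι]

/-- every symmetric element of the Lie algebra is conjugate into the closed chamber by an
orthogonal element of `G` -/
theorem WeightData.exists_conj_mem_chamber (W : WeightData A ι) (hG : IsConnectedSemisimple G)
    (hA : IsCartan G A) {Y : Op N} (hY : Y ∈ lieAlg G) (hs : star Y = Y) :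
    ∃ k ∈ G, star (k : Op N) * k = 1 ∧ ∃ H ∈ W.Chamber G,
      (k : Op N) * Y * star (k : Op N) = (H : Op N) := by
  have hH0 : (W.H0 : Op N) ∈ lieAlg G := hA.mem_lieAlg _ W.H0.2
  obtain ⟨k, ⟨hk1, g, hg, rfl⟩, hcomm, hmax⟩ := max_principle (Struct46.zClosed hG) hY hs hH0
    (hA.symmetric _ W.H0.2)
  set Z : Op N := (g : Op N) * Y * star (g : Op N) with hZ
  have hZmem : Z ∈ lieAlg G := conj_k_mem_lieSet ⟨hk1, g, hg, rfl⟩ hY
  have hZs : star Z = Z := by rw [hZ, star_mul, star_mul, star_star, hs, mul_assoc]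
  have hZA : Z ∈ A := by
    refine hA.maximal Z hZmem hZs (fun X hX => ?_)
    exact (((W.diag_iff Z).1 (W.diag_of_H0 hcomm)) X hX).symm
  refine ⟨g, hg, hk1, ⟨Z, hZA⟩, ?_, rfl⟩
  intro a b hab
  obtain ⟨hlt, Z1, hZ1, hne⟩ := hab
  set δ := W.m W.H0 b - W.m W.H0 a with hδ
  have hδ0 : 0 < δ := sub_pos.2 (W.strictMono hlt)
  set X := W.compo46 δ Z1 with hX
  have hXmem : X ∈ lieAlg G := W.compo_mem46 hG hA hZ1 δ
  have hsX : star X ∈ lieAlg G := Struct46.lieAlg_star hG hXmem
  set T := X - star X with hT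
  have hTmem : T ∈ lieAlg G := by
    have h1 : -(star X) ∈ lieAlg G := neg_mem_lieSet hsX
    have := Struct46.lieAlg_add hG hXmem h1
    rwa [← sub_eq_add_neg] at this
  have hTs : star T = -T := by
    rw [hT, op_star_sub, star_star]; abel
  have hm := hmax T hTmem hTs
  -- brackets
  have hbr : ∀ K : A, (K : Op N) * X - X * (K : Op N) = (W.m K b - W.m K a) • X := fun K =>
    W.compo_bracket46 a b Z1 K
  have hbr2 : ∀ K : A, T * (K : Op N) - (K : Op N) * T =
      (-(W.m K b - W.m K a)) • (X + star X) := by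
    intro K
    have h1 := hbr K
    have h2 : star X * (K : Op N) - (K : Op N) * star X = (W.m K b - W.m K a) • star X := by
      have h3 := congrArg star h1
      rw [op_star_sub, star_mul, star_mul, hA.symmetric _ K.2, op_star_smul] at h3
      exact h3
    have e1 : T * (K : Op N) - (K : Op N) * T =
        -((K : Op N) * X - X * (K : Op N)) - (star X * (K : Op N) - (K : Op N) * star X) := by
      rw [hT, sub_mul, mul_sub]; abel
    rw [e1, h1, h2]
    have e2 : (-(W.m K b - W.m K a)) • (X + star X) =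
        (-(W.m K b - W.m K a)) • X + (-(W.m K b - W.m K a)) • star X :=
      smul_add _ _ _
    have e3 : ∀ (c : ℝ) (S : Op N), (-c) • S = -(c • S) := fun c S => neg_smul c S
    rw [e2, e3, e3, sub_eq_add_neg]
  have hS : star (X + star X) = X + star X := by rw [op_star_add, star_star, add_comm]
  set α := W.m ⟨Z, hZA⟩ b - W.m ⟨Z, hZA⟩ a with hα
  have h1 : tr ((T * Z - Z * T) * (T * (W.H0 : Op N) - (W.H0 : Op N) * T)) =
      α * δ * tr (star (X + star X) * (X + star X)) := by
    have hb1 := hbr2 ⟨Z, hZA⟩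
    have hb2 := hbr2 W.H0
    rw [hb1, hb2, op_smul_mul, op_mul_smul, hS]
    have e4 : tr ((-α) • ((-δ) • ((X + star X) * (X + star X)))) =
        (-α) * ((-δ) * tr ((X + star X) * (X + star X))) := by
      rw [map_smul, map_smul, smul_eq_mul, smul_eq_mul]
    refine e4.trans ?_
    ring
  have hne0 : X + star X ≠ 0 := by
    intro h0
    apply hne
    have h2 : W.P b * (X + star X) * W.P a = 0 := by rw [h0, mul_zero, zero_mul]
    rw [mul_add, add_mul, hX, W.star_block46, W.block_compo46, W.block_compo46, if_pos rfl,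
      if_neg (by intro h; linarith), op_star_zero, add_zero] at h2
    exact h2
  have hpos : 0 < tr (star (X + star X) * (X + star X)) := by
    refine lt_of_le_of_ne (tr_star_mul_self_nonneg _) (fun h => hne0 ?_)
    exact eq_zero_of_tr_star_mul_self h.symm
  have hm' : 0 ≤ α * δ * tr (star (X + star X) * (X + star X)) := by
    rw [← h1]; exact hm
  have hα0 : 0 ≤ α := by
    by_contra hneg
    rw [not_le] at hneg
    have := mul_pos hδ0 hpos
    nlinarith
  linarith

theorem WeightData.kak (W : WeightData A ι) (hG : IsConnectedSemisimple G) (hA : IsCartan G A)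
    {g : (Op N)ˣ} (hg : g ∈ G) : ∃ k ∈ G, ∃ k' ∈ G, ∃ H ∈ W.Chamber G,
      star (k : Op N) * k = 1 ∧ star (k' : Op N) * k' = 1 ∧
      (g : Op N) = k * exp (H : Op N) * k' := by
  obtain ⟨Y, hY, hYs, -, -, k1, hk1, hk1s, hgk⟩ := polar (Struct46.zClosed hG) hG.star_mem hg
  obtain ⟨k, hk, hks, H, hH, hkH⟩ := W.exists_conj_mem_chamber hG hA hY hYs
  have hinv : ((k⁻¹ : (Op N)ˣ) : Op N) = star (k : Op N) := by
    calc ((k⁻¹ : (Op N)ˣ) : Op N)
        = (star (k : Op N) * k) * ((k⁻¹ : (Op N)ˣ) : Op N) := by rw [hks, one_mul]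
      _ = star (k : Op N) := by rw [mul_assoc, Units.mul_inv, mul_one]
  refine ⟨k1 * k⁻¹, G.mul_mem hk1 (G.inv_mem hk), k, hk, H, hH, ?_, hks, ?_⟩
  · rw [Units.val_mul, star_mul, hinv, star_star]
    calc (k : Op N) * star (k1 : Op N) * ((k1 : Op N) * star (k : Op N))
        = (k : Op N) * (star (k1 : Op N) * (k1 : Op N)) * star (k : Op N) := by
          simp only [mul_assoc]
      _ = 1 := by rw [hk1s, mul_one]; exact mul_star_of_star_mul hks
  · have h1 : exp Y = ((k⁻¹ : (Op N)ˣ) : Op N) * exp (H : Op N) * k := by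
      let _ : NormedAlgebra ℚ (Op N) := .restrictScalars ℚ ℝ _
      rw [← exp_units_conj', ← hkH, hinv]
      congr 1
      calc Y = (star (k : Op N) * k) * Y * (star (k : Op N) * k) := by
            rw [hks, one_mul, mul_one]
        _ = star (k : Op N) * ((k : Op N) * Y * star (k : Op N)) * k := by
            simp only [mul_assoc]
    rw [hgk, h1, Units.val_mul]
    simp only [mul_assoc]

theorem WeightData.conf (W : WeightData A ι) (hG : IsConnectedSemisimple G) (hA : IsCartan G A)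
    {l : (Op N)ˣ} (hl : l ∈ G) (hd : Diag W.P (l : Op N)) :
    ∃ H : A, ∀ i v, ‖(l : Op N) (W.P i v)‖ = Real.exp (W.m H i) * ‖W.P i v‖ := by
  obtain ⟨Y, hY, hYs, he, hc⟩ := Struct46.exists_log hG hl
  have hlA : ∀ X ∈ A, (l : Op N) * X = X * (l : Op N) := (W.diag_iff _).1 hd
  have hslA : ∀ X ∈ A, star (l : Op N) * X = X * star (l : Op N) := by
    intro X hX
    have := congrArg star (hlA X hX)
    rw [star_mul, star_mul, hA.symmetric X hX] at this
    exact this.symm
  have hYA : Y ∈ A := by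
    refine hA.maximal Y hY hYs (fun X hX => ?_)
    refine hc X ?_
    rw [← mul_assoc, ← hslA X hX, mul_assoc, ← hlA X hX, mul_assoc]
  refine ⟨⟨Y, hYA⟩, fun i v => ?_⟩
  have h1 : (exp ((2 : ℝ) • Y)) (W.P i v) = Real.exp (2 * W.m ⟨Y, hYA⟩ i) • (W.P i v) := by
    refine exp_apply_of_eigen ?_
    have h2 := W.A_mul_P46 ⟨Y, hYA⟩ i
    have h3 : Y (W.P i v) = W.m ⟨Y, hYA⟩ i • W.P i v := by
      have := congrArg (fun T : Op N => T v) h2
      exact this
    show (2 : ℝ) • Y (W.P i v) = _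
    rw [h3, smul_smul]
  have h2 : ‖(l : Op N) (W.P i v)‖ ^ 2 = (Real.exp (W.m ⟨Y, hYA⟩ i) * ‖W.P i v‖) ^ 2 := by
    rw [← real_inner_self_eq_norm_sq, ← ContinuousLinearMap.adjoint_inner_right,
      ← ContinuousLinearMap.star_eq_adjoint]
    have h3 : star (l : Op N) ((l : Op N) (W.P i v)) =
        Real.exp (2 * W.m ⟨Y, hYA⟩ i) • (W.P i v) := by
      rw [← h1, ← he]; rfl
    rw [h3, real_inner_smul_right, real_inner_self_eq_norm_sq, mul_pow, ← Real.exp_nat_mul]
    norm_num
  exact (sq_eq_sq₀ (norm_nonneg _) (by positivity)).1 h2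

end KAK

end Pool.Agent.Lib.MP_d9b062_al
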