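import Pool.Agent.Lib.MP_d9b062_al_h46.Root

/-!
# Task WEYL
-/

namespace Pool.Agent.Lib.MP_d9b062_al

open NormedSpace Filter H46
open scoped Topology

section WEYL

variable {N : ℕ} {G : Subgroup (Op N)ˣ} {A : Submodule ℝ (Op N)} {ι : Type} [Fintype ι]
  [LinearOrder ι]

namespace Weyl46

/-- conjugation by `w⁻¹` on `A` -/
noncomputable def adw (w : (Op N)ˣ) (hw : ∀ X ∈ A, ((w⁻¹ : (Op N)ˣ) : Op N) * X * (w : Op N) ∈ A) :
    A →ₗ[ℝ] A where
  toFun K := ⟨((w⁻¹ : (Op N)ˣ) : Op N) * (K : Op N) * (w : Op N), hw _ K.2⟩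
  map_add' K L := by
    ext1
    show ((w⁻¹ : (Op N)ˣ) : Op N) * ((K : Op N) + (L : Op N)) * (w : Op N) = _
    rw [mul_add, add_mul]; rfl
  map_smul' c K := by
    ext1
    show ((w⁻¹ : (Op N)ˣ) : Op N) * (c • (K : Op N)) * (w : Op N) =
      c • (((w⁻¹ : (Op N)ˣ) : Op N) * (K : Op N) * (w : Op N))
    rw [op_mul_smul, op_smul_mul]

lemma adw_coe (w : (Op N)ˣ) (hw : ∀ X ∈ A, ((w⁻¹ : (Op N)ˣ) : Op N) * X * (w : Op N) ∈ A) (K : A) :
    ((adw w hw K : A) : Op N) = ((w⁻¹ : (Op N)ˣ) : Op N) * (K : Op N) * (w : Op N) := rfl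

lemma adw_injective (w : (Op N)ˣ)
    (hw : ∀ X ∈ A, ((w⁻¹ : (Op N)ˣ) : Op N) * X * (w : Op N) ∈ A) :
    Function.Injective (adw w hw) := by
  intro K L h
  have h1 : ((w⁻¹ : (Op N)ˣ) : Op N) * (K : Op N) * (w : Op N) =
      ((w⁻¹ : (Op N)ˣ) : Op N) * (L : Op N) * (w : Op N) := congrArg (fun x : A => (x : Op N)) h
  ext1
  have h2 : ∀ T : Op N, (w : Op N) * (((w⁻¹ : (Op N)ˣ) : Op N) * T * (w : Op N)) *
      ((w⁻¹ : (Op N)ˣ) : Op N) = T := by
    intro T
    calc (w : Op N) * (((w⁻¹ : (Op N)ˣ) : Op N) * T * (w : Op N)) * ((w⁻¹ : (Op N)ˣ) : Op N)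
        = ((w : Op N) * ((w⁻¹ : (Op N)ˣ) : Op N)) * T *
          ((w : Op N) * ((w⁻¹ : (Op N)ˣ) : Op N)) := by simp only [mul_assoc]
      _ = T := by rw [Units.mul_inv, one_mul, mul_one]
  rw [← h2 K, ← h2 L, h1]

/-- the weight functional -/
noncomputable def wt (W : WeightData A ι) (i : ι) : A →ₗ[ℝ] ℝ := (LinearMap.proj i) ∘ₗ W.m

lemma wt_apply (W : WeightData A ι) (i : ι) (K : A) : wt W i K = W.m K i := rfl

/-- weights of eigenvectors -/
lemma block_eq_zero_or (W : WeightData A ι) {T : Op N} {ν : A →ₗ[ℝ] ℝ}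
    (h : ∀ K : A, (K : Op N) * T = ν K • T) (j : ι) : W.P j * T = 0 ∨ wt W j = ν := by
  by_cases h0 : W.P j * T = 0
  · exact Or.inl h0
  · refine Or.inr (LinearMap.ext fun K => ?_)
    have h1 : W.m K j • (W.P j * T) = ν K • (W.P j * T) := by
      rw [← op_smul_mul, ← W.P_mul_A46 K j, mul_assoc, h, op_mul_smul]
    exact op_smul_cancel h1 h0

lemma wt_injective (W : WeightData A ι) {i j : ι} (h : wt W i = wt W j) : i = j :=
  W.strictMono.injective (by
    have := congrArg (fun f : A →ₗ[ℝ] ℝ => f W.H0) h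
    exact this)

/-- a root vector has a block realising the root as a positive pair -/
lemma root_pair (W : WeightData A ι) {Z : Op N} (hZ : Z ∈ lieAlg G) (hne : Z ≠ 0)
    {β : A →ₗ[ℝ] ℝ} (h : ∀ K : A, (K : Op N) * Z - Z * (K : Op N) = β K • Z) (hpos : 0 < β W.H0) :
    ∃ a b, W.Pos G a b ∧ ∀ K : A, β K = W.m K b - W.m K a := by
  have h1 : ∃ b a, W.P b * Z * W.P a ≠ 0 := by
    by_contra hcon
    push Not at hcon
    apply hne
    refine W.grading.ext (fun i j => ?_)
    rw [hcon i j, mul_zero, zero_mul]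
  obtain ⟨b, a, hba⟩ := h1
  have h2 : ∀ K : A, β K = W.m K b - W.m K a := by
    intro K
    have h3 : W.P b * ((K : Op N) * Z - Z * (K : Op N)) * W.P a =
        (W.m K b - W.m K a) • (W.P b * Z * W.P a) := by
      have e1 : W.P b * ((K : Op N) * Z - Z * (K : Op N)) * W.P a =
          (W.P b * (K : Op N)) * Z * W.P a - W.P b * Z * ((K : Op N) * W.P a) := by
        simp only [mul_sub, sub_mul, mul_assoc]
      rw [e1, W.P_mul_A46, W.A_mul_P46, op_smul_mul, op_smul_mul, op_mul_smul]
      exact (sub_smul _ _ _).symm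
    rw [h, op_mul_smul, op_smul_mul] at h3
    exact op_smul_cancel h3 hba
  refine ⟨a, b, ⟨?_, Z, hZ, hba⟩, h2⟩
  rw [h2] at hpos
  exact W.strictMono.lt_iff_lt.1 (by linarith)

/-- the negative of a root is a root -/
lemma neg_root (hG : IsConnectedSemisimple G) (hA : IsCartan G A) {Z : Op N} (hZ : Z ∈ lieAlg G)
    {β : A →ₗ[ℝ] ℝ} (h : ∀ K : A, (K : Op N) * Z - Z * (K : Op N) = β K • Z) :
    star Z ∈ lieAlg G ∧
      ∀ K : A, (K : Op N) * star Z - star Z * (K : Op N) = (-β) K • star Z := by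
  refine ⟨Struct46.lieAlg_star hG hZ, fun K => ?_⟩
  have h1 := congrArg star (h K)
  rw [op_star_sub, star_mul, star_mul, hA.symmetric _ K.2, op_star_smul] at h1
  have h2 : (K : Op N) * star Z - star Z * (K : Op N) =
      -(star Z * (K : Op N) - (K : Op N) * star Z) := by abel
  rw [h2, h1, LinearMap.neg_apply]
  exact (neg_smul (β K) (star Z)).symm

end Weyl46

open Weyl46 in
theorem WeightData.exists_perm (W : WeightData A ι) (hG : IsConnectedSemisimple G)
    (hA : IsCartan G A) {H : A} (hpos : ∀ α : A →ₗ[ℝ] ℝ, IsRoot G A α → 0 < α H → 0 < α W.H0)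
    {w : (Op N)ˣ} (hw : IsLongest G A H w) (hH : IsRegular G A H) :
    ∃ π : ι → ι, π W.o = W.o ∧ (∀ i, (w : Op N) * W.P i = W.P (π i) * w) ∧
      ∀ i j, W.r G i j → W.r G (π j) (π i) := by
  classical
  have hmneg : ∀ (x : A) (i : ι), W.m (-x) i = -(W.m x i) := fun x i => by
    have h : W.m (-x) = -(W.m x) := W.m.map_neg x
    rw [h]; rfl
  obtain ⟨hwG, hwA, hwneg⟩ := hw
  have hwinv : (w : Op N) * ((w⁻¹ : (Op N)ˣ) : Op N) = 1 := Units.mul_inv w
  have hwinv' : ((w⁻¹ : (Op N)ˣ) : Op N) * (w : Op N) = 1 := Units.inv_mul w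
  set Ad := adw w hwA with hAd
  -- `K w P_i = m_i (Ad K) w P_i`
  have hKw : ∀ (i : ι) (K : A), (K : Op N) * ((w : Op N) * W.P i) =
      (wt W i ∘ₗ Ad) K • ((w : Op N) * W.P i) := by
    intro i K
    have h1 : (K : Op N) * (w : Op N) = (w : Op N) * ((Ad K : A) : Op N) := by
      rw [hAd, adw_coe, ← mul_assoc, ← mul_assoc, hwinv, one_mul]
    rw [← mul_assoc, h1, mul_assoc, W.A_mul_P46, op_mul_smul]
    rfl
  have hwP : ∀ i, W.P i ≠ 0 → (w : Op N) * W.P i ≠ 0 := by
    intro i hi h0
    apply hi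
    calc W.P i = (((w⁻¹ : (Op N)ˣ) : Op N) * (w : Op N)) * W.P i := by rw [hwinv', one_mul]
      _ = 0 := by rw [mul_assoc, h0, mul_zero]
  have hex : ∀ i, W.P i ≠ 0 → ∃ j, wt W j = wt W i ∘ₗ Ad := by
    intro i hi
    by_contra hcon
    push Not at hcon
    apply hwP i hi
    rw [W.grading.sum_mul ((w : Op N) * W.P i)]
    refine Finset.sum_eq_zero fun j _ => ?_
    rcases block_eq_zero_or W (hKw i) j with h | h
    · exact h
    · exact absurd h (hcon j)
  let π : ι → ι := fun i => if h : W.P i ≠ 0 then (hex i h).choose else i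
  have hπ : ∀ i, W.P i ≠ 0 → wt W (π i) = wt W i ∘ₗ Ad := by
    intro i hi
    have : π i = (hex i hi).choose := dif_pos hi
    rw [this]
    exact (hex i hi).choose_spec
  have hwto : wt W W.o = 0 := LinearMap.ext fun K => W.m_o K
  have hπo : π W.o = W.o := by
    by_cases h0 : W.P W.o = 0
    · show (if h : W.P W.o ≠ 0 then _ else _) = _
      rw [dif_neg (not_not.2 h0)]
    · apply wt_injective W
      rw [hπ _ h0, hwto, LinearMap.zero_comp]
  -- the weights, without the condition
  have hπ' : ∀ i, wt W (π i) = wt W i ∘ₗ Ad := by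
    intro i
    by_cases hi : W.P i = 0
    · have hio : i = W.o := by
        by_contra hne
        exact W.P_ne i hne hi
      rw [hio, hπo, hwto, LinearMap.zero_comp]
    · exact hπ i hi
  have hAdsurj : Function.Surjective Ad :=
    @LinearMap.surjective_of_injective ℝ A _ _ _ _ Ad (adw_injective w hwA)
  have hπinj : Function.Injective π := by
    intro i j hij
    apply wt_injective W
    have h1 : wt W i ∘ₗ Ad = wt W j ∘ₗ Ad := by rw [← hπ' i, ← hπ' j, hij]
    refine LinearMap.ext fun K => ?_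
    obtain ⟨K', rfl⟩ := hAdsurj K
    exact congrArg (fun f : A →ₗ[ℝ] ℝ => f K') h1
  refine ⟨π, hπo, fun i => ?_, fun i j hij => ?_⟩
  · -- `w P_i = P_{π i} w`
    have h1 : ∀ j, j ≠ π i → W.P j * ((w : Op N) * W.P i) = 0 := by
      intro j hj
      rcases block_eq_zero_or W (hKw i) j with h | h
      · exact h
      · exact absurd (wt_injective W (h.trans (hπ' i).symm)) hj
    have h2 : (w : Op N) * W.P i = W.P (π i) * ((w : Op N) * W.P i) := by
      conv_lhs => rw [W.grading.sum_mul ((w : Op N) * W.P i)]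
      exact Finset.sum_eq_single _ (fun j _ hj => h1 j hj) (fun h => absurd (Finset.mem_univ _) h)
    have h3 : W.P (π i) * (w : Op N) = W.P (π i) * ((w : Op N) * W.P i) := by
      conv_lhs => rw [W.grading.mul_sum (W.P (π i) * (w : Op N))]
      rw [Finset.sum_eq_single i]
      · rw [mul_assoc]
      · intro j _ hj
        rw [mul_assoc]
        rcases block_eq_zero_or W (hKw j) (π i) with h | h
        · exact h
        · exact absurd (hπinj (wt_injective W (h.trans (hπ' j).symm))) (Ne.symm hj)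
      · intro h; exact absurd (Finset.mem_univ _) h
    rw [h2, ← h3]
  · -- order reversing
    intro K hK
    -- `K' = - Ad K` is in the open chamber
    have hK' : ∀ a b, W.Pos G a b → W.m (-(Ad K)) a < W.m (-(Ad K)) b := by
      intro a b hab
      obtain ⟨hlt, Z, hZ, hne⟩ := hab
      set δ := W.m W.H0 b - W.m W.H0 a with hδ
      have hδ0 : 0 < δ := sub_pos.2 (W.strictMono hlt)
      set X := W.compo46 δ Z with hX
      have hXmem : X ∈ lieAlg G := W.compo_mem46 hG hA hZ δ
      have hXne : X ≠ 0 := W.compo_ne46 hne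
      set α : A →ₗ[ℝ] ℝ := wt W b - wt W a with hα
      have hbr : ∀ K : A, (K : Op N) * X - X * (K : Op N) = α K • X := fun K =>
        W.compo_bracket46 a b Z K
      have hαH0 : 0 < α W.H0 := hδ0
      have hαroot : IsRoot G A α := by
        refine ⟨?_, X, hXmem, hXne, hbr⟩
        intro h0
        rw [h0] at hαH0
        exact lt_irrefl _ hαH0
      have hαH : 0 < α H := by
        rcases lt_or_gt_of_ne (hH α hαroot) with h | h
        · exfalso
          obtain ⟨hs1, hs2⟩ := neg_root hG hA hXmem hbr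
          have hnr : IsRoot G A (-α) := by
            refine ⟨?_, star X, hs1, ?_, hs2⟩
            · intro h0
              exact hαroot.1 (neg_eq_zero.1 h0)
            · intro h0
              apply hXne
              rw [← star_star X, h0, op_star_zero]
          have := hpos _ hnr (by rw [LinearMap.neg_apply]; linarith)
          rw [LinearMap.neg_apply] at this
          linarith
        · exact h
      -- the root `β = α ∘ Ad` with root vector `w X w⁻¹`
      set Y : Op N := (w : Op N) * X * ((w⁻¹ : (Op N)ˣ) : Op N) with hY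
      have hYmem : Y ∈ lieAlg G := Struct46.lieAlg_conj hwG hXmem
      have hYne : Y ≠ 0 := by
        intro h0
        apply hXne
        calc X = (((w⁻¹ : (Op N)ˣ) : Op N) * (w : Op N)) * X *
              (((w⁻¹ : (Op N)ˣ) : Op N) * (w : Op N)) := by rw [hwinv', one_mul, mul_one]
          _ = ((w⁻¹ : (Op N)ˣ) : Op N) * Y * (w : Op N) := by rw [hY]; simp only [mul_assoc]
          _ = 0 := by rw [h0, mul_zero, zero_mul]
      have hbrY : ∀ K : A, (K : Op N) * Y - Y * (K : Op N) = (α ∘ₗ Ad) K • Y := by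
        intro K
        have h1 : (K : Op N) * (w : Op N) = (w : Op N) * ((Ad K : A) : Op N) := by
          rw [hAd, adw_coe, ← mul_assoc, ← mul_assoc, hwinv, one_mul]
        have h2 : ((w⁻¹ : (Op N)ˣ) : Op N) * (K : Op N) =
            ((Ad K : A) : Op N) * ((w⁻¹ : (Op N)ˣ) : Op N) := by
          rw [hAd, adw_coe, mul_assoc, hwinv, mul_one]
        have h3 : (K : Op N) * Y - Y * (K : Op N) =
            (w : Op N) * (((Ad K : A) : Op N) * X - X * ((Ad K : A) : Op N)) *
              ((w⁻¹ : (Op N)ˣ) : Op N) := by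
          rw [hY, mul_sub, sub_mul]
          congr 1
          · rw [← mul_assoc, ← mul_assoc, h1]
            simp only [mul_assoc]
          · rw [mul_assoc _ _ (K : Op N), h2]
            simp only [mul_assoc]
        rw [h3, hbr, op_mul_smul, op_smul_mul]
        rfl
      obtain ⟨hs1, hs2⟩ := neg_root hG hA hYmem hbrY
      have hβH : (α ∘ₗ Ad) H < 0 := hwneg α hαroot hαH
      have hnr : IsRoot G A (-(α ∘ₗ Ad)) := by
        refine ⟨?_, star Y, hs1, ?_, hs2⟩
        · intro h0
          have h1 : (-(α ∘ₗ Ad)) H = 0 := by rw [h0]; rfl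
          rw [LinearMap.neg_apply] at h1
          linarith
        · intro h0
          apply hYne
          rw [← star_star Y, h0, op_star_zero]
      have hβH0 : 0 < (-(α ∘ₗ Ad)) W.H0 := hpos _ hnr (by rw [LinearMap.neg_apply]; linarith)
      obtain ⟨c, d, hcd, hval⟩ := root_pair W hs1 (by
        intro h0
        apply hYne
        rw [← star_star Y, h0, op_star_zero]) hs2 hβH0
      have h4 := hK c d hcd
      have h5 := hval K
      have h6 : (α ∘ₗ Ad) K = W.m (Ad K) b - W.m (Ad K) a := rfl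
      rw [LinearMap.neg_apply, h6] at h5
      rw [hmneg, hmneg]
      linarith
    have h1 := hij (-(Ad K)) hK'
    rw [hmneg, hmneg] at h1
    have h2 : ∀ i, W.m K (π i) = W.m (Ad K) i := fun i =>
      congrArg (fun f : A →ₗ[ℝ] ℝ => f K) (hπ' i)
    rw [h2, h2]
    linarith

end WEYL

end Pool.Agent.Lib.MP_d9b062_al
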