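import Pool.Agent.Lib.MP_d9b062_al_h64.Basic

/-!
# Affine unipotent groups attached to a sign pattern
-/

namespace Pool.Agent.Lib.MP_d9b062_al

open Filter
open scoped Topology

namespace Aff

variable {E : Type*} [NormedAddCommGroup E] [NormedSpace ℝ E]

/-- distance of an affine map to the identity -/
noncomputable def nrm46 (x : Aff E) : ℝ := ‖(x.lin : E →L[ℝ] E) - 1‖ + ‖x.tr‖

lemma nrm_nonneg46 (x : Aff E) : 0 ≤ nrm46 x := add_nonneg (norm_nonneg _) (norm_nonneg _)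

lemma norm_lin_sub_le46 (x : Aff E) : ‖(x.lin : E →L[ℝ] E) - 1‖ ≤ nrm46 x :=
  le_add_of_nonneg_right (norm_nonneg _)

lemma norm_tr_le46 (x : Aff E) : ‖x.tr‖ ≤ nrm46 x := le_add_of_nonneg_left (norm_nonneg _)

lemma norm_one_le46 : ‖(1 : E →L[ℝ] E)‖ ≤ 1 := ContinuousLinearMap.norm_id_le

lemma norm_lin_le46 (x : Aff E) : ‖(x.lin : E →L[ℝ] E)‖ ≤ 1 + nrm46 x := by
  calc ‖(x.lin : E →L[ℝ] E)‖ = ‖((x.lin : E →L[ℝ] E) - 1) + 1‖ := by rw [sub_add_cancel]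
    _ ≤ ‖(x.lin : E →L[ℝ] E) - 1‖ + ‖(1 : E →L[ℝ] E)‖ := norm_add_le _ _
    _ ≤ nrm46 x + 1 := add_le_add (norm_lin_sub_le46 x) norm_one_le46
    _ = 1 + nrm46 x := add_comm _ _

lemma nrm_one46 : nrm46 (1 : Aff E) = 0 := by simp [nrm46]

lemma nrm_mul_le46 (x y : Aff E) : nrm46 (x * y) ≤ nrm46 x + (1 + nrm46 x) * nrm46 y := by
  have h1 : ((x * y).lin : E →L[ℝ] E) - 1
      = ((x.lin : E →L[ℝ] E) - 1) + (x.lin : E →L[ℝ] E) * ((y.lin : E →L[ℝ] E) - 1) := by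
    rw [mul_lin, Units.val_mul, mul_sub, mul_one]; abel
  have h2 : ‖((x * y).lin : E →L[ℝ] E) - 1‖ ≤ ‖(x.lin : E →L[ℝ] E) - 1‖ +
      ‖(x.lin : E →L[ℝ] E)‖ * ‖(y.lin : E →L[ℝ] E) - 1‖ := by
    rw [h1]
    exact (norm_add_le _ _).trans (add_le_add le_rfl (norm_mul_le _ _))
  have h3 : ‖(x * y).tr‖ ≤ ‖x.tr‖ + ‖(x.lin : E →L[ℝ] E)‖ * ‖y.tr‖ := by
    rw [mul_tr]
    exact (norm_add_le _ _).trans (add_le_add le_rfl (ContinuousLinearMap.le_opNorm _ _))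
  have h4 := norm_lin_le46 x
  calc nrm46 (x * y) ≤ (‖(x.lin : E →L[ℝ] E) - 1‖ +
      ‖(x.lin : E →L[ℝ] E)‖ * ‖(y.lin : E →L[ℝ] E) - 1‖) +
      (‖x.tr‖ + ‖(x.lin : E →L[ℝ] E)‖ * ‖y.tr‖) := add_le_add h2 h3
    _ = nrm46 x + ‖(x.lin : E →L[ℝ] E)‖ * nrm46 y := by rw [nrm46, nrm46]; ring
    _ ≤ nrm46 x + (1 + nrm46 x) * nrm46 y :=
        add_le_add le_rfl (mul_le_mul_of_nonneg_right h4 (nrm_nonneg46 y))

/-- conjugation by a bounded affine map -/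
lemma nrm_conj_le46 (x y : Aff E) {R : ℝ} (hx : nrm46 x ≤ R)
    (hx' : ‖((x.lin⁻¹ : (E →L[ℝ] E)ˣ) : E →L[ℝ] E)‖ ≤ R) :
    nrm46 (x⁻¹ * y * x) ≤ R * (1 + 2 * R) * nrm46 y := by
  have hR : 0 ≤ R := (nrm_nonneg46 x).trans hx
  set a : E →L[ℝ] E := (x.lin : E →L[ℝ] E) with ha
  set a' : E →L[ℝ] E := ((x.lin⁻¹ : (E →L[ℝ] E)ˣ) : E →L[ℝ] E) with ha'
  set b : E →L[ℝ] E := (y.lin : E →L[ℝ] E) with hb
  have haa : a' * a = 1 := by rw [ha, ha']; exact Units.inv_mul _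
  have h1 : ((x⁻¹ * y * x).lin : E →L[ℝ] E) - 1 = a' * (b - 1) * a := by
    rw [mul_lin, mul_lin, inv_lin, Units.val_mul, Units.val_mul, mul_sub, sub_mul, mul_one, haa]
  have h2 : (x⁻¹ * y * x).tr = a' (y.tr + (b - 1) x.tr) := by
    rw [mul_tr, mul_tr, mul_lin, inv_lin, inv_tr, Units.val_mul]
    change -(a' x.tr) + a' y.tr + a' (b x.tr) = a' (y.tr + (b x.tr - x.tr))
    rw [map_add, map_sub]; abel
  have h3 : ‖a' * (b - 1) * a‖ ≤ R * ‖b - 1‖ * (1 + R) := by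
    calc ‖a' * (b - 1) * a‖ ≤ ‖a' * (b - 1)‖ * ‖a‖ := norm_mul_le _ _
      _ ≤ (‖a'‖ * ‖b - 1‖) * ‖a‖ := mul_le_mul_of_nonneg_right (norm_mul_le _ _) (norm_nonneg _)
      _ ≤ (R * ‖b - 1‖) * (1 + R) := by
          apply mul_le_mul _ _ (norm_nonneg _) (mul_nonneg hR (norm_nonneg _))
          · exact mul_le_mul_of_nonneg_right hx' (norm_nonneg _)
          · exact (norm_lin_le46 x).trans (by linarith)
  have h4 : ‖a' (y.tr + (b - 1) x.tr)‖ ≤ R * (‖y.tr‖ + ‖b - 1‖ * R) := by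
    calc ‖a' (y.tr + (b - 1) x.tr)‖ ≤ ‖a'‖ * ‖y.tr + (b - 1) x.tr‖ :=
          ContinuousLinearMap.le_opNorm _ _
      _ ≤ R * (‖y.tr‖ + ‖b - 1‖ * R) := by
          apply mul_le_mul hx' _ (norm_nonneg _) hR
          refine (norm_add_le _ _).trans (add_le_add le_rfl ?_)
          refine (ContinuousLinearMap.le_opNorm _ _).trans ?_
          exact mul_le_mul_of_nonneg_left ((norm_tr_le46 x).trans hx) (norm_nonneg _)
  have h5 : nrm46 y = ‖b - 1‖ + ‖y.tr‖ := rfl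
  have h6 : nrm46 (x⁻¹ * y * x) ≤ R * ‖b - 1‖ * (1 + R) + R * (‖y.tr‖ + ‖b - 1‖ * R) := by
    rw [nrm46, h1, h2]; exact add_le_add h3 h4
  refine h6.trans ?_
  rw [h5]
  have h7 : 0 ≤ R * R * ‖y.tr‖ := by positivity
  nlinarith

end Aff

namespace Cell

variable {N : ℕ} {G : Subgroup (Op N)ˣ} {ι : Type} [Fintype ι] [LinearOrder ι] (c : Cell G ι)

/-- a sign pattern, increasing for the order on the weights -/
structure Sgn46 (X : ι → ℝ) : Prop where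
  o : X c.o = 0
  ne : ∀ i, i ≠ c.o → X i ≠ 0
  mono : ∀ i j, c.r i j → X i < X j

lemma P_P_apply46 (i : ι) (v : V N) : c.P i (c.P i v) = c.P i v :=
  congrArg (fun T : Op N => T v) (c.grading.idem i)

lemma P_P_ne46 {i j : ι} (h : i ≠ j) (v : V N) : c.P i (c.P j v) = 0 :=
  congrArg (fun T : Op N => T v) (c.grading.orth i j h)

/-- a vector all of whose images vanish -/
lemma apply_eq_zero46 {T : Op N} {v : V N} (h : ∀ j, T (c.P j v) = 0) : T v = 0 := by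
  have h1 : T v = ∑ j, T (c.P j v) := by rw [← map_sum, c.sum_P_apply]
  rw [h1]
  exact Finset.sum_eq_zero fun j _ => h j

lemma Nm_apply46 {X : ι → ℝ} (hX : c.Sgn46 X) {y : (Op N)ˣ} (hy : y ∈ c.Nm) {v : V N}
    (hv : ∀ i, 0 ≤ X i → c.P i v = 0) : ∀ i, 0 ≤ X i → c.P i ((y : Op N) v) = 0 := by
  intro i hi
  have : (c.P i * (y : Op N)) v = 0 := by
    apply c.apply_eq_zero46
    intro j
    by_cases hj : 0 ≤ X j
    · rw [hv j hj, map_zero]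
    · have hij : i ≠ j := fun h => hj (h ▸ hi)
      have hr : ¬ c.r i j := fun h => hj (hi.trans (hX.mono i j h).le)
      exact congrArg (fun T : Op N => T v) (hy.2.2 i j hij hr)
  exact this

lemma Np_apply46 {X : ι → ℝ} (hX : c.Sgn46 X) {x : (Op N)ˣ} (hx : x ∈ c.Np) {v : V N}
    (hv : ∀ i, X i ≤ 0 → c.P i v = 0) : ∀ i, X i ≤ 0 → c.P i ((x : Op N) v) = 0 := by
  intro i hi
  have : (c.P i * (x : Op N)) v = 0 := by
    apply c.apply_eq_zero46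
    intro j
    by_cases hj : X j ≤ 0
    · rw [hv j hj, map_zero]
    · have hij : i ≠ j := fun h => hj (h ▸ hi)
      have hr : ¬ c.r j i := fun h => hj ((hX.mono j i h).le.trans hi)
      exact congrArg (fun T : Op N => T v) (hx.2.2 i j hij hr)
  exact this

lemma L_comm46 {l : (Op N)ˣ} (hl : l ∈ c.L) (i : ι) (v : V N) :
    c.P i ((l : Op N) v) = (l : Op N) (c.P i v) :=
  congrArg (fun T : Op N => T v) (hl.2 i)

/-- affine maps with linear part in `N⁻` and translation in the negative blocks -/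
def Um46 {X : ι → ℝ} (hX : c.Sgn46 X) : Subgroup (Aff (V N)) where
  carrier := {T | T.lin ∈ c.Nm ∧ ∀ i, 0 ≤ X i → c.P i T.tr = 0}
  mul_mem' := fun {a b} ha hb => ⟨c.Nm.mul_mem ha.1 hb.1, fun i hi => by
    rw [Aff.mul_tr, map_add, ha.2 i hi, c.Nm_apply46 hX ha.1 hb.2 i hi, add_zero]⟩
  one_mem' := ⟨c.Nm.one_mem, fun i _ => map_zero _⟩
  inv_mem' := fun {a} ha => ⟨c.Nm.inv_mem ha.1, fun i hi => by
    rw [Aff.inv_tr, map_neg, c.Nm_apply46 hX (c.Nm.inv_mem ha.1) ha.2 i hi, neg_zero]⟩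

/-- affine maps with linear part in `L` and translation in the block `o` -/
def Mo46 : Subgroup (Aff (V N)) where
  carrier := {T | T.lin ∈ c.L ∧ c.P c.o T.tr = T.tr}
  mul_mem' := fun {a b} ha hb => ⟨c.L.mul_mem ha.1 hb.1, by
    rw [Aff.mul_tr, map_add, ha.2, c.L_comm46 ha.1, hb.2]⟩
  one_mem' := ⟨c.L.one_mem, map_zero _⟩
  inv_mem' := fun {a} ha => ⟨c.L.inv_mem ha.1, by
    rw [Aff.inv_tr, map_neg, c.L_comm46 (c.L.inv_mem ha.1), ha.2]⟩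

/-- affine maps with linear part in `N⁺` and translation in the positive blocks -/
def Up46 {X : ι → ℝ} (hX : c.Sgn46 X) : Subgroup (Aff (V N)) where
  carrier := {T | T.lin ∈ c.Np ∧ ∀ i, X i ≤ 0 → c.P i T.tr = 0}
  mul_mem' := fun {a b} ha hb => ⟨c.Np.mul_mem ha.1 hb.1, fun i hi => by
    rw [Aff.mul_tr, map_add, ha.2 i hi, c.Np_apply46 hX ha.1 hb.2 i hi, add_zero]⟩
  one_mem' := ⟨c.Np.one_mem, fun i _ => map_zero _⟩
  inv_mem' := fun {a} ha => ⟨c.Np.inv_mem ha.1, fun i hi => by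
    rw [Aff.inv_tr, map_neg, c.Np_apply46 hX (c.Np.inv_mem ha.1) ha.2 i hi, neg_zero]⟩

end Cell

end Pool.Agent.Lib.MP_d9b062_al
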