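import Pool.Agent.Lib.MP_d9b062_al_h46.Polar
import Pool.Agent.Lib.MP_d9b062_al.Interface

/-!
# The Lie algebra of a connected semisimple group (task ALG, part)
-/

namespace Pool.Agent.Lib.MP_d9b062_al

open NormedSpace Filter H46
open scoped Topology

section ALG

variable {N : ℕ} {G : Subgroup (Op N)ˣ}

namespace Struct46

theorem polyVal_mem (p : MvPolynomial (Fin N × Fin N) ℝ) :
    (fun T : Op N => polyVal p T) ∈ PolyFun (Op N) := by
  induction p using MvPolynomial.induction_on with
  | C a =>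
    have : (fun T : Op N => polyVal (MvPolynomial.C a) T) = fun _ => a := by
      ext T; simp [polyVal]
    rw [this]
    exact PolyFun.const a
  | add p q hp hq =>
    have : (fun T : Op N => polyVal (p + q) T) = fun T => polyVal p T + polyVal q T := by
      ext T; simp [polyVal]
    rw [this]
    exact PolyFun.add hp hq
  | mul_X p ij hp =>
    have : (fun T : Op N => polyVal (p * MvPolynomial.X ij) T) =
        fun T => polyVal p T * T (EuclideanSpace.single ij.2 1) ij.1 := by
      ext T; simp [polyVal]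
    rw [this]
    refine PolyFun.mul hp ?_
    let φ : Op N →ₗ[ℝ] ℝ :=
      { toFun := fun T => T (EuclideanSpace.single ij.2 1) ij.1
        map_add' := fun S T => by simp
        map_smul' := fun c T => by simp }
    exact PolyFun.linear φ

theorem zClosed (hG : IsConnectedSemisimple G) : ZClosed G := fun g hg =>
  hG.closed g fun p hp => hg _ (polyVal_mem p) hp

theorem lieAlg_add (hG : IsConnectedSemisimple G) {Y Z : Op N} (hY : Y ∈ lieAlg G)
    (hZ : Z ∈ lieAlg G) : Y + Z ∈ lieAlg G := add_mem_lieSet (zClosed hG) hY hZ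

theorem lieAlg_smul {Z : Op N} (c : ℝ) (hZ : Z ∈ lieAlg G) : c • Z ∈ lieAlg G :=
  smul_mem_lieSet hZ c

theorem lieAlg_bracket (hG : IsConnectedSemisimple G) {Y Z : Op N} (hY : Y ∈ lieAlg G)
    (hZ : Z ∈ lieAlg G) : Y * Z - Z * Y ∈ lieAlg G :=
  bracket_mem_lieSet (zClosed hG) hY hZ

theorem lieAlg_star (hG : IsConnectedSemisimple G) {Z : Op N} (hZ : Z ∈ lieAlg G) :
    star Z ∈ lieAlg G := star_mem_lieSet hG.star_mem hZ

theorem lieAlg_conj {g : (Op N)ˣ} (hg : g ∈ G) {Z : Op N} (hZ : Z ∈ lieAlg G) :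
    (g : Op N) * Z * ((g⁻¹ : (Op N)ˣ) : Op N) ∈ lieAlg G := conj_mem_lieSet hZ hg

/-- logarithm of `g* g` (the powers of a positive element of an algebraic group are in it) -/
theorem exists_log (hG : IsConnectedSemisimple G) {g : (Op N)ˣ} (hg : g ∈ G) :
    ∃ Y ∈ lieAlg G, star Y = Y ∧ star (g : Op N) * g = exp ((2 : ℝ) • Y) ∧
      ∀ T : Op N, T * (star (g : Op N) * g) = (star (g : Op N) * g) * T → T * Y = Y * T := by
  obtain ⟨Y, hY, hs, he, hc, -⟩ := polar (zClosed hG) hG.star_mem hg
  exact ⟨Y, hY, hs, he, hc⟩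

end Struct46

end ALG

end Pool.Agent.Lib.MP_d9b062_al
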