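import Pool.Agent.Lib.MP_d9b062_al_h46.Affine

/-!
# Contraction factors of affine maps
-/

namespace Pool.Agent.Lib.MP_d9b062_al

open Filter
open scoped Topology

namespace Aff

variable {E : Type*} [NormedAddCommGroup E] [NormedSpace ℝ E]

lemma pow_eq46 (l : (E →L[ℝ] E)ˣ) {t : E} (ht : (l : E →L[ℝ] E) t = t) (n : ℕ) :
    (⟨l, t⟩ : Aff E) ^ n = ⟨l ^ n, (n : ℝ) • t⟩ := by
  induction n with
  | zero => ext1 <;> simp
  | succ n ih =>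
    rw [pow_succ', ih]
    ext1
    · rw [mul_lin, pow_succ']
    · rw [mul_tr]
      change t + (l : E →L[ℝ] E) ((n : ℝ) • t) = ((n + 1 : ℕ) : ℝ) • t
      rw [map_smul, ht, Nat.cast_add, Nat.cast_one, add_smul, one_smul, add_comm]

end Aff

namespace Cell

variable {N : ℕ} {G : Subgroup (Op N)ˣ} {ι : Type} [Fintype ι] [LinearOrder ι] (c : Cell G ι)

/-- sign -/
noncomputable def sg46 (x : ℝ) : ℝ := if x < 0 then -1 else 1

/-- contraction factor on the block `i` -/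
noncomputable def eX46 (X : ι → ℝ) (l : Op N) (i : ι) : ℝ :=
  if i = c.o then 0 else Real.exp (-(sg46 (X i) * c.tau l i))

lemma eX_nonneg46 (X : ι → ℝ) (l : Op N) (i : ι) : 0 ≤ c.eX46 X l i := by
  rw [eX46]; split_ifs
  · exact le_rfl
  · exact (Real.exp_pos _).le

lemma eX_mul46 {X : ι → ℝ} {l l' : (Op N)ˣ} (hl : l ∈ c.L) (hl' : l' ∈ c.L) (i : ι) :
    c.eX46 X ((l : Op N) * l') i = c.eX46 X (l : Op N) i * c.eX46 X (l' : Op N) i := by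
  rw [eX46, eX46, eX46]
  split_ifs with h
  · rw [mul_zero]
  · rw [c.tau_mul hl hl', ← Real.exp_add, Pi.add_apply]
    congr 1; ring

/-- contraction factor -/
noncomputable def kA46 (X : ι → ℝ) (l : Op N) : ℝ := c.kap l + ∑ i, c.eX46 X l i

lemma sum_eX_nonneg46 (X : ι → ℝ) (l : Op N) : 0 ≤ ∑ i, c.eX46 X l i :=
  Finset.sum_nonneg fun i _ => c.eX_nonneg46 X l i

lemma kap_le_kA46 (X : ι → ℝ) (l : Op N) : c.kap l ≤ c.kA46 X l :=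
  le_add_of_nonneg_right (c.sum_eX_nonneg46 X l)

lemma sum_eX_le_kA46 (X : ι → ℝ) (l : Op N) : ∑ i, c.eX46 X l i ≤ c.kA46 X l :=
  le_add_of_nonneg_left (c.kap_nonneg l)

lemma kA_pos46 (X : ι → ℝ) (l : Op N) : 0 < c.kA46 X l := by
  obtain ⟨i, hi⟩ := c.exists_ne
  have h1 : 0 < c.eX46 X l i := by
    rw [eX46, if_neg hi]; exact Real.exp_pos _
  have h2 : c.eX46 X l i ≤ ∑ j, c.eX46 X l j :=
    Finset.single_le_sum (fun j _ => c.eX_nonneg46 X l j) (Finset.mem_univ i)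
  have h3 := c.sum_eX_le_kA46 X l
  linarith

lemma kA_mul46 {X : ι → ℝ} {l l' : (Op N)ˣ} (hl : l ∈ c.L) (hl' : l' ∈ c.L) :
    c.kA46 X ((l : Op N) * l') ≤ c.kA46 X (l : Op N) * c.kA46 X (l' : Op N) := by
  have h1 := c.kap_mul hl hl'
  have h2 : ∑ i, c.eX46 X ((l : Op N) * l') i ≤
      (∑ i, c.eX46 X (l : Op N) i) * ∑ i, c.eX46 X (l' : Op N) i := by
    rw [Finset.sum_mul]
    refine Finset.sum_le_sum fun i hi => ?_
    rw [c.eX_mul46 hl hl']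
    exact mul_le_mul_of_nonneg_left
      (Finset.single_le_sum (fun j _ => c.eX_nonneg46 X (l' : Op N) j) hi) (c.eX_nonneg46 X _ i)
  have h3 := c.kap_nonneg (l : Op N)
  have h4 := c.kap_nonneg (l' : Op N)
  have h5 := c.sum_eX_nonneg46 X (l : Op N)
  have h6 := c.sum_eX_nonneg46 X (l' : Op N)
  rw [kA46, kA46, kA46]
  nlinarith [mul_nonneg h3 h6, mul_nonneg h5 h4]

/-- contraction factor of a block diagonal affine map -/
noncomputable def kk46 (X : ι → ℝ) (D : Aff (V N)) : ℝ := (1 + ‖D.tr‖) * c.kA46 X (D.lin : Op N)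

lemma kk_pos46 (X : ι → ℝ) (D : Aff (V N)) : 0 < c.kk46 X D :=
  mul_pos (by positivity) (c.kA_pos46 X _)

lemma kA_le_kk46 (X : ι → ℝ) (D : Aff (V N)) : c.kA46 X (D.lin : Op N) ≤ c.kk46 X D := by
  rw [kk46]
  have := c.kA_pos46 X (D.lin : Op N)
  nlinarith [norm_nonneg D.tr]

lemma mem_Mo46 {D : Aff (V N)} : D ∈ c.Mo46 ↔ D.lin ∈ c.L ∧ c.P c.o D.tr = D.tr := Iff.rfl

lemma mem_Um46 {X : ι → ℝ} (hX : c.Sgn46 X) {D : Aff (V N)} :
    D ∈ c.Um46 hX ↔ D.lin ∈ c.Nm ∧ ∀ i, 0 ≤ X i → c.P i D.tr = 0 := Iff.rfl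

lemma mem_Up46 {X : ι → ℝ} (hX : c.Sgn46 X) {D : Aff (V N)} :
    D ∈ c.Up46 hX ↔ D.lin ∈ c.Np ∧ ∀ i, X i ≤ 0 → c.P i D.tr = 0 := Iff.rfl

lemma kk_mul46 {X : ι → ℝ} {D D' : Aff (V N)} (hD : D ∈ c.Mo46) (hD' : D' ∈ c.Mo46) :
    c.kk46 X (D * D') ≤ c.kk46 X D * c.kk46 X D' := by
  have h1 := c.kA_mul46 (X := X) hD.1 hD'.1
  have h2 : ‖(D * D').tr‖ ≤ ‖D.tr‖ + ‖D'.tr‖ := by
    rw [Aff.mul_tr]
    refine (norm_add_le _ _).trans (add_le_add le_rfl ?_)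
    rw [c.norm_o hD.1 hD'.2]
  have h3 : 1 + ‖(D * D').tr‖ ≤ (1 + ‖D.tr‖) * (1 + ‖D'.tr‖) := by
    nlinarith [mul_nonneg (norm_nonneg D.tr) (norm_nonneg D'.tr)]
  have h4 := c.kA_pos46 X (D.lin : Op N)
  have h5 := c.kA_pos46 X (D'.lin : Op N)
  calc c.kk46 X (D * D') = (1 + ‖(D * D').tr‖) * c.kA46 X ((D.lin : Op N) * D'.lin) := rfl
    _ ≤ ((1 + ‖D.tr‖) * (1 + ‖D'.tr‖)) * (c.kA46 X (D.lin : Op N) * c.kA46 X (D'.lin : Op N)) :=
        mul_le_mul h3 h1 (c.kA_pos46 X _).le (by positivity)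
    _ = c.kk46 X D * c.kk46 X D' := by rw [kk46, kk46]; ring

lemma sg_neg46 {x : ℝ} (h : x < 0) : sg46 x = -1 := if_pos h
lemma sg_pos46 {x : ℝ} (h : 0 < x) : sg46 x = 1 := if_neg (not_lt.mpr h.le)

lemma norm_L_apply_le46 {l : (Op N)ˣ} (v : V N) :
    ‖(l : Op N) v‖ ≤ ∑ i, ‖(l : Op N) (c.P i v)‖ := by
  have h : (l : Op N) v = ∑ i, (l : Op N) (c.P i v) := by
    rw [← map_sum, c.sum_P_apply]
  rw [h]
  exact norm_sum_le _ _

lemma norm_P_apply_le46 (i : ι) (v : V N) : ‖c.P i v‖ ≤ ‖v‖ := by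
  calc ‖c.P i v‖ ≤ ‖c.P i‖ * ‖v‖ := ContinuousLinearMap.le_opNorm _ _
    _ ≤ 1 * ‖v‖ := mul_le_mul_of_nonneg_right (c.norm_P_le i) (norm_nonneg _)
    _ = ‖v‖ := one_mul _

lemma L_apply_neg46 {X : ι → ℝ} (hX : c.Sgn46 X) {l : (Op N)ˣ} (hl : l ∈ c.L) {v : V N}
    (hv : ∀ i, 0 ≤ X i → c.P i v = 0) : ‖(l : Op N) v‖ ≤ (∑ i, c.eX46 X (l : Op N) i) * ‖v‖ := by
  refine (c.norm_L_apply_le46 v).trans ?_
  rw [Finset.sum_mul]
  refine Finset.sum_le_sum fun i _ => ?_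
  by_cases hi : 0 ≤ X i
  · rw [hv i hi, map_zero, norm_zero]
    exact mul_nonneg (c.eX_nonneg46 X _ i) (norm_nonneg _)
  · rw [not_le] at hi
    have hio : i ≠ c.o := fun h => by rw [h, hX.o] at hi; exact lt_irrefl _ hi
    rw [c.tau_spec hl, eX46, if_neg hio, sg_neg46 hi]
    refine mul_le_mul (le_of_eq ?_) (c.norm_P_apply_le46 i v) (norm_nonneg _) (Real.exp_pos _).le
    congr 1; ring

lemma L_inv_apply_pos46 {X : ι → ℝ} (hX : c.Sgn46 X) {l : (Op N)ˣ} (hl : l ∈ c.L) {v : V N}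
    (hv : ∀ i, X i ≤ 0 → c.P i v = 0) :
    ‖((l⁻¹ : (Op N)ˣ) : Op N) v‖ ≤ (∑ i, c.eX46 X (l : Op N) i) * ‖v‖ := by
  refine (c.norm_L_apply_le46 (l := l⁻¹) v).trans ?_
  rw [Finset.sum_mul]
  refine Finset.sum_le_sum fun i _ => ?_
  by_cases hi : X i ≤ 0
  · rw [hv i hi, map_zero, norm_zero]
    exact mul_nonneg (c.eX_nonneg46 X _ i) (norm_nonneg _)
  · rw [not_le] at hi
    have hio : i ≠ c.o := fun h => by rw [h, hX.o] at hi; exact lt_irrefl _ hi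
    rw [c.tau_spec (c.L.inv_mem hl), eX46, if_neg hio, sg_pos46 hi, c.tau_inv hl]
    refine mul_le_mul (le_of_eq ?_) (c.norm_P_apply_le46 i v) (norm_nonneg _) (Real.exp_pos _).le
    rw [Pi.neg_apply, one_mul]

lemma Nm_sub_o46 {X : ι → ℝ} (hX : c.Sgn46 X) {u : (Op N)ˣ} (hu : u ∈ c.Nm) {b : V N}
    (hb : c.P c.o b = b) : ∀ i, 0 ≤ X i → c.P i ((u : Op N) b - b) = 0 := by
  intro i hi
  rw [map_sub]
  have h1 : c.P i ((u : Op N) b) = (c.P i * (u : Op N) * c.P c.o) b := by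
    change _ = c.P i ((u : Op N) (c.P c.o b)); rw [hb]
  rw [h1]
  by_cases hio : i = c.o
  · subst hio
    rw [hu.2.1, sub_self]
  · have h2 : ¬ c.r i c.o := fun h => by
      have := hX.mono _ _ h
      rw [hX.o] at this; linarith
    rw [hu.2.2 i c.o hio h2]
    rw [← hb, c.P_P_ne46 hio, sub_zero]
    rfl

lemma Np_sub_o46 {X : ι → ℝ} (hX : c.Sgn46 X) {u : (Op N)ˣ} (hu : u ∈ c.Np) {b : V N}
    (hb : c.P c.o b = b) : ∀ i, X i ≤ 0 → c.P i ((u : Op N) b - b) = 0 := by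
  intro i hi
  rw [map_sub]
  have h1 : c.P i ((u : Op N) b) = (c.P i * (u : Op N) * c.P c.o) b := by
    change _ = c.P i ((u : Op N) (c.P c.o b)); rw [hb]
  rw [h1]
  by_cases hio : i = c.o
  · subst hio
    rw [hu.2.1, sub_self]
  · have h2 : ¬ c.r c.o i := fun h => by
      have := hX.mono _ _ h
      rw [hX.o] at this; linarith
    rw [hu.2.2 i c.o hio h2]
    rw [← hb, c.P_P_ne46 hio, sub_zero]
    rfl

lemma conj_mem_Nm46 {l y : (Op N)ˣ} (hl : l ∈ c.L) (hy : y ∈ c.Nm) : l * y * l⁻¹ ∈ c.Nm :=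
  ⟨G.mul_mem (G.mul_mem hl.1 hy.1) (G.inv_mem hl.1), by
    have := hy.2.conj hl.2
    simpa only [Units.val_mul] using this⟩

lemma conj_mem_Np46 {l x : (Op N)ˣ} (hl : l ∈ c.L) (hx : x ∈ c.Np) : l⁻¹ * x * l ∈ c.Np :=
  ⟨G.mul_mem (G.mul_mem (G.inv_mem hl.1) hx.1) hl.1, by
    have := hx.2.conj (l := l⁻¹) (c.L.inv_mem hl).2
    simpa only [Units.val_mul, inv_inv] using this⟩

lemma conj_Um_tr46 {D Y : Aff (V N)} :
    (D * Y * D⁻¹).tr = (D.lin : Op N) Y.tr -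
      (((D.lin * Y.lin * D.lin⁻¹ : (Op N)ˣ) : Op N) D.tr - D.tr) := by
  rw [Aff.mul_tr, Aff.mul_tr, Aff.mul_lin, Aff.inv_tr, map_neg]
  have : ((D.lin * Y.lin * D.lin⁻¹ : (Op N)ˣ) : Op N) D.tr =
      ((D.lin * Y.lin : (Op N)ˣ) : Op N) (((D.lin⁻¹ : (Op N)ˣ) : Op N) D.tr) := rfl
  rw [this]; abel

lemma conj_Up_tr46 {D Y : Aff (V N)} :
    (D⁻¹ * Y * D).tr = ((D.lin⁻¹ : (Op N)ˣ) : Op N) Y.tr +
      (((D.lin⁻¹ * Y.lin * D.lin : (Op N)ˣ) : Op N) (((D.lin⁻¹ : (Op N)ˣ) : Op N) D.tr) -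
        ((D.lin⁻¹ : (Op N)ˣ) : Op N) D.tr) := by
  rw [Aff.mul_tr, Aff.mul_tr, Aff.mul_lin, Aff.inv_tr, Aff.inv_lin]
  have : ((D.lin⁻¹ * Y.lin * D.lin : (Op N)ˣ) : Op N) (((D.lin⁻¹ : (Op N)ˣ) : Op N) D.tr) =
      ((D.lin⁻¹ * Y.lin : (Op N)ˣ) : Op N) D.tr := by
    have h : (D.lin : Op N) (((D.lin⁻¹ : (Op N)ˣ) : Op N) D.tr) = D.tr :=
      congrArg (fun T : Op N => T D.tr) (Units.mul_inv D.lin)
    change ((D.lin⁻¹ * Y.lin : (Op N)ˣ) : Op N) ((D.lin : Op N)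
      (((D.lin⁻¹ : (Op N)ˣ) : Op N) D.tr)) = _
    rw [h]
  rw [this]; abel

lemma conj_Um46 {X : ι → ℝ} (hX : c.Sgn46 X) {D Y : Aff (V N)} (hD : D ∈ c.Mo46)
    (hY : Y ∈ c.Um46 hX) : D * Y * D⁻¹ ∈ c.Um46 hX ∧ (D * Y * D⁻¹).nrm46 ≤ c.kk46 X D * Y.nrm46 := by
  have hu := c.conj_mem_Nm46 hD.1 hY.1
  constructor
  · refine ⟨hu, fun i hi => ?_⟩
    rw [conj_Um_tr46, map_sub, c.Nm_sub_o46 hX hu hD.2 i hi, sub_zero, c.L_comm46 hD.1, hY.2 i hi,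
      map_zero]
  · have h1 : ‖(((D * Y * D⁻¹).lin : (Op N)ˣ) : Op N) - 1‖ ≤
        c.kap (D.lin : Op N) * ‖(Y.lin : Op N) - 1‖ := by
      have := c.conj_Nm hD.1 hY.1.2
      exact this
    have h2 : ‖(D * Y * D⁻¹).tr‖ ≤ (∑ i, c.eX46 X (D.lin : Op N) i) * ‖Y.tr‖ +
        c.kap (D.lin : Op N) * ‖(Y.lin : Op N) - 1‖ * ‖D.tr‖ := by
      rw [conj_Um_tr46]
      refine (norm_sub_le _ _).trans (add_le_add (c.L_apply_neg46 hX hD.1 hY.2) ?_)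
      have h3 : ((D.lin * Y.lin * D.lin⁻¹ : (Op N)ˣ) : Op N) D.tr - D.tr =
          (((D.lin * Y.lin * D.lin⁻¹ : (Op N)ˣ) : Op N) - 1) D.tr := rfl
      rw [h3]
      exact (ContinuousLinearMap.le_opNorm _ _).trans
        (mul_le_mul_of_nonneg_right h1 (norm_nonneg _))
    have h4 := c.kap_nonneg (D.lin : Op N)
    have h5 := c.sum_eX_nonneg46 X (D.lin : Op N)
    have h6 : (D * Y * D⁻¹).nrm46 ≤ c.kap (D.lin : Op N) * ‖(Y.lin : Op N) - 1‖ +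
      ((∑ i, c.eX46 X (D.lin : Op N) i) * ‖Y.tr‖ +
        c.kap (D.lin : Op N) * ‖(Y.lin : Op N) - 1‖ * ‖D.tr‖) := add_le_add h1 h2
    refine h6.trans ?_
    rw [kk46, kA46, Aff.nrm46]
    have h7 := norm_nonneg ((Y.lin : Op N) - 1)
    have h8 := norm_nonneg Y.tr
    have h9 := norm_nonneg D.tr
    nlinarith [mul_nonneg h4 h8, mul_nonneg h5 h7, mul_nonneg (mul_nonneg h4 h8) h9,
      mul_nonneg (mul_nonneg h5 h7) h9, mul_nonneg (mul_nonneg h5 h8) h9]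

lemma conj_Up46 {X : ι → ℝ} (hX : c.Sgn46 X) {D Y : Aff (V N)} (hD : D ∈ c.Mo46)
    (hY : Y ∈ c.Up46 hX) : D⁻¹ * Y * D ∈ c.Up46 hX ∧ (D⁻¹ * Y * D).nrm46 ≤ c.kk46 X D * Y.nrm46 := by
  have hu := c.conj_mem_Np46 hD.1 hY.1
  have hLi := c.L.inv_mem hD.1
  have hb : c.P c.o (((D.lin⁻¹ : (Op N)ˣ) : Op N) D.tr) = ((D.lin⁻¹ : (Op N)ˣ) : Op N) D.tr := by
    rw [c.L_comm46 hLi, hD.2]
  have hbn : ‖((D.lin⁻¹ : (Op N)ˣ) : Op N) D.tr‖ = ‖D.tr‖ := c.norm_o hLi hD.2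
  constructor
  · refine ⟨hu, fun i hi => ?_⟩
    rw [conj_Up_tr46, map_add, c.Np_sub_o46 hX hu hb i hi, add_zero, c.L_comm46 hLi, hY.2 i hi,
      map_zero]
  · have h1 : ‖(((D⁻¹ * Y * D).lin : (Op N)ˣ) : Op N) - 1‖ ≤
        c.kap (D.lin : Op N) * ‖(Y.lin : Op N) - 1‖ := by
      have := c.conj_Np hD.1 hY.1.2
      exact this
    have h2 : ‖(D⁻¹ * Y * D).tr‖ ≤ (∑ i, c.eX46 X (D.lin : Op N) i) * ‖Y.tr‖ +
        c.kap (D.lin : Op N) * ‖(Y.lin : Op N) - 1‖ * ‖D.tr‖ := by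
      rw [conj_Up_tr46]
      refine (norm_add_le _ _).trans (add_le_add (c.L_inv_apply_pos46 hX hD.1 hY.2) ?_)
      have h3 : ((D.lin⁻¹ * Y.lin * D.lin : (Op N)ˣ) : Op N)
          (((D.lin⁻¹ : (Op N)ˣ) : Op N) D.tr) - ((D.lin⁻¹ : (Op N)ˣ) : Op N) D.tr =
          (((D.lin⁻¹ * Y.lin * D.lin : (Op N)ˣ) : Op N) - 1)
            (((D.lin⁻¹ : (Op N)ˣ) : Op N) D.tr) := rfl
      rw [h3]
      refine (ContinuousLinearMap.le_opNorm _ _).trans ?_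
      rw [hbn]
      exact mul_le_mul_of_nonneg_right h1 (norm_nonneg _)
    have h4 := c.kap_nonneg (D.lin : Op N)
    have h5 := c.sum_eX_nonneg46 X (D.lin : Op N)
    have h6 : (D⁻¹ * Y * D).nrm46 ≤ c.kap (D.lin : Op N) * ‖(Y.lin : Op N) - 1‖ +
      ((∑ i, c.eX46 X (D.lin : Op N) i) * ‖Y.tr‖ +
        c.kap (D.lin : Op N) * ‖(Y.lin : Op N) - 1‖ * ‖D.tr‖) := add_le_add h1 h2
    refine h6.trans ?_
    rw [kk46, kA46, Aff.nrm46]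
    have h7 := norm_nonneg ((Y.lin : Op N) - 1)
    have h8 := norm_nonneg Y.tr
    have h9 := norm_nonneg D.tr
    nlinarith [mul_nonneg h4 h8, mul_nonneg h5 h7, mul_nonneg (mul_nonneg h4 h8) h9,
      mul_nonneg (mul_nonneg h5 h7) h9, mul_nonneg (mul_nonneg h5 h8) h9]

/-- exponential decay of the contraction factors of powers -/
lemma exists_kk_pow46 {X : ι → ℝ} {l : (Op N)ˣ} (hl : l ∈ c.L)
    (hd : c.Dom (l : Op N)) (hs : ∀ i, i ≠ c.o → 0 < sg46 (X i) * c.tau (l : Op N) i) {t : V N}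
    (hlt : (l : Op N) t = t) :
    ∃ C > 0, ∃ a > 0, ∀ n : ℕ, c.kk46 X ((⟨l, t⟩ : Aff (V N)) ^ n) ≤ C * Real.exp (-a * n) := by
  classical
  obtain ⟨C₀, hC₀, a₀, ha₀, h₀⟩ := c.kap_pow hl hd
  obtain ⟨a₁, ha₁, h₁⟩ : ∃ a > 0, ∀ i, i ≠ c.o → a ≤ sg46 (X i) * c.tau (l : Op N) i := by
    obtain ⟨i₀, hi₀⟩ := c.exists_ne
    obtain ⟨j, hj, hmin⟩ := (Finset.univ.filter (fun i => i ≠ c.o)).exists_min_image
      (fun i => sg46 (X i) * c.tau (l : Op N) i) ⟨i₀, by simp [hi₀]⟩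
    refine ⟨sg46 (X j) * c.tau (l : Op N) j, hs j (Finset.mem_filter.1 hj).2, fun i hi => ?_⟩
    exact hmin i (Finset.mem_filter.2 ⟨Finset.mem_univ i, hi⟩)
  set a := min a₀ a₁ with ha
  have hapos : 0 < a := lt_min ha₀ ha₁
  set K : ℝ := C₀ + Fintype.card ι with hK
  have hKpos : 0 < K := by positivity
  have key : ∀ n : ℕ, c.kA46 X ((l ^ n : (Op N)ˣ) : Op N) ≤ K * Real.exp (-a * n) := by
    intro n
    have hn : (0 : ℝ) ≤ n := Nat.cast_nonneg n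
    have e1 : c.kap ((l ^ n : (Op N)ˣ) : Op N) ≤ C₀ * Real.exp (-a * n) := by
      have := h₀ n
      rw [← Units.val_pow_eq_pow_val] at this
      refine this.trans (mul_le_mul_of_nonneg_left (Real.exp_le_exp.2 ?_) hC₀.le)
      have : a ≤ a₀ := min_le_left _ _
      nlinarith
    have e2 : ∑ i, c.eX46 X ((l ^ n : (Op N)ˣ) : Op N) i ≤
        ∑ _i : ι, Real.exp (-a * n) := by
      refine Finset.sum_le_sum fun i _ => ?_
      rw [eX46]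
      split_ifs with hi
      · exact (Real.exp_pos _).le
      · apply Real.exp_le_exp.2
        rw [Units.val_pow_eq_pow_val, c.tau_pow hl, Pi.smul_apply, smul_eq_mul]
        have h2 := h₁ i hi
        have h3 : a ≤ a₁ := min_le_right _ _
        nlinarith
    rw [Finset.sum_const, Finset.card_univ, nsmul_eq_mul] at e2
    rw [kA46, hK, add_mul]
    exact add_le_add e1 e2
  refine ⟨K * (1 + 2 / a * ‖t‖), by positivity, a / 2, by positivity, fun n => ?_⟩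
  rw [Aff.pow_eq46 l hlt, kk46]
  change (1 + ‖(n : ℝ) • t‖) * c.kA46 X ((l ^ n : (Op N)ˣ) : Op N) ≤ _
  have hn : (0 : ℝ) ≤ n := Nat.cast_nonneg n
  rw [norm_smul, Real.norm_of_nonneg hn]
  have e3 : Real.exp (-a * n) = Real.exp (-(a / 2) * n) * Real.exp (-(a / 2) * n) := by
    rw [← Real.exp_add]; congr 1; ring
  have e4 : (n : ℝ) * Real.exp (-(a / 2) * n) ≤ 2 / a := by
    have h5 : a / 2 * n ≤ Real.exp (a / 2 * n) := by
      have := Real.add_one_le_exp (a / 2 * n); linarith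
    have h6 : Real.exp (-(a / 2) * n) * Real.exp (a / 2 * n) = 1 := by
      rw [← Real.exp_add]; simp
    have h7 : 0 < Real.exp (-(a / 2) * n) := Real.exp_pos _
    have h8 : a / 2 * n * Real.exp (-(a / 2) * n) ≤ 1 := by nlinarith
    rw [le_div_iff₀ hapos]
    nlinarith
  have e5 : Real.exp (-(a / 2) * n) ≤ 1 := by
    apply Real.exp_le_one_iff.2
    have : 0 ≤ a / 2 * n := by positivity
    linarith
  have e6 : (1 + n * ‖t‖) * Real.exp (-(a / 2) * n) ≤ 1 + 2 / a * ‖t‖ := by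
    have := mul_le_mul_of_nonneg_right e4 (norm_nonneg t)
    nlinarith
  calc (1 + n * ‖t‖) * c.kA46 X ((l ^ n : (Op N)ˣ) : Op N)
      ≤ (1 + n * ‖t‖) * (K * Real.exp (-a * n)) :=
        mul_le_mul_of_nonneg_left (key n) (by positivity)
    _ = K * ((1 + n * ‖t‖) * Real.exp (-(a / 2) * n)) * Real.exp (-(a / 2) * n) := by
        rw [e3]; ring
    _ ≤ K * (1 + 2 / a * ‖t‖) * Real.exp (-(a / 2) * n) := by
        apply mul_le_mul_of_nonneg_right _ (Real.exp_pos _).le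
        exact mul_le_mul_of_nonneg_left e6 hKpos.le

end Cell

end Pool.Agent.Lib.MP_d9b062_al
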