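import Pool.Agent.Lib.MP_d9b062_al_h64.Basic

/-!
# Transversal elements
-/

namespace Pool.Agent.Lib.MP_d9b062_al

namespace Cell

variable {N : ℕ} {G : Subgroup (Op N)ˣ} {ι : Type} [Fintype ι] [LinearOrder ι]

/-- transversal elements -/
theorem Good.exists_reg46 {c : Cell G ι} {Γ : Subgroup (Aff (V N))} (hΓ : c.Good Γ)
    {f f' : (Op N)ˣ} (hf : f ∈ G) (hf' : f' ∈ G) :
    ∃ η ∈ Γ, Reg c.P ((f * η.lin * f' : (Op N)ˣ) : Op N) := by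
  obtain ⟨D, hD, hD1, hDr⟩ := c.exists_reg_poly
  by_contra hcon
  push Not at hcon
  have hpoly : (fun T : Op N => D ((f : Op N) * T * (f' : Op N))) ∈ PolyFun (Op N) :=
    PolyFun.comp hD (((IsPolyMap.const (f : Op N)).mul IsPolyMap.id).mul
      (IsPolyMap.const (f' : Op N)))
  have h0 := hΓ.dense _ hpoly (by
    rintro s ⟨γ, hγ, rfl⟩
    by_contra hne
    exact hcon γ hγ ((hDr _).2 hne)) (f⁻¹ * f'⁻¹) (G.mul_mem (G.inv_mem hf) (G.inv_mem hf'))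
  have h1 : (f : Op N) * ((f⁻¹ * f'⁻¹ : (Op N)ˣ) : Op N) * (f' : Op N) = 1 := by
    have : f * (f⁻¹ * f'⁻¹) * f' = 1 := by group
    calc (f : Op N) * ((f⁻¹ * f'⁻¹ : (Op N)ˣ) : Op N) * (f' : Op N)
        = ((f * (f⁻¹ * f'⁻¹) * f' : (Op N)ˣ) : Op N) := rfl
      _ = 1 := by rw [this]; rfl
  have h2 : D ((f : Op N) * ((f⁻¹ * f'⁻¹ : (Op N)ˣ) : Op N) * (f' : Op N)) = 0 := h0
  rw [h1] at h2
  exact hD1 h2

end Cell

end Pool.Agent.Lib.MP_d9b062_al
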