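import Pool.Agent.Lib.MP_d9b062_al_h67.Rat
import Pool.Agent.Lib.MP_d9b062_al_h64.Basic

/-!
# Vectors fixed by the diagonal parts of a Zariski dense group
-/

namespace Pool.Agent.Lib.MP_d9b062_al

lemma isPolyMap_unipInv46 {N : ℕ} (ι : Type) [Fintype ι] :
    IsPolyMap (fun T : Op N => unipInv ι T) := by
  unfold unipInv
  exact IsPolyMap.sum _ fun k _ => ((IsPolyMap.const (1 : Op N)).sub IsPolyMap.id).pow k

namespace Cell

variable {N : ℕ} {G : Subgroup (Op N)ˣ} {ι : Type} [Fintype ι] [LinearOrder ι]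

lemma dD_apply46 (c : Cell G ι) {g : (Op N)ˣ} (hg : g ∈ G) (hr : Reg c.P (g : Op N)) {e : V N}
    (he : c.P c.o e = e) :
    c.P c.o (unipInv ι (yL c.P (g : Op N)) ((g : Op N) e)) = dD c.P (g : Op N) e := by
  obtain ⟨y, hy, d, hd, x, hx, h, hy', hd', hx'⟩ := c.exists_LU hg hr
  rw [← hy', ← hd']
  have h1 : unipInv ι (y : Op N) = ((y⁻¹ : (Op N)ˣ) : Op N) := by
    rw [← hy.2.inverse_eq c.grading c.r_trans (fun i h => lt_irrefl _ (c.r_lt i i h)),
      Ring.inverse_unit]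
  have h2 : (y⁻¹ : (Op N)ˣ) * g = d * x := by rw [h]; group
  have h3 : ((y⁻¹ : (Op N)ˣ) : Op N) ((g : Op N) e) = (d : Op N) ((x : Op N) e) :=
    congrArg (fun u : (Op N)ˣ => (u : Op N) e) h2
  rw [h1, h3]
  have h4 : c.P c.o ((d : Op N) ((x : Op N) e)) = (d : Op N) (c.P c.o ((x : Op N) e)) :=
    congrArg (fun T : Op N => T ((x : Op N) e)) (hd.2 c.o)
  have h5 : c.P c.o ((x : Op N) e) = e := by
    have h6 : (c.P c.o * (x : Op N) * c.P c.o) e = c.P c.o e :=
      congrArg (fun T : Op N => T e) (hx.2.1 c.o)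
    have h7 : (c.P c.o * (x : Op N) * c.P c.o) e = c.P c.o ((x : Op N) (c.P c.o e)) := rfl
    rw [h7, he] at h6
    exact h6
  rw [h4, h5]

theorem Good.mem_EL46 {c : Cell G ι} {Γ : Subgroup (Aff (V N))} (hΓ : c.Good Γ) {f : (Op N)ˣ}
    (hf : f ∈ G) {e : V N} (he : c.P c.o e = e)
    (h : ∀ γ ∈ Γ, Reg c.P ((f⁻¹ * γ.lin * f : (Op N)ˣ) : Op N) →
      dD c.P ((f⁻¹ * γ.lin * f : (Op N)ˣ) : Op N) e = e) : e ∈ c.EL := by
  classical
  obtain ⟨D, hD, Q, hQ, -, hDr, -, hy⟩ := exists_rat c.grading c.star_P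
  -- coordinates
  let b : Fin N → V N := fun k => EuclideanSpace.single k 1
  have hb : ∀ v : V N, v = ∑ k, v k • b k := by
    intro v
    ext i
    simp [b, Finset.sum_apply, Pi.single_apply]
  -- reduction to functionals
  intro l hl
  have key : ∀ φ : Module.Dual ℝ (V N), φ ((l : Op N) e - e) = 0 := by
    intro φ
    let F : Fin N → Op N → ℝ := fun k S => φ (c.P c.o (unipInv ι S (b k)))
    have hF : ∀ k, F k ∈ PolyFun (Op N) := fun k =>
      ((IsPolyMap.const (c.P c.o)).apply ((isPolyMap_unipInv46 ι).apply (IsPolyMap.const (b k)))) φ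
    have h1 : ∀ k, ∃ n : ℕ, ∃ F1 ∈ PolyFun (Op N), ∀ T, D T ≠ 0 →
        F1 T = D T ^ n * F k ((D T)⁻¹ • Q T) := fun k => PolyFun.comp_rat (hF k) hD hQ
    choose n F1 hF1 hF1e using h1
    set m : ℕ := ∑ k, n k with hm
    have hnm : ∀ k, n k ≤ m := fun k =>
      Finset.single_le_sum (f := n) (fun _ _ => Nat.zero_le _) (Finset.mem_univ k)
    -- coordinates of `T e`
    let β : Fin N → Op N → ℝ := fun k T => T e k
    have hβ : ∀ k, β k ∈ PolyFun (Op N) := fun k =>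
      (IsPolyMap.apply IsPolyMap.id (IsPolyMap.const e))
        ((LinearMap.proj k : (Fin N → ℝ) →ₗ[ℝ] ℝ) ∘ₗ
          (WithLp.linearEquiv 2 ℝ (Fin N → ℝ)).toLinearMap)
    let H : Op N → ℝ := fun T =>
      D T * ((∑ k, β k T * (D T ^ (m - n k) * F1 k T)) - D T ^ m * φ e)
    have hH : H ∈ PolyFun (Op N) :=
      PolyFun.mul hD (PolyFun.sub (PolyFun.sum _ fun k _ => PolyFun.mul (hβ k)
        (PolyFun.mul (PolyFun.pow hD _) (hF1 k))) (PolyFun.mul (PolyFun.pow hD _)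
          (PolyFun.const _)))
    have hHe : ∀ g ∈ G, D (g : Op N) ≠ 0 → H (g : Op N) =
        D (g : Op N) ^ (m + 1) * (φ (dD c.P (g : Op N) e) - φ e) := by
      intro g hg hDg
      have hreg := (hDr _).2 hDg
      have e1 : φ (dD c.P (g : Op N) e) = ∑ k, β k (g : Op N) * F k (yL c.P (g : Op N)) := by
        rw [← c.dD_apply46 hg hreg he]
        conv_lhs => rw [hb ((g : Op N) e)]
        rw [map_sum, map_sum, map_sum]
        refine Finset.sum_congr rfl fun k _ => ?_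
        rw [map_smul, map_smul, map_smul, smul_eq_mul]
      have e2 : ∀ k, D (g : Op N) ^ (m - n k) * F1 k (g : Op N) =
          D (g : Op N) ^ m * F k (yL c.P (g : Op N)) := by
        intro k
        rw [hF1e k _ hDg, ← hy _ hreg, ← mul_assoc, ← pow_add, Nat.sub_add_cancel (hnm k)]
      change D (g : Op N) * ((∑ k, β k (g : Op N) * (D (g : Op N) ^ (m - n k) *
        F1 k (g : Op N))) - D (g : Op N) ^ m * φ e) = _
      have e3 : ∑ k, β k (g : Op N) * (D (g : Op N) ^ (m - n k) * F1 k (g : Op N)) =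
          D (g : Op N) ^ m * φ (dD c.P (g : Op N) e) := by
        rw [e1, Finset.mul_sum]
        refine Finset.sum_congr rfl fun k _ => ?_
        rw [e2 k]; ring
      rw [e3]; ring
    have hvan := hΓ.dense (fun T => H ((f⁻¹ : (Op N)ˣ) * T * f))
      (PolyFun.comp hH (((IsPolyMap.const _).mul IsPolyMap.id).mul (IsPolyMap.const _))) (by
        rintro s ⟨γ, hγ, rfl⟩
        have hmem : f⁻¹ * γ.lin * f ∈ G :=
          G.mul_mem (G.mul_mem (G.inv_mem hf) (hΓ.lin_mem γ hγ)) hf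
        change H ((f⁻¹ * γ.lin * f : (Op N)ˣ) : Op N) = 0
        by_cases hDg : D ((f⁻¹ * γ.lin * f : (Op N)ˣ) : Op N) = 0
        · exact mul_eq_zero_of_left hDg _
        · rw [hHe _ hmem hDg, h γ hγ ((hDr _).2 hDg), sub_self, mul_zero])
      (f * l * f⁻¹) (G.mul_mem (G.mul_mem hf hl.1) (G.inv_mem hf))
    have h2 : H (l : Op N) = 0 := by
      have h3 : ((f⁻¹ : (Op N)ˣ) : Op N) * ((f * l * f⁻¹ : (Op N)ˣ) : Op N) * (f : Op N) = l := by
        have : f⁻¹ * (f * l * f⁻¹) * f = l := by group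
        exact congrArg (fun u : (Op N)ˣ => (u : Op N)) this
      have h4 : H (((f⁻¹ : (Op N)ˣ) : Op N) * ((f * l * f⁻¹ : (Op N)ˣ) : Op N) * (f : Op N)) = 0 :=
        hvan
      rwa [h3] at h4
    have hlu := c.LU_val c.Nm.one_mem hl c.Np.one_mem
    rw [one_mul, mul_one] at hlu
    have hDl := (hDr _).1 hlu.1
    rw [hHe l hl.1 hDl, hlu.2.2.1] at h2
    have h3 := (mul_eq_zero.1 h2).resolve_left (pow_ne_zero _ hDl)
    rw [map_sub]
    exact h3
  have h0 := (Module.forall_dual_apply_eq_zero_iff ℝ ((l : Op N) e - e)).1 key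
  exact sub_eq_zero.1 h0

end Cell

end Pool.Agent.Lib.MP_d9b062_al
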