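import Pool.Agent.Lib.MP_d9b062_al_h46.Words
import Pool.Agent.Lib.MP_d9b062_al_h46.ExReg
import Pool.Agent.Lib.MP_d9b062_al_h46.MemEL

/-!
# The final step: infinitely many words meeting a compact set
-/

namespace Pool.Agent.Lib.MP_d9b062_al

open Filter
open scoped Topology

namespace Cell

variable {N : ℕ} {G : Subgroup (Op N)ˣ} {ι : Type} [Fintype ι] [LinearOrder ι] (c : Cell G ι)

/-- the block `o` -/
def Eo46 : Submodule ℝ (V N) where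
  carrier := {v | c.P c.o v = v}
  add_mem' := fun {v w} hv hw => by
    change c.P c.o (v + w) = v + w
    have h1 : c.P c.o v = v := hv
    have h2 : c.P c.o w = w := hw
    rw [map_add, h1, h2]
  zero_mem' := map_zero _
  smul_mem' := fun a v hv => by
    change c.P c.o (a • v) = a • v
    have h1 : c.P c.o v = v := hv
    rw [map_smul, h1]

/-- restriction to the block `o` -/
noncomputable def resL46 (l : Op N) : c.Eo46 →L[ℝ] c.Eo46 :=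
  ((c.P c.o * l).comp c.Eo46.subtypeL).codRestrict c.Eo46 (fun _ => c.P_P_apply46 _ _)

lemma coe_resL46 {l : (Op N)ˣ} (hl : l ∈ c.L) (v : c.Eo46) :
    ((c.resL46 (l : Op N) v : c.Eo46) : V N) = (l : Op N) (v : V N) := by
  have h : c.P c.o (v : V N) = v := v.2
  change c.P c.o ((l : Op N) (v : V N)) = _
  rw [c.L_comm46 hl, h]

lemma coe_resL_pow46 {l : (Op N)ˣ} (hl : l ∈ c.L) (n : ℕ) (v : c.Eo46) :
    (((c.resL46 (l : Op N) ^ n) v : c.Eo46) : V N) = ((l ^ n : (Op N)ˣ) : Op N) (v : V N) := by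
  induction n with
  | zero => rw [pow_zero, pow_zero]; rfl
  | succ n ih =>
    rw [pow_succ', pow_succ']
    change ((c.resL46 (l : Op N) ((c.resL46 (l : Op N) ^ n) v) : c.Eo46) : V N) =
      (l : Op N) (((l ^ n : (Op N)ˣ) : Op N) (v : V N))
    rw [c.coe_resL46 hl, ih]

lemma norm_resL46 {l : (Op N)ˣ} (hl : l ∈ c.L) (v : c.Eo46) : ‖c.resL46 (l : Op N) v‖ = ‖v‖ := by
  have h : ‖((c.resL46 (l : Op N) v : c.Eo46) : V N)‖ = ‖(v : V N)‖ := by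
    rw [c.coe_resL46 hl]; exact c.norm_o hl v.2
  exact h

lemma recur_L46 {l : (Op N)ˣ} (hl : l ∈ c.L) {ε : ℝ} (hε : 0 < ε) (M : ℕ) :
    ∃ n ≥ M, ∀ v : V N, c.P c.o v = v → ‖((l ^ n : (Op N)ˣ) : Op N) v - v‖ ≤ ε * ‖v‖ := by
  let g : c.Eo46 ≃ₗᵢ[ℝ] c.Eo46 := LinearIsometry.toLinearIsometryEquiv
    ⟨(c.resL46 (l : Op N) : c.Eo46 →ₗ[ℝ] c.Eo46), c.norm_resL46 hl⟩ rfl
  have hg : ∀ v, g v = c.resL46 (l : Op N) v := fun v => rfl
  have hgn : ∀ (n : ℕ) (v : c.Eo46), (((g ^ n) v : c.Eo46) : V N) =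
      ((l ^ n : (Op N)ˣ) : Op N) (v : V N) := by
    intro n
    induction n with
    | zero => intro v; rw [pow_zero, pow_zero]; rfl
    | succ n ih =>
      intro v
      rw [pow_succ', pow_succ']
      change ((g ((g ^ n) v) : c.Eo46) : V N) = (l : Op N) (((l ^ n : (Op N)ˣ) : Op N) (v : V N))
      rw [hg, c.coe_resL46 hl, ih]
  obtain ⟨n, hn, h⟩ := Steer.recur g hε M
  refine ⟨n, hn, fun v hv => ?_⟩
  have h1 := h ⟨v, hv⟩
  have h2 : ‖(g ^ n) ⟨v, hv⟩ - ⟨v, hv⟩‖ = ‖((l ^ n : (Op N)ˣ) : Op N) v - v‖ := by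
    have h3 : (((g ^ n) ⟨v, hv⟩ - ⟨v, hv⟩ : c.Eo46) : V N) =
        ((l ^ n : (Op N)ˣ) : Op N) v - v := by
      rw [Submodule.coe_sub, hgn]
    rw [← h3]; rfl
  rw [h2] at h1
  exact h1

variable {c} {Γ : Subgroup (Aff (V N))}

lemma FCtx46.nonempty (S : c.FCtx46 Γ) : Nonempty (Word46 S) := by
  obtain ⟨n₀, hn₀⟩ := exists_word46 S (M := c.kk46 S.X 1) (c.kk_pos46 _ _).le
  obtain ⟨w, _⟩ := hn₀ n₀ le_rfl 1 (c.Um46 S.hX).one_mem 1 c.Mo46.one_mem 1 (c.Up46 S.hX).one_mem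
    (by rw [one_mul, one_mul, mul_one, mul_inv_cancel]; exact Γ.one_mem)
    (by rw [Aff.nrm_one46]; exact (c.kk_pos46 _ _).le) le_rfl
    (by rw [Aff.nrm_one46]; exact (c.kk_pos46 _ _).le)
  exact ⟨w⟩

/-- the vectors of the block `o` fixed by all words are fixed by `L` -/
lemma FCtx46.fix_mem_EL (hΓ : c.Good Γ) (S : c.FCtx46 Γ) {e : V N} (he : c.P c.o e = e)
    (h : ∀ w : Word46 S, (w.D.lin : Op N) e = e) : e ∈ c.EL := by
  apply hΓ.mem_EL46 S.hF he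
  intro γ hγ hr
  set T : Aff (V N) := S.F⁻¹ * γ * S.F with hT
  have hTl : T.lin = S.F.lin⁻¹ * γ.lin * S.F.lin := rfl
  rw [← hTl] at hr ⊢
  have hTG : T.lin ∈ G := G.mul_mem (G.mul_mem (G.inv_mem S.hF) (hΓ.lin_mem γ hγ)) S.hF
  obtain ⟨Y, hY, D, hD, Z, hZ, hTe, -, eD, -⟩ := c.exists_affLU46 S.hX hTG hr
  rw [← eD]
  have hYn := Aff.nrm_nonneg46 Y
  have hZn := Aff.nrm_nonneg46 Z
  have hDn := c.kk_pos46 S.X D
  obtain ⟨n₀, hn₀⟩ := exists_word46 S (M := Y.nrm46 + c.kk46 S.X D + Z.nrm46) (by positivity)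
  have key : ∀ n ≥ n₀, ((S.δ.lin ^ n : (Op N)ˣ) : Op N) ((D.lin : Op N)
      (((S.δ.lin ^ n : (Op N)ˣ) : Op N) e)) = e := by
    intro n hn
    obtain ⟨w, hw⟩ := hn₀ n hn Y hY D hD Z hZ
      (by rw [← hTe, hT]
          have : S.F * (S.F⁻¹ * γ * S.F) * S.F⁻¹ = γ := by group
          rw [this]; exact hγ)
      (by linarith) (by linarith) (by linarith)
    have h1 := h w
    rw [hw, Aff.mul_lin, Aff.mul_lin, S.pow_lin] at h1
    exact h1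
  have hLn : ∀ n, S.δ.lin ^ n ∈ c.L := fun n => c.L.pow_mem S.hδ.1 n
  have hle : ∀ ε : ℝ, 0 < ε → ‖(D.lin : Op N) e - e‖ ≤ 0 + ε := by
    intro ε hε
    obtain ⟨n, hn, hr⟩ := c.recur_L46 S.hδ.1 (ε := ε / (2 * (1 + ‖e‖))) (by positivity) n₀
    set s : Op N := ((S.δ.lin ^ n : (Op N)ˣ) : Op N) with hs
    have h1 : ‖s e - e‖ ≤ ε / (2 * (1 + ‖e‖)) * ‖e‖ := hr e he
    have hse : c.P c.o (s e) = s e := by rw [hs, c.L_comm46 (hLn n), he]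
    have hdse : c.P c.o ((D.lin : Op N) (s e)) = (D.lin : Op N) (s e) := by
      rw [c.L_comm46 hD.1, hse]
    have h2 : ‖s ((D.lin : Op N) (s e)) - (D.lin : Op N) (s e)‖ ≤
        ε / (2 * (1 + ‖e‖)) * ‖e‖ := by
      have := hr _ hdse
      rw [c.norm_o hD.1 hse, hs, c.norm_o (hLn n) he] at this
      exact this
    have h3 : ‖(D.lin : Op N) (s e) - (D.lin : Op N) e‖ ≤ ε / (2 * (1 + ‖e‖)) * ‖e‖ := by
      rw [← map_sub, c.norm_o hD.1]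
      · exact h1
      · rw [map_sub, hse, he]
    have h4 : ε / (2 * (1 + ‖e‖)) * ‖e‖ ≤ ε / 2 := by
      rw [div_mul_eq_mul_div, div_le_div_iff₀ (by positivity) (by norm_num)]
      nlinarith [norm_nonneg e]
    have h5 : s ((D.lin : Op N) (s e)) = e := key n hn
    rw [h5] at h2
    calc ‖(D.lin : Op N) e - e‖ = ‖-(e - (D.lin : Op N) (s e)) -
          ((D.lin : Op N) (s e) - (D.lin : Op N) e)‖ := by congr 1; abel
      _ ≤ ‖-(e - (D.lin : Op N) (s e))‖ + ‖(D.lin : Op N) (s e) - (D.lin : Op N) e‖ :=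
          norm_sub_le _ _
      _ ≤ 0 + ε := by rw [norm_neg]; linarith
  have h0 := le_of_forall_pos_le_add hle
  exact sub_eq_zero.1 (norm_le_zero_iff.1 h0)

/-- words with large translation part in a given direction -/
lemma FCtx46.exists_large (hΓ : c.Good Γ) (S : c.FCtx46 Γ) {e : V N} (he : e ∈ c.EL)
    (h₂ : ∃ δ ∈ Γ, ∃ F l t, c.ALox δ F l t ∧
      (∀ i, i ≠ c.o → 0 < sg46 (S.X i) * c.tau (l : Op N) i) ∧ 0 < inner ℝ (c.PL t) e) (R : ℝ) :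
    ∃ w : Word46 S, R ≤ inner ℝ w.D.tr e := by
  obtain ⟨δ, hδ, F', l, t, hA, hs, hin⟩ := h₂
  -- the invariant
  have hin' : 0 < inner ℝ t e := by
    have h1 : inner ℝ (c.PL t) e = inner ℝ t e := by
      have h2 : ContinuousLinearMap.adjoint c.PL = c.PL := c.PL_star
      rw [← ContinuousLinearMap.adjoint_inner_right, h2, c.PL_of_mem he]
    rwa [h1] at hin
  obtain ⟨C₂, hC₂, a₂, ha₂, hk₂⟩ := c.exists_kk_pow46 (X := S.X) hA.l_mem hA.dom hs hA.l_t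
  set δ' : Aff (V N) := ⟨l, t⟩ with hδ'
  have hδ'M : δ' ∈ c.Mo46 := ⟨hA.l_mem, hA.P_t⟩
  obtain ⟨η₁, hη₁, hr₁⟩ := hΓ.exists_reg46 (G.inv_mem S.hF) hA.F_mem
  obtain ⟨η₂, hη₂, hr₂⟩ := hΓ.exists_reg46 (G.inv_mem hA.F_mem) S.hF
  set A : Aff (V N) := S.F⁻¹ * η₁ * F' with hAdef
  set B : Aff (V N) := F'⁻¹ * η₂ * S.F with hBdef
  have hAG : A.lin ∈ G := G.mul_mem (G.mul_mem (G.inv_mem S.hF) (hΓ.lin_mem _ hη₁)) hA.F_mem
  have hBG : B.lin ∈ G := G.mul_mem (G.mul_mem (G.inv_mem hA.F_mem) (hΓ.lin_mem _ hη₂)) S.hF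
  obtain ⟨Ya, hYa, Da, hDa, Za, hZa, hAe, -⟩ := c.exists_affLU46 S.hX hAG hr₁
  obtain ⟨Yb, hYb, Db, hDb, Zb, hZb, hBe, -⟩ := c.exists_affLU46 S.hX hBG hr₂
  have nYa := Aff.nrm_nonneg46 Ya
  have nYb := Aff.nrm_nonneg46 Yb
  have nZa := Aff.nrm_nonneg46 Za
  have nZb := Aff.nrm_nonneg46 Zb
  have kDa := c.kk_pos46 S.X Da
  have kDb := c.kk_pos46 S.X Db
  have nYbi := norm_nonneg (((Yb.lin⁻¹ : (Op N)ˣ) : Op N))
  obtain ⟨C', hC', m₀, hprod⟩ := c.exists_product46 S.hX hδ'M hC₂ ha₂ hk₂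
    (R := Za.nrm46 + Yb.nrm46 + ‖((Yb.lin⁻¹ : (Op N)ˣ) : Op N)‖) (by positivity)
  -- bounds for the factors
  set M₁ : ℝ := Ya.nrm46 + (1 + Ya.nrm46) * (c.kk46 S.X Da * C₂ * (Yb.nrm46 + (1 + Yb.nrm46) * C')) with hM₁
  set M₂ : ℝ := c.kk46 S.X Da * C₂ * ((1 + C') * C') * c.kk46 S.X Db with hM₂
  set M₃ : ℝ := c.kk46 S.X Db * C' + (1 + c.kk46 S.X Db * C') * Zb.nrm46 with hM₃
  have hM₁0 : 0 ≤ M₁ := by positivity
  have hM₂0 : 0 ≤ M₂ := by positivity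
  have hM₃0 : 0 ≤ M₃ := by positivity
  obtain ⟨n₀, hn₀⟩ := exists_word46 S (M := M₁ + M₂ + M₃) (by positivity)
  have hδn : S.δ ^ n₀ ∈ c.Mo46 := c.Mo46.pow_mem S.hδ n₀
  -- choice of the exponent
  set K : ℝ := |2 * (n₀ * inner ℝ S.δ.tr e)| + |inner ℝ Da.tr e| + C' * ‖e‖ +
    |inner ℝ Db.tr e| with hK
  obtain ⟨m₁, hm₁⟩ := exists_nat_ge ((R + K) / inner ℝ t e)
  set m := max m₀ m₁ with hm
  have hmR : R + K ≤ m * inner ℝ t e := by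
    rw [div_le_iff₀ hin'] at hm₁
    have : (m₁ : ℝ) ≤ (m : ℝ) := Nat.cast_le.2 (le_max_right _ _)
    exact hm₁.trans (mul_le_mul_of_nonneg_right this hin'.le)
  have hE : 0 < Real.exp (-a₂ * m) := Real.exp_pos _
  have hE1 : Real.exp (-a₂ * m) ≤ 1 := by
    apply Real.exp_le_one_iff.2
    have : 0 ≤ a₂ * (m : ℝ) := mul_nonneg ha₂.le (Nat.cast_nonneg m)
    linarith
  obtain ⟨Y1, hY1, D1, hD1, Z1, hZ1, heq, nY1, nD1, nZ1, kD1⟩ :=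
    hprod m (le_max_left _ _) Ya hYa Da hDa Za hZa Yb hYb Db hDb Zb hZb
      (by linarith) (by linarith) (by linarith)
  have hδm : δ' ^ m ∈ c.Mo46 := c.Mo46.pow_mem hδ'M m
  have kδm : c.kk46 S.X (δ' ^ m) ≤ C₂ := (hk₂ m).trans (by nlinarith)
  have nY1' : Y1.nrm46 ≤ C' := nY1.trans (by nlinarith)
  have nD1' : D1.nrm46 ≤ C' := nD1.trans (by nlinarith)
  have nZ1' : Z1.nrm46 ≤ C' := nZ1.trans (by nlinarith)
  have kD1' : c.kk46 S.X D1 ≤ (1 + C') * C' := by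
    rw [kk46]
    exact mul_le_mul (add_le_add le_rfl ((Aff.norm_tr_le46 D1).trans nD1')) kD1
      (c.kA_pos46 _ _).le (by positivity)
  have hDaδ := c.Mo46.mul_mem hDa hδm
  have kDaδ : c.kk46 S.X (Da * δ' ^ m) ≤ c.kk46 S.X Da * C₂ :=
    (c.kk_mul46 hDa hδm).trans (mul_le_mul_of_nonneg_left kδm kDa.le)
  obtain ⟨hYc, nYc⟩ := c.conj_Um46 S.hX hDaδ ((c.Um46 S.hX).mul_mem hYb hY1)
  obtain ⟨hZc, nZc⟩ := c.conj_Up46 S.hX hDb hZ1
  have b0 : (Yb * Y1).nrm46 ≤ Yb.nrm46 + (1 + Yb.nrm46) * C' :=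
    (Aff.nrm_mul_le46 _ _).trans (add_le_add le_rfl (mul_le_mul_of_nonneg_left nY1' (by positivity)))
  have b1 : (Ya * (Da * δ' ^ m * (Yb * Y1) * (Da * δ' ^ m)⁻¹)).nrm46 ≤ M₁ := by
    refine (Aff.nrm_mul_le46 _ _).trans (add_le_add le_rfl ?_)
    apply mul_le_mul_of_nonneg_left _ (by positivity)
    exact nYc.trans (mul_le_mul kDaδ b0 (Aff.nrm_nonneg46 _) (by positivity))
  have b2 : c.kk46 S.X (Da * δ' ^ m * D1 * Db) ≤ M₂ := by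
    refine (c.kk_mul46 (c.Mo46.mul_mem hDaδ hD1) hDb).trans ?_
    apply mul_le_mul_of_nonneg_right _ kDb.le
    exact (c.kk_mul46 hDaδ hD1).trans (mul_le_mul kDaδ kD1' (c.kk_pos46 _ _).le (by positivity))
  have b3 : (Db⁻¹ * Z1 * Db * Zb).nrm46 ≤ M₃ := by
    have h1 : (Db⁻¹ * Z1 * Db).nrm46 ≤ c.kk46 S.X Db * C' :=
      nZc.trans (mul_le_mul_of_nonneg_left nZ1' kDb.le)
    refine (Aff.nrm_mul_le46 _ _).trans (add_le_add h1 ?_)
    exact mul_le_mul_of_nonneg_right (add_le_add le_rfl h1) nZb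
  have hmem : S.F * ((Ya * (Da * δ' ^ m * (Yb * Y1) * (Da * δ' ^ m)⁻¹)) *
      (Da * δ' ^ m * D1 * Db) * (Db⁻¹ * Z1 * Db * Zb)) * S.F⁻¹ ∈ Γ := by
    rw [← heq, ← hAe, ← hBe]
    have h1 := Γ.mul_mem (Γ.mul_mem hη₁ (Γ.pow_mem hδ m)) hη₂
    have h2 : δ ^ m = F' * δ' ^ m * F'⁻¹ := by
      rw [hA.eq]; exact conj_pow
    rw [h2] at h1
    convert h1 using 1
    rw [hAdef, hBdef]
    group
  obtain ⟨w, hw⟩ := hn₀ n₀ le_rfl _ ((c.Um46 S.hX).mul_mem hYa hYc) _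
    (c.Mo46.mul_mem (c.Mo46.mul_mem hDaδ hD1) hDb) _ ((c.Up46 S.hX).mul_mem hZc hZb) hmem
    (by linarith) (by linarith) (by linarith)
  refine ⟨w, ?_⟩
  rw [hw, c.inner_mul_tr46 (c.Mo46.mul_mem hδn (c.Mo46.mul_mem (c.Mo46.mul_mem hDaδ hD1) hDb)) he,
    c.inner_mul_tr46 hδn he, c.inner_mul_tr46 (c.Mo46.mul_mem hDaδ hD1) he, c.inner_mul_tr46 hDaδ he,
    c.inner_mul_tr46 hDa he, S.pow_tr, Aff.pow_eq46 l hA.l_t, inner_smul_left, inner_smul_left]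
  simp only [conj_trivial]
  have q1 : |inner ℝ D1.tr e| ≤ C' * ‖e‖ :=
    (abs_real_inner_le_norm _ _).trans
      (mul_le_mul_of_nonneg_right ((Aff.norm_tr_le46 D1).trans nD1') (norm_nonneg _))
  have q2 := neg_abs_le (inner ℝ D1.tr e)
  have q3 := neg_abs_le (inner ℝ Da.tr e)
  have q4 := neg_abs_le (inner ℝ Db.tr e)
  have q5 := neg_abs_le (2 * ((n₀ : ℝ) * inner ℝ S.δ.tr e))
  linarith

end Cell

end Pool.Agent.Lib.MP_d9b062_al
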