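import Pool.Agent.Lib.MP_d9b062_al.Poly

/-!
# Zariski closed self-adjoint groups: the Lie algebra

General finite-dimensional Euclidean space `E`.
-/

namespace Pool.Agent.Lib.MP_d9b062_al

namespace H46

open NormedSpace Filter
open scoped Topology

set_option linter.unusedSectionVars false

section Trotter

variable {𝔸 : Type*} [NormedRing 𝔸] [NormedAlgebra ℝ 𝔸] [CompleteSpace 𝔸]

lemma norm_exp_le (h1 : ‖(1 : 𝔸)‖ ≤ 1) (x : 𝔸) : ‖exp x‖ ≤ Real.exp ‖x‖ := by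
  have hs := NormedSpace.norm_expSeries_summable' (𝕂 := ℝ) x
  have hs2 : Summable fun n : ℕ => ((n.factorial : ℝ)⁻¹) * ‖x‖ ^ n := by
    have := Real.summable_pow_div_factorial ‖x‖
    refine this.congr (fun n => ?_)
    rw [div_eq_inv_mul]
  rw [NormedSpace.exp_eq_tsum ℝ]
  refine (norm_tsum_le_tsum_norm hs).trans ?_
  have h2 : Real.exp ‖x‖ = ∑' n : ℕ, ((n.factorial : ℝ)⁻¹) * ‖x‖ ^ n := by
    rw [Real.exp_eq_exp_ℝ, NormedSpace.exp_eq_tsum ℝ]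
    rfl
  rw [h2]
  refine hs.tsum_le_tsum (fun n => ?_) hs2
  rw [norm_smul, norm_inv, Real.norm_natCast]
  refine mul_le_mul_of_nonneg_left ?_ (by positivity)
  rcases n with _ | n
  · simpa using h1
  · exact norm_pow_le' x (Nat.succ_pos n)

lemma norm_pow_sub_pow_le (A B : 𝔸) {M : ℝ} (hA : ‖A‖ ≤ M) (hB : ‖B‖ ≤ M) (hM : 1 ≤ M)
    (h1 : ‖(1 : 𝔸)‖ ≤ 1) (n : ℕ) : ‖A ^ n - B ^ n‖ ≤ n * M ^ n * ‖A - B‖ := by
  have hM0 : 0 ≤ M := by linarith
  have hpB : ∀ n : ℕ, ‖B ^ n‖ ≤ M ^ n := by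
    intro n
    induction n with
    | zero => simpa using h1
    | succ n ih =>
      rw [pow_succ, pow_succ]
      exact (norm_mul_le _ _).trans (mul_le_mul ih hB (norm_nonneg _) (by positivity))
  induction n with
  | zero => simp
  | succ n ih =>
    have e : A ^ (n + 1) - B ^ (n + 1) = A * (A ^ n - B ^ n) + (A - B) * B ^ n := by
      rw [pow_succ', pow_succ']; noncomm_ring
    rw [e]
    refine (norm_add_le _ _).trans ?_
    have h2 : ‖A * (A ^ n - B ^ n)‖ ≤ M * (n * M ^ n * ‖A - B‖) :=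
      (norm_mul_le _ _).trans (mul_le_mul hA ih (norm_nonneg _) hM0)
    have h3 : ‖(A - B) * B ^ n‖ ≤ ‖A - B‖ * M ^ (n + 1) := by
      refine (norm_mul_le _ _).trans (mul_le_mul_of_nonneg_left ((hpB n).trans ?_) (norm_nonneg _))
      exact pow_le_pow_right₀ hM (Nat.le_succ n)
    have h4 : M * (n * M ^ n * ‖A - B‖) + ‖A - B‖ * M ^ (n + 1) =
        ((n + 1 : ℕ) : ℝ) * M ^ (n + 1) * ‖A - B‖ := by
      push_cast; ring
    linarith

/-- the Lie product formula -/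
lemma tendsto_trotter (h1 : ‖(1 : 𝔸)‖ ≤ 1) (X Y : 𝔸) :
    Tendsto (fun n : ℕ => (exp ((n : ℝ)⁻¹ • X) * exp ((n : ℝ)⁻¹ • Y)) ^ n) atTop
      (𝓝 (exp (X + Y))) := by
  set φ : ℝ → 𝔸 := fun s => exp (s • X) * exp (s • Y) - exp (s • (X + Y)) with hφ
  have hd : HasDerivAt φ 0 0 := by
    have hX := hasDerivAt_exp_smul_const (𝕂 := ℝ) X 0
    have hY := hasDerivAt_exp_smul_const (𝕂 := ℝ) Y 0
    have hXY := hasDerivAt_exp_smul_const (𝕂 := ℝ) (X + Y) 0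
    have h := (hX.mul hY).sub hXY
    simp only [zero_smul, exp_zero, one_mul, mul_one, sub_self] at h
    exact h
  have hd0 : φ 0 = 0 := by simp [hφ]
  have hslope : Tendsto (fun n : ℕ => (n : ℝ) * ‖φ ((n : ℝ)⁻¹)‖) atTop (𝓝 0) := by
    have h2 := hd.tendsto_slope_zero
    have h3 : Tendsto (fun n : ℕ => ((n : ℝ)⁻¹)) atTop (𝓝[≠] 0) := by
      rw [tendsto_nhdsWithin_iff]
      refine ⟨tendsto_inv_atTop_nhds_zero_nat, ?_⟩
      filter_upwards [eventually_gt_atTop 0] with n hn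
      simp only [Set.mem_compl_iff, Set.mem_singleton_iff, inv_eq_zero, Nat.cast_eq_zero]
      omega
    have h4 := (h2.comp h3).norm
    rw [norm_zero] at h4
    refine h4.congr (fun n => ?_)
    simp only [Function.comp_apply, zero_add, hd0, sub_zero, inv_inv]
    rw [norm_smul, Real.norm_natCast]
  have hn : Tendsto (fun n : ℕ => Real.exp (‖X‖ + ‖Y‖) * ((n : ℝ) * ‖φ ((n : ℝ)⁻¹)‖)) atTop (𝓝 0) := by
    have := hslope.const_mul (Real.exp (‖X‖ + ‖Y‖))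
    rwa [mul_zero] at this
  rw [tendsto_iff_norm_sub_tendsto_zero]
  refine squeeze_zero' (Eventually.of_forall fun n => norm_nonneg _) ?_ hn
  filter_upwards [eventually_gt_atTop 0] with n hn0
  have hn1 : (0 : ℝ) < n := by exact_mod_cast hn0
  have hpow : exp (X + Y) = exp ((n : ℝ)⁻¹ • (X + Y)) ^ n := by
    let _ : NormedAlgebra ℚ 𝔸 := .restrictScalars ℚ ℝ 𝔸
    rw [← NormedSpace.exp_nsmul]
    congr 1
    rw [← Nat.cast_smul_eq_nsmul ℝ, smul_smul, mul_inv_cancel₀ hn1.ne', one_smul]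
  rw [hpow]
  have hinv : 0 ≤ (n : ℝ)⁻¹ := by positivity
  have hA : ‖exp ((n : ℝ)⁻¹ • X) * exp ((n : ℝ)⁻¹ • Y)‖ ≤ Real.exp ((n : ℝ)⁻¹ * (‖X‖ + ‖Y‖)) := by
    refine (norm_mul_le _ _).trans ?_
    have h2 := norm_exp_le h1 ((n : ℝ)⁻¹ • X)
    have h3 := norm_exp_le h1 ((n : ℝ)⁻¹ • Y)
    rw [norm_smul, Real.norm_eq_abs, abs_of_nonneg hinv] at h2 h3
    rw [mul_add, Real.exp_add]
    exact mul_le_mul h2 h3 (norm_nonneg _) (Real.exp_pos _).le
  have hB : ‖exp ((n : ℝ)⁻¹ • (X + Y))‖ ≤ Real.exp ((n : ℝ)⁻¹ * (‖X‖ + ‖Y‖)) := by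
    refine (norm_exp_le h1 _).trans (Real.exp_le_exp.2 ?_)
    rw [norm_smul, Real.norm_eq_abs, abs_of_nonneg hinv]
    exact mul_le_mul_of_nonneg_left (norm_add_le _ _) hinv
  refine (norm_pow_sub_pow_le _ _ hA hB (Real.one_le_exp (by positivity)) h1 n).trans ?_
  rw [← Real.exp_nat_mul]
  have h5 : (n : ℝ) * ((n : ℝ)⁻¹ * (‖X‖ + ‖Y‖)) = ‖X‖ + ‖Y‖ := by
    rw [← mul_assoc, mul_inv_cancel₀ hn1.ne', one_mul]
  rw [h5]
  apply le_of_eq
  ring

end Trotter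

section Group

variable {E : Type*} [NormedAddCommGroup E] [InnerProductSpace ℝ E] [CompleteSpace E]
  [FiniteDimensional ℝ E]

lemma norm_one_le' : ‖(1 : E →L[ℝ] E)‖ ≤ 1 := ContinuousLinearMap.norm_id_le

/-- the exponential as a unit -/
noncomputable def expU (Z : E →L[ℝ] E) : (E →L[ℝ] E)ˣ where
  val := exp Z
  inv := exp (-Z)
  val_inv := by
    let _ : NormedAlgebra ℚ (E →L[ℝ] E) := .restrictScalars ℚ ℝ _
    rw [← exp_add_of_commute (Commute.neg_right (Commute.refl Z)), add_neg_cancel, exp_zero]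
  inv_val := by
    let _ : NormedAlgebra ℚ (E →L[ℝ] E) := .restrictScalars ℚ ℝ _
    rw [← exp_add_of_commute (Commute.neg_left (Commute.refl Z)), neg_add_cancel, exp_zero]

@[simp] lemma expU_val (Z : E →L[ℝ] E) : ((expU Z : (E →L[ℝ] E)ˣ) : E →L[ℝ] E) = exp Z := rfl

@[simp] lemma expU_inv_val (Z : E →L[ℝ] E) :
    (((expU Z)⁻¹ : (E →L[ℝ] E)ˣ) : E →L[ℝ] E) = exp (-Z) := rfl

lemma exp_add_smul (Z : E →L[ℝ] E) (s t : ℝ) :
    exp ((s + t) • Z) = exp (s • Z) * exp (t • Z) := by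
  let _ : NormedAlgebra ℚ (E →L[ℝ] E) := .restrictScalars ℚ ℝ _
  rw [add_smul, exp_add_of_commute ((Commute.refl Z).smul_left s |>.smul_right t)]

lemma exp_mul_exp_neg (Z : E →L[ℝ] E) : exp Z * exp (-Z) = 1 := (expU Z).val_inv

lemma exp_neg_mul_exp (Z : E →L[ℝ] E) : exp (-Z) * exp Z = 1 := (expU Z).inv_val

lemma exp_nsmul' (Z : E →L[ℝ] E) (n : ℕ) : exp ((n : ℝ) • Z) = exp Z ^ n := by
  let _ : NormedAlgebra ℚ (E →L[ℝ] E) := .restrictScalars ℚ ℝ _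
  rw [Nat.cast_smul_eq_nsmul, exp_nsmul]

/-- Zariski closed in `GL(E)` -/
def ZClosed (G : Subgroup (E →L[ℝ] E)ˣ) : Prop :=
  ∀ g : (E →L[ℝ] E)ˣ, (∀ F ∈ PolyFun (E →L[ℝ] E), (∀ h ∈ G, F (h : E →L[ℝ] E) = 0) →
    F (g : E →L[ℝ] E) = 0) → g ∈ G

/-- the Lie algebra -/
def lieSet (G : Subgroup (E →L[ℝ] E)ˣ) : Set (E →L[ℝ] E) :=
  {Z | ∀ t : ℝ, ∃ g ∈ G, (g : E →L[ℝ] E) = exp (t • Z)}

variable {G : Subgroup (E →L[ℝ] E)ˣ}

lemma ZClosed.mem_of_tendsto (hG : ZClosed G) {ι : Type*} {l : Filter ι} [l.NeBot]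
    {g : ι → (E →L[ℝ] E)ˣ} (hg : ∀ᶠ i in l, g i ∈ G) {x : (E →L[ℝ] E)ˣ}
    (hx : Tendsto (fun i => (g i : E →L[ℝ] E)) l (𝓝 x)) : x ∈ G := by
  refine hG x (fun F hF hFG => ?_)
  have h1 : Tendsto (fun i => F (g i : E →L[ℝ] E)) l (𝓝 (F x)) :=
    ((PolyFun.continuous hF).tendsto _).comp hx
  have h2 : Tendsto (fun i => F (g i : E →L[ℝ] E)) l (𝓝 0) := by
    refine tendsto_const_nhds.congr' ?_
    filter_upwards [hg] with i hi
    exact (hFG _ hi).symm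
  exact tendsto_nhds_unique h1 h2

lemma mem_lieSet_iff {Z : E →L[ℝ] E} : Z ∈ lieSet G ↔ ∀ t : ℝ, expU (t • Z) ∈ G := by
  constructor
  · intro h t
    obtain ⟨g, hg, hgt⟩ := h t
    have : g = expU (t • Z) := Units.ext hgt
    exact this ▸ hg
  · intro h t
    exact ⟨_, h t, rfl⟩

lemma expU_mem {Z : E →L[ℝ] E} (h : Z ∈ lieSet G) : expU Z ∈ G := by
  have := (mem_lieSet_iff.1 h) 1
  rwa [one_smul] at this

lemma smul_mem_lieSet {Z : E →L[ℝ] E} (h : Z ∈ lieSet G) (c : ℝ) : c • Z ∈ lieSet G := by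
  rw [mem_lieSet_iff] at h ⊢
  intro t
  rw [smul_smul]
  exact h _

lemma zero_mem_lieSet : (0 : E →L[ℝ] E) ∈ lieSet G := by
  intro t
  exact ⟨1, G.one_mem, by rw [smul_zero, exp_zero]; rfl⟩

lemma neg_mem_lieSet {Z : E →L[ℝ] E} (h : Z ∈ lieSet G) : -Z ∈ lieSet G := by
  have := smul_mem_lieSet h (-1)
  rwa [neg_one_smul] at this

lemma conj_mem_lieSet {Z : E →L[ℝ] E} (h : Z ∈ lieSet G) {g : (E →L[ℝ] E)ˣ} (hg : g ∈ G) :
    (g : E →L[ℝ] E) * Z * ((g⁻¹ : (E →L[ℝ] E)ˣ) : E →L[ℝ] E) ∈ lieSet G := by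
  let _ : NormedAlgebra ℚ (E →L[ℝ] E) := .restrictScalars ℚ ℝ _
  intro t
  obtain ⟨k, hk, hkt⟩ := h t
  refine ⟨g * k * g⁻¹, G.mul_mem (G.mul_mem hg hk) (G.inv_mem hg), ?_⟩
  rw [Units.val_mul, Units.val_mul, hkt]
  have e : t • ((g : E →L[ℝ] E) * Z * ((g⁻¹ : (E →L[ℝ] E)ˣ) : E →L[ℝ] E)) =
      (g : E →L[ℝ] E) * (t • Z) * ((g⁻¹ : (E →L[ℝ] E)ˣ) : E →L[ℝ] E) := by
    rw [mul_smul_comm, smul_mul_assoc]
  rw [e, exp_units_conj]

lemma add_mem_lieSet (hG : ZClosed G) {X Y : E →L[ℝ] E} (hX : X ∈ lieSet G) (hY : Y ∈ lieSet G) :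
    X + Y ∈ lieSet G := by
  rw [mem_lieSet_iff] at hX hY ⊢
  intro t
  refine hG.mem_of_tendsto (l := atTop)
    (g := fun n : ℕ => (expU (((n : ℝ)⁻¹ * t) • X) * expU (((n : ℝ)⁻¹ * t) • Y)) ^ n)
    (Eventually.of_forall fun n => G.pow_mem (G.mul_mem (hX _) (hY _)) _) ?_
  have h := tendsto_trotter norm_one_le' (t • X) (t • Y)
  rw [← smul_add] at h
  refine h.congr (fun n => ?_)
  rw [Units.val_pow_eq_pow_val, Units.val_mul, expU_val, expU_val, mul_smul, mul_smul]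

lemma isClosed_lieSet (hG : ZClosed G) : IsClosed (lieSet G) := by
  rw [← isSeqClosed_iff_isClosed]
  intro u x hu hx
  rw [mem_lieSet_iff]
  intro t
  refine hG.mem_of_tendsto (l := atTop) (g := fun n => expU (t • u n))
    (Eventually.of_forall fun n => mem_lieSet_iff.1 (hu n) t) ?_
  have h1 : Continuous (fun Z : E →L[ℝ] E => exp (t • Z)) := by
    let _ : NormedAlgebra ℚ (E →L[ℝ] E) := .restrictScalars ℚ ℝ _
    exact (NormedSpace.exp_continuous (𝔸 := E →L[ℝ] E)).comp (continuous_const_smul t)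
  exact (h1.tendsto x).comp hx

/-- the Lie algebra as a subspace -/
def lieSub (hG : ZClosed G) : Submodule ℝ (E →L[ℝ] E) where
  carrier := lieSet G
  add_mem' := add_mem_lieSet hG
  zero_mem' := zero_mem_lieSet
  smul_mem' c _ h := smul_mem_lieSet h c

@[simp] lemma mem_lieSub (hG : ZClosed G) {Z : E →L[ℝ] E} : Z ∈ lieSub hG ↔ Z ∈ lieSet G := Iff.rfl

lemma bracket_mem_lieSet (hG : ZClosed G) {X Y : E →L[ℝ] E} (hX : X ∈ lieSet G)
    (hY : Y ∈ lieSet G) : X * Y - Y * X ∈ lieSet G := by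
  -- derivative at 0 of `exp (tX) Y exp (-tX)`
  have hd : HasDerivAt (fun t : ℝ => exp (t • X) * Y * exp (t • (-X))) (X * Y - Y * X) 0 := by
    have h1 := hasDerivAt_exp_smul_const (𝕂 := ℝ) X 0
    have h2 := hasDerivAt_exp_smul_const (𝕂 := ℝ) (-X) 0
    have h := (h1.mul_const Y).mul h2
    simp only [zero_smul, exp_zero, one_mul, mul_one] at h
    have e : X * Y - Y * X = X * Y + Y * -X := by rw [mul_neg, sub_eq_add_neg]
    rw [e]
    exact h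
  have hs := hd.tendsto_slope_zero
  have hcl := isClosed_lieSet hG
  refine hcl.mem_of_tendsto hs (Eventually.of_forall fun t => ?_)
  have h3 : exp ((0 + t) • X) * Y * exp ((0 + t) • (-X)) ∈ lieSet G := by
    have := conj_mem_lieSet hY (mem_lieSet_iff.1 hX (0 + t))
    rwa [expU_inv_val, expU_val, ← smul_neg] at this
  have h4 : exp ((0 : ℝ) • X) * Y * exp ((0 : ℝ) • (-X)) ∈ lieSet G := by
    simpa using hY
  exact (lieSub hG).smul_mem _ ((lieSub hG).sub_mem h3 h4)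

lemma star_mem_lieSet (hst : ∀ g ∈ G, star g ∈ G) {Z : E →L[ℝ] E} (h : Z ∈ lieSet G) :
    star Z ∈ lieSet G := by
  intro t
  obtain ⟨k, hk, hkt⟩ := h t
  refine ⟨star k, hst k hk, ?_⟩
  rw [Units.coe_star, hkt, star_exp, star_smul, star_trivial]

end Group

end H46

end Pool.Agent.Lib.MP_d9b062_al
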