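import Pool.Agent.Lib.MP_d9b062_al_h46.Contr
import Pool.Agent.Lib.MP_d9b062_al_h11.Lip

/-!
# Affine LU decomposition and products
-/

namespace Pool.Agent.Lib.MP_d9b062_al

open Filter
open scoped Topology

lemma tendsto_exp_decay46 (C : ℝ) {a : ℝ} (ha : 0 < a) :
    Tendsto (fun n : ℕ => C * Real.exp (-a * n)) atTop (𝓝 0) := by
  have h1 : Tendsto (fun n : ℕ => a * (n : ℝ)) atTop atTop :=
    tendsto_natCast_atTop_atTop.const_mul_atTop ha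
  have h2 := (Real.tendsto_exp_neg_atTop_nhds_zero.comp h1).const_mul C
  rw [mul_zero] at h2
  refine h2.congr fun n => ?_
  simp only [Function.comp_apply, neg_mul]

lemma exists_exp_small46 (C : ℝ) {a ε : ℝ} (ha : 0 < a) (hε : 0 < ε) :
    ∃ n₀ : ℕ, ∀ n ≥ n₀, C * Real.exp (-a * n) ≤ ε := by
  have := (tendsto_exp_decay46 C ha).eventually (ge_mem_nhds hε)
  exact eventually_atTop.1 this

lemma norm_inv_le_two46 {E : Type*} [NormedAddCommGroup E] [NormedSpace ℝ E]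
    (u : (E →L[ℝ] E)ˣ) (h : ‖(u : E →L[ℝ] E) - 1‖ ≤ 1 / 2) :
    ‖((u⁻¹ : (E →L[ℝ] E)ˣ) : E →L[ℝ] E)‖ ≤ 2 := by
  have h1 : ((u⁻¹ : (E →L[ℝ] E)ˣ) : E →L[ℝ] E) =
      1 - ((u⁻¹ : (E →L[ℝ] E)ˣ) : E →L[ℝ] E) * ((u : E →L[ℝ] E) - 1) := by
    rw [mul_sub, Units.inv_mul, mul_one]; abel
  have h2 : ‖((u⁻¹ : (E →L[ℝ] E)ˣ) : E →L[ℝ] E)‖ ≤
      1 + ‖((u⁻¹ : (E →L[ℝ] E)ˣ) : E →L[ℝ] E)‖ * (1 / 2) := by
    conv_lhs => rw [h1]
    refine (norm_sub_le _ _).trans (add_le_add Aff.norm_one_le46 ?_)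
    exact (norm_mul_le _ _).trans (mul_le_mul_of_nonneg_left h (norm_nonneg _))
  linarith

lemma norm_le_two46 {E : Type*} [NormedAddCommGroup E] [NormedSpace ℝ E]
    (u : E →L[ℝ] E) (h : ‖u - 1‖ ≤ 1 / 2) : ‖u‖ ≤ 2 := by
  have : ‖u‖ ≤ ‖u - 1‖ + ‖(1 : E →L[ℝ] E)‖ := by
    calc ‖u‖ = ‖(u - 1) + 1‖ := by rw [sub_add_cancel]
      _ ≤ _ := norm_add_le _ _
  have h1 : ‖(1 : E →L[ℝ] E)‖ ≤ 1 := Aff.norm_one_le46
  linarith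

namespace Cell

variable {N : ℕ} {G : Subgroup (Op N)ˣ} {ι : Type} [Fintype ι] [LinearOrder ι] (c : Cell G ι)

open Classical in
/-- sum of the negative blocks -/
noncomputable def pN46 (X : ι → ℝ) (v : V N) : V N := ∑ i, if X i < 0 then c.P i v else 0

open Classical in
/-- sum of the positive blocks -/
noncomputable def pP46 (X : ι → ℝ) (v : V N) : V N := ∑ i, if 0 < X i then c.P i v else 0

lemma pN_add46 {X : ι → ℝ} (hX : c.Sgn46 X) (v : V N) : c.pN46 X v + c.P c.o v + c.pP46 X v = v := by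
  classical
  have h : c.P c.o v = ∑ i, if i = c.o then c.P i v else 0 := by
    rw [Finset.sum_ite_eq' Finset.univ c.o (fun i => c.P i v), if_pos (Finset.mem_univ _)]
  rw [h, pN46, pP46, ← Finset.sum_add_distrib, ← Finset.sum_add_distrib]
  conv_rhs => rw [← c.sum_P_apply v]
  refine Finset.sum_congr rfl fun i _ => ?_
  by_cases hi : i = c.o
  · rw [if_pos hi, hi, hX.o]; simp
  · rw [if_neg hi]
    rcases lt_or_gt_of_ne (hX.ne i hi) with h1 | h1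
    · rw [if_pos h1, if_neg (not_lt.mpr h1.le)]; simp
    · rw [if_pos h1, if_neg (not_lt.mpr h1.le)]; simp

lemma P_pN46 {X : ι → ℝ} {i : ι} (hi : 0 ≤ X i) (v : V N) : c.P i (c.pN46 X v) = 0 := by
  classical
  rw [pN46, map_sum]
  refine Finset.sum_eq_zero fun j _ => ?_
  split_ifs with hj
  · exact c.P_P_ne46 (fun h => by subst h; exact absurd hj (not_lt.mpr hi)) v
  · exact map_zero _

lemma P_pP46 {X : ι → ℝ} {i : ι} (hi : X i ≤ 0) (v : V N) : c.P i (c.pP46 X v) = 0 := by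
  classical
  rw [pP46, map_sum]
  refine Finset.sum_eq_zero fun j _ => ?_
  split_ifs with hj
  · exact c.P_P_ne46 (fun h => by subst h; exact absurd hj (not_lt.mpr hi)) v
  · exact map_zero _

lemma norm_pN_le46 (X : ι → ℝ) (v : V N) : ‖c.pN46 X v‖ ≤ Fintype.card ι * ‖v‖ := by
  classical
  rw [pN46]
  calc ‖∑ i, if X i < 0 then c.P i v else 0‖ ≤ ∑ _i : ι, ‖v‖ := by
        refine norm_sum_le_of_le _ fun i _ => ?_
        split_ifs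
        · exact c.norm_P_apply_le46 i v
        · rw [norm_zero]; exact norm_nonneg _
    _ = Fintype.card ι * ‖v‖ := by rw [Finset.sum_const, Finset.card_univ, nsmul_eq_mul]

lemma norm_pP_le46 (X : ι → ℝ) (v : V N) : ‖c.pP46 X v‖ ≤ Fintype.card ι * ‖v‖ := by
  classical
  rw [pP46]
  calc ‖∑ i, if 0 < X i then c.P i v else 0‖ ≤ ∑ _i : ι, ‖v‖ := by
        refine norm_sum_le_of_le _ fun i _ => ?_
        split_ifs
        · exact c.norm_P_apply_le46 i v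
        · rw [norm_zero]; exact norm_nonneg _
    _ = Fintype.card ι * ‖v‖ := by rw [Finset.sum_const, Finset.card_univ, nsmul_eq_mul]

/-- affine LU decomposition -/
lemma exists_affLU46 {X : ι → ℝ} (hX : c.Sgn46 X) {T : Aff (V N)} (hT : T.lin ∈ G)
    (hr : Reg c.P (T.lin : Op N)) :
    ∃ Y ∈ c.Um46 hX, ∃ D ∈ c.Mo46, ∃ Z ∈ c.Up46 hX, T = Y * D * Z ∧
      (Y.lin : Op N) = yL c.P (T.lin : Op N) ∧ (D.lin : Op N) = dD c.P (T.lin : Op N) ∧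
      (Z.lin : Op N) = xU c.P (T.lin : Op N) ∧
      ‖Y.tr‖ ≤ ‖(Y.lin : Op N)‖ * (Fintype.card ι *
        (‖((Y.lin⁻¹ : (Op N)ˣ) : Op N)‖ * ‖T.tr‖)) ∧
      ‖D.tr‖ ≤ ‖((Y.lin⁻¹ : (Op N)ˣ) : Op N)‖ * ‖T.tr‖ ∧
      ‖Z.tr‖ ≤ ‖((D.lin⁻¹ : (Op N)ˣ) : Op N)‖ * (Fintype.card ι *
        (‖((Y.lin⁻¹ : (Op N)ˣ) : Op N)‖ * ‖T.tr‖)) := by
  obtain ⟨y, hy, d, hd, x, hx, h, hy', hd', hx'⟩ := c.exists_LU hT hr
  set v : V N := ((y⁻¹ : (Op N)ˣ) : Op N) T.tr with hv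
  have hvn : ‖v‖ ≤ ‖((y⁻¹ : (Op N)ˣ) : Op N)‖ * ‖T.tr‖ := ContinuousLinearMap.le_opNorm _ _
  refine ⟨⟨y, (y : Op N) (c.pN46 X v)⟩, ⟨hy, ?_⟩, ⟨d, c.P c.o v⟩, ⟨hd, c.P_P_apply46 _ _⟩,
    ⟨x, ((d⁻¹ : (Op N)ˣ) : Op N) (c.pP46 X v)⟩, ⟨hx, ?_⟩, ?_, hy', hd', hx', ?_, ?_, ?_⟩
  · exact c.Nm_apply46 hX hy fun i hi => c.P_pN46 hi v
  · intro i hi
    change c.P i (((d⁻¹ : (Op N)ˣ) : Op N) (c.pP46 X v)) = 0
    rw [c.L_comm46 (c.L.inv_mem hd), c.P_pP46 hi, map_zero]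
  · ext1
    · exact h
    · rw [Aff.mul_tr, Aff.mul_tr, Aff.mul_lin]
      change T.tr = (y : Op N) (c.pN46 X v) + (y : Op N) (c.P c.o v) +
        (y : Op N) ((d : Op N) (((d⁻¹ : (Op N)ˣ) : Op N) (c.pP46 X v)))
      have h1 : (d : Op N) (((d⁻¹ : (Op N)ˣ) : Op N) (c.pP46 X v)) = c.pP46 X v :=
        congrArg (fun T : Op N => T (c.pP46 X v)) (Units.mul_inv d)
      have h2 : (y : Op N) (((y⁻¹ : (Op N)ˣ) : Op N) T.tr) = T.tr :=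
        congrArg (fun S : Op N => S T.tr) (Units.mul_inv y)
      rw [h1, ← map_add, ← map_add, c.pN_add46 hX, hv, h2]
  · refine (ContinuousLinearMap.le_opNorm _ _).trans
      (mul_le_mul_of_nonneg_left ?_ (norm_nonneg _))
    exact (c.norm_pN_le46 X v).trans (mul_le_mul_of_nonneg_left hvn (Nat.cast_nonneg _))
  · exact (c.norm_P_apply_le46 _ _).trans hvn
  · refine (ContinuousLinearMap.le_opNorm _ _).trans
      (mul_le_mul_of_nonneg_left ?_ (norm_nonneg _))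
    exact (c.norm_pP_le46 X v).trans (mul_le_mul_of_nonneg_left hvn (Nat.cast_nonneg _))

lemma reg_one46 : Reg c.P (1 : Op N) ∧ yL c.P (1 : Op N) = 1 ∧ dD c.P (1 : Op N) = 1 ∧
    xU c.P (1 : Op N) = 1 := by
  have h := c.LU_val c.Nm.one_mem c.L.one_mem c.Np.one_mem
  simpa only [one_mul, Units.val_one] using h

lemma exists_kA_bound46 (X : ι → ℝ) : ∃ K > 0, ∃ ρ > 0, ∀ d ∈ c.L, ‖(d : Op N) - 1‖ < ρ →
    c.kA46 X (d : Op N) ≤ K := by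
  have h1 : ContinuousAt c.tau (1 : Op N) := by
    have := c.tau_continuousAt c.L.one_mem
    simpa only [Units.val_one] using this
  obtain ⟨ρ, hρ, h2⟩ := Metric.continuousAt_iff.1 h1 1 one_pos
  have h0 : c.tau (1 : Op N) = 0 := c.tau_one
  refine ⟨(∑ _i : ι, ∑ _j : ι, Real.exp 2) + ∑ _i : ι, Real.exp 1 + 1, by positivity, ρ, hρ,
    fun d _ hd => ?_⟩
  have h3 : ∀ i, |c.tau (d : Op N) i| ≤ 1 := by
    intro i
    have h4 := h2 (x := (d : Op N)) (by rw [dist_eq_norm]; exact hd)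
    rw [h0, dist_zero_right] at h4
    have h5 := norm_le_pi_norm (c.tau (d : Op N)) i
    rw [Real.norm_eq_abs] at h5
    linarith
  have h6 : c.kap (d : Op N) ≤ ∑ _i : ι, ∑ _j : ι, Real.exp 2 := by
    classical
    rw [kap]
    refine Finset.sum_le_sum fun i _ => Finset.sum_le_sum fun j _ => ?_
    split_ifs
    · apply Real.exp_le_exp.2
      have := abs_le.1 (h3 i)
      have := abs_le.1 (h3 j)
      linarith
    · exact (Real.exp_pos _).le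
  have h7 : ∑ i, c.eX46 X (d : Op N) i ≤ ∑ _i : ι, Real.exp 1 := by
    refine Finset.sum_le_sum fun i _ => ?_
    rw [eX46]
    split_ifs
    · exact (Real.exp_pos _).le
    · apply Real.exp_le_exp.2
      have := abs_le.1 (h3 i)
      rw [sg46]
      split_ifs <;> linarith
  rw [kA46]
  linarith

/-- LU decomposition near the identity -/
lemma exists_near_one46 {X : ι → ℝ} (hX : c.Sgn46 X) : ∃ K > 0, ∃ ρ > 0, ∀ T : Aff (V N), T.lin ∈ G →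
    T.nrm46 ≤ ρ → ∃ Y ∈ c.Um46 hX, ∃ D ∈ c.Mo46, ∃ Z ∈ c.Up46 hX, T = Y * D * Z ∧
      Y.nrm46 ≤ K * T.nrm46 ∧ D.nrm46 ≤ K * T.nrm46 ∧ Z.nrm46 ≤ K * T.nrm46 ∧
      c.kA46 X (D.lin : Op N) ≤ K := by
  obtain ⟨h1, hy1, hd1, hx1⟩ := c.reg_one46
  obtain ⟨K₁, hK₁, δ₁, hδ₁, hlip⟩ := exists_lipschitz c.grading c.star_P h1
  obtain ⟨K₂, hK₂, ρ₂, hρ₂, hkA⟩ := c.exists_kA_bound46 X
  set n : ℝ := ((Fintype.card ι : ℕ) : ℝ) with hn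
  have hn0 : 0 ≤ n := Nat.cast_nonneg _
  set K : ℝ := K₁ + 4 * n + 2 + K₂ with hK
  have hKpos : 0 < K := by positivity
  set ρ : ℝ := min (δ₁ / 2) (min (1 / (2 * K₁)) (ρ₂ / (2 * K₁))) with hρ
  have hρpos : 0 < ρ := by
    refine lt_min (by positivity) (lt_min (by positivity) (by positivity))
  refine ⟨K, hKpos, ρ, hρpos, fun T hT hTn => ?_⟩
  have e0 : ‖(T.lin : Op N) - 1‖ ≤ ρ := (Aff.norm_lin_sub_le46 T).trans hTn
  have e1 : ‖(T.lin : Op N) - 1‖ < δ₁ := by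
    have : ρ ≤ δ₁ / 2 := min_le_left _ _
    linarith
  have e2 : K₁ * ‖(T.lin : Op N) - 1‖ ≤ 1 / 2 := by
    have h : ρ ≤ 1 / (2 * K₁) := (min_le_right _ _).trans (min_le_left _ _)
    calc K₁ * ‖(T.lin : Op N) - 1‖ ≤ K₁ * (1 / (2 * K₁)) :=
          mul_le_mul_of_nonneg_left (e0.trans h) hK₁.le
      _ = 1 / 2 := by field_simp
  have e3 : K₁ * ‖(T.lin : Op N) - 1‖ < ρ₂ := by
    have h : ρ ≤ ρ₂ / (2 * K₁) := (min_le_right _ _).trans (min_le_right _ _)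
    calc K₁ * ‖(T.lin : Op N) - 1‖ ≤ K₁ * (ρ₂ / (2 * K₁)) :=
          mul_le_mul_of_nonneg_left (e0.trans h) hK₁.le
      _ = ρ₂ / 2 := by field_simp
      _ < ρ₂ := by linarith
  obtain ⟨hr, hy, hx, hd⟩ := hlip (T.lin : Op N) 1 e1
    (by rw [sub_self, norm_zero]; exact hδ₁)
  rw [hy1] at hy
  rw [hx1] at hx
  rw [hd1] at hd
  obtain ⟨Y, hY, D, hD, Z, hZ, hTe, eY, eD, eZ, nY, nD, nZ⟩ := c.exists_affLU46 hX hT hr
  rw [← eY] at hy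
  rw [← eD] at hd
  rw [← eZ] at hx
  have b1 : ‖(Y.lin : Op N)‖ ≤ 2 := norm_le_two46 _ (hy.trans e2)
  have b2 : ‖((Y.lin⁻¹ : (Op N)ˣ) : Op N)‖ ≤ 2 := norm_inv_le_two46 _ (hy.trans e2)
  have b3 : ‖((D.lin⁻¹ : (Op N)ˣ) : Op N)‖ ≤ 2 := norm_inv_le_two46 _ (hd.trans e2)
  have t0 : 0 ≤ ‖T.tr‖ := norm_nonneg _
  have t1 : ‖((Y.lin⁻¹ : (Op N)ˣ) : Op N)‖ * ‖T.tr‖ ≤ 2 * ‖T.tr‖ :=
    mul_le_mul_of_nonneg_right b2 t0
  have t2 : n * (‖((Y.lin⁻¹ : (Op N)ˣ) : Op N)‖ * ‖T.tr‖) ≤ n * (2 * ‖T.tr‖) :=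
    mul_le_mul_of_nonneg_left t1 hn0
  have t3 : 0 ≤ n * (‖((Y.lin⁻¹ : (Op N)ˣ) : Op N)‖ * ‖T.tr‖) := by positivity
  have r1 : ‖Y.tr‖ ≤ 4 * n * ‖T.tr‖ := by
    calc ‖Y.tr‖ ≤ _ := nY
      _ ≤ 2 * (n * (2 * ‖T.tr‖)) := mul_le_mul b1 t2 t3 (by norm_num)
      _ = 4 * n * ‖T.tr‖ := by ring
  have r2 : ‖D.tr‖ ≤ 2 * ‖T.tr‖ := nD.trans t1
  have r3 : ‖Z.tr‖ ≤ 4 * n * ‖T.tr‖ := by
    calc ‖Z.tr‖ ≤ _ := nZ
      _ ≤ 2 * (n * (2 * ‖T.tr‖)) := mul_le_mul b3 t2 t3 (by norm_num)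
      _ = 4 * n * ‖T.tr‖ := by ring
  have s0 : 0 ≤ ‖(T.lin : Op N) - 1‖ := norm_nonneg _
  have hTnrm : T.nrm46 = ‖(T.lin : Op N) - 1‖ + ‖T.tr‖ := rfl
  have m1 : 0 ≤ n * ‖(T.lin : Op N) - 1‖ := by positivity
  have m2 : 0 ≤ K₁ * ‖T.tr‖ := by positivity
  have m3 : 0 ≤ n * ‖T.tr‖ := by positivity
  have m4 : 0 ≤ K₂ * ‖(T.lin : Op N) - 1‖ := by positivity
  have m5 : 0 ≤ K₂ * ‖T.tr‖ := by positivity
  refine ⟨Y, hY, D, hD, Z, hZ, hTe, ?_, ?_, ?_, ?_⟩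
  · rw [hTnrm, hK]
    have : Y.nrm46 ≤ K₁ * ‖(T.lin : Op N) - 1‖ + 4 * n * ‖T.tr‖ := add_le_add hy r1
    nlinarith
  · rw [hTnrm, hK]
    have : D.nrm46 ≤ K₁ * ‖(T.lin : Op N) - 1‖ + 2 * ‖T.tr‖ := add_le_add hd r2
    nlinarith
  · rw [hTnrm, hK]
    have : Z.nrm46 ≤ K₁ * ‖(T.lin : Op N) - 1‖ + 4 * n * ‖T.tr‖ := add_le_add hx r3
    nlinarith
  · refine (hkA D.lin hD.1 (hd.trans_lt e3)).trans ?_
    rw [hK]; nlinarith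

/-- products -/
lemma exists_product46 {X : ι → ℝ} (hX : c.Sgn46 X) {δ : Aff (V N)} (hδ : δ ∈ c.Mo46) {C a : ℝ}
    (hC : 0 < C) (ha : 0 < a) (hk : ∀ n : ℕ, c.kk46 X (δ ^ n) ≤ C * Real.exp (-a * n))
    {R : ℝ} (hR : 0 ≤ R) :
    ∃ C' > 0, ∃ n₀ : ℕ, ∀ n ≥ n₀, ∀ Ya ∈ c.Um46 hX, ∀ Da ∈ c.Mo46, ∀ Za ∈ c.Up46 hX, ∀ Yb ∈ c.Um46 hX,
      ∀ Db ∈ c.Mo46, ∀ Zb ∈ c.Up46 hX, Za.nrm46 ≤ R → Yb.nrm46 ≤ R →
      ‖((Yb.lin⁻¹ : (Op N)ˣ) : Op N)‖ ≤ R →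
      ∃ Y1 ∈ c.Um46 hX, ∃ D1 ∈ c.Mo46, ∃ Z1 ∈ c.Up46 hX,
        (Ya * Da * Za) * δ ^ n * (Yb * Db * Zb) =
          (Ya * ((Da * δ ^ n) * (Yb * Y1) * (Da * δ ^ n)⁻¹)) * (Da * δ ^ n * D1 * Db) *
            ((Db⁻¹ * Z1 * Db) * Zb) ∧
        Y1.nrm46 ≤ C' * Real.exp (-a * n) ∧ D1.nrm46 ≤ C' * Real.exp (-a * n) ∧
        Z1.nrm46 ≤ C' * Real.exp (-a * n) ∧ c.kA46 X (D1.lin : Op N) ≤ C' := by
  obtain ⟨K, hK, ρ, hρ, hnear⟩ := c.exists_near_one46 hX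
  set B : ℝ := R * (1 + 2 * R) * (C * R) with hB
  have hB0 : 0 ≤ B := by positivity
  obtain ⟨n₀, hn₀⟩ := exists_exp_small46 B ha hρ
  refine ⟨K * B + K, by positivity, n₀, ?_⟩
  intro n hn Ya hYa Da hDa Za hZa Yb hYb Db hDb Zb hZb hZaR hYbR hYbR'
  have hδn : δ ^ n ∈ c.Mo46 := c.Mo46.pow_mem hδ n
  obtain ⟨hZ', hZ'n⟩ := c.conj_Up46 hX hδn hZa
  set Z' : Aff (V N) := (δ ^ n)⁻¹ * Za * δ ^ n with hZ'def
  set T : Aff (V N) := Yb⁻¹ * Z' * Yb with hT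
  have hE : 0 < Real.exp (-a * n) := Real.exp_pos _
  have hTn : T.nrm46 ≤ B * Real.exp (-a * n) := by
    have h1 := Aff.nrm_conj_le46 Yb Z' hYbR hYbR'
    have h2 : Z'.nrm46 ≤ C * Real.exp (-a * n) * R :=
      hZ'n.trans (mul_le_mul (hk n) hZaR (Aff.nrm_nonneg46 _) (by positivity))
    calc T.nrm46 ≤ R * (1 + 2 * R) * Z'.nrm46 := h1
      _ ≤ R * (1 + 2 * R) * (C * Real.exp (-a * n) * R) :=
          mul_le_mul_of_nonneg_left h2 (by positivity)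
      _ = B * Real.exp (-a * n) := by rw [hB]; ring
  have hTG : T.lin ∈ G := by
    rw [hT, Aff.mul_lin, Aff.mul_lin, Aff.inv_lin]
    exact G.mul_mem (G.mul_mem (G.inv_mem hYb.1.1) hZ'.1.1) hYb.1.1
  obtain ⟨Y1, hY1, D1, hD1, Z1, hZ1, hTe, n1, n2, n3, n4⟩ :=
    hnear T hTG (hTn.trans (hn₀ n hn))
  have hKT : K * T.nrm46 ≤ (K * B + K) * Real.exp (-a * n) := by
    have h1 : K * T.nrm46 ≤ K * (B * Real.exp (-a * n)) := mul_le_mul_of_nonneg_left hTn hK.le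
    have h2 : 0 ≤ K * Real.exp (-a * n) := by positivity
    calc K * T.nrm46 ≤ K * (B * Real.exp (-a * n)) := h1
      _ ≤ K * (B * Real.exp (-a * n)) + K * Real.exp (-a * n) := by linarith
      _ = (K * B + K) * Real.exp (-a * n) := by ring
  refine ⟨Y1, hY1, D1, hD1, Z1, hZ1, ?_, n1.trans hKT, n2.trans hKT, n3.trans hKT,
    n4.trans (by nlinarith [mul_nonneg hK.le hB0])⟩
  have e1 : Yb * (Y1 * D1 * Z1) = Z' * Yb := by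
    rw [← hTe, hT]; group
  have e2 : Za * δ ^ n = δ ^ n * Z' := by rw [hZ'def]; group
  calc (Ya * Da * Za) * δ ^ n * (Yb * Db * Zb)
      = Ya * Da * (Za * δ ^ n) * Yb * Db * Zb := by simp only [mul_assoc]
    _ = Ya * Da * δ ^ n * (Z' * Yb) * Db * Zb := by rw [e2]; simp only [mul_assoc]
    _ = Ya * Da * δ ^ n * (Yb * (Y1 * D1 * Z1)) * Db * Zb := by rw [e1]
    _ = _ := by group

end Cell

end Pool.Agent.Lib.MP_d9b062_al
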