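import Pool.Agent.Lib.MP_d9b062_al_h46.Alg
import Pool.Agent.Lib.MP_d9b062_al_h9.Weights

/-!
# Root components of operators
-/

namespace Pool.Agent.Lib.MP_d9b062_al

open NormedSpace Filter H46
open scoped Topology

section

variable {N : ℕ} {G : Subgroup (Op N)ˣ} {A : Submodule ℝ (Op N)}
  {ι : Type} [Fintype ι] [LinearOrder ι] (W : WeightData A ι)

namespace H46

lemma op_smul_mul (c : ℝ) (S T : Op N) : (c • S) * T = c • (S * T) := Algebra.smul_mul_assoc c S T

lemma op_mul_smul (c : ℝ) (S T : Op N) : S * (c • T) = c • (S * T) := Algebra.mul_smul_comm c S T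

lemma op_star_sub (S T : Op N) : star (S - T) = star S - star T := star_sub S T

lemma op_star_add (S T : Op N) : star (S + T) = star S + star T := star_add S T

lemma op_star_zero : star (0 : Op N) = 0 := star_zero (Op N)

lemma op_star_smul (c : ℝ) (S : Op N) : star (c • S) = c • star S :=
  (star_smul c S).trans (by rw [star_trivial c])

lemma op_smul_cancel {a b : ℝ} {S : Op N} (h : a • S = b • S) (hS : S ≠ 0) : a = b := by
  have hex : ∃ v, S v ≠ 0 := by
    by_contra hcon
    push Not at hcon
    exact hS (ContinuousLinearMap.ext hcon)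
  obtain ⟨v, hv⟩ := hex
  have h1 : a • S v = b • S v := congrArg (fun T : Op N => T v) h
  exact smul_left_injective ℝ hv h1

end H46

lemma WeightData.A_mul_P46 (K : A) (i : ι) : (K : Op N) * W.P i = W.m K i • W.P i := by
  rw [W.eq_sum K, Finset.sum_mul, Finset.sum_eq_single i]
  · rw [op_smul_mul, W.grading.idem]
  · intro j _ hj
    rw [op_smul_mul, W.grading.orth j i hj, smul_zero]
  · intro h; exact absurd (Finset.mem_univ i) h

lemma WeightData.P_mul_A46 (K : A) (i : ι) : W.P i * (K : Op N) = W.m K i • W.P i := by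
  rw [W.eq_sum K, Finset.mul_sum, Finset.sum_eq_single i]
  · rw [op_mul_smul, W.grading.idem]
  · intro j _ hj
    rw [op_mul_smul, W.grading.orth i j hj.symm, smul_zero]
  · intro h; exact absurd (Finset.mem_univ i) h

/-- the component of `Z` with `ad H0`-eigenvalue `δ` -/
noncomputable def WeightData.compo46 (δ : ℝ) (Z : Op N) : Op N :=
  ∑ i, ∑ j, (if W.m W.H0 i - W.m W.H0 j = δ then W.P i * Z * W.P j else 0)

lemma WeightData.compo_mem46 (hG : IsConnectedSemisimple G) (hA : IsCartan G A) {Z : Op N}
    (hZ : Z ∈ lieAlg G) (δ : ℝ) : W.compo46 δ Z ∈ lieAlg G := by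
  classical
  exact W.component_mem hG hA hZ (fun x => x = δ)

lemma WeightData.block_compo46 (δ : ℝ) (Z : Op N) (a b : ι) :
    W.P a * W.compo46 δ Z * W.P b =
      if W.m W.H0 a - W.m W.H0 b = δ then W.P a * Z * W.P b else 0 := by
  classical
  unfold WeightData.compo46
  rw [Finset.mul_sum, Finset.sum_mul, Finset.sum_eq_single a]
  · rw [Finset.mul_sum, Finset.sum_mul, Finset.sum_eq_single b]
    · split_ifs with h
      · calc W.P a * (W.P a * Z * W.P b) * W.P b
            = (W.P a * W.P a) * Z * (W.P b * W.P b) := by noncomm_ring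
          _ = W.P a * Z * W.P b := by rw [W.grading.idem, W.grading.idem]
      · rw [mul_zero, zero_mul]
    · intro j _ hj
      split_ifs with h
      · calc W.P a * (W.P a * Z * W.P j) * W.P b
            = W.P a * (W.P a * Z) * (W.P j * W.P b) := by noncomm_ring
          _ = 0 := by rw [W.grading.orth j b hj, mul_zero]
      · rw [mul_zero, zero_mul]
    · intro h; exact absurd (Finset.mem_univ _) h
  · intro i _ hi
    rw [Finset.mul_sum, Finset.sum_mul]
    refine Finset.sum_eq_zero fun j _ => ?_
    split_ifs with h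
    · calc W.P a * (W.P i * Z * W.P j) * W.P b
          = (W.P a * W.P i) * Z * W.P j * W.P b := by noncomm_ring
        _ = 0 := by rw [W.grading.orth a i hi.symm]; noncomm_ring
    · rw [mul_zero, zero_mul]
  · intro h; exact absurd (Finset.mem_univ _) h

/-- `compo` is a weight vector for `A` -/
lemma WeightData.compo_bracket46 (a b : ι) (Z : Op N) (K : A) :
    (K : Op N) * W.compo46 (W.m W.H0 b - W.m W.H0 a) Z -
      W.compo46 (W.m W.H0 b - W.m W.H0 a) Z * (K : Op N) =
      (W.m K b - W.m K a) • W.compo46 (W.m W.H0 b - W.m W.H0 a) Z := by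
  refine W.grading.ext (fun i j => ?_)
  set X := W.compo46 (W.m W.H0 b - W.m W.H0 a) Z with hX
  have e1 : W.P i * ((K : Op N) * X - X * (K : Op N)) * W.P j =
      (W.P i * (K : Op N)) * X * W.P j - W.P i * X * ((K : Op N) * W.P j) := by
    simp only [mul_sub, sub_mul, mul_assoc]
  rw [e1, W.P_mul_A46, W.A_mul_P46, op_smul_mul, op_smul_mul, op_mul_smul,
    op_mul_smul, op_smul_mul, hX, W.block_compo46]
  split_ifs with h
  · rw [← W.sep i j b a h K]
    exact (sub_smul (W.m K i) (W.m K j) (W.P i * Z * W.P j)).symm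
  · have hz : ∀ c : ℝ, c • (0 : Op N) = 0 := fun c => smul_zero (A := Op N) c
    rw [hz, hz, hz, sub_zero]

lemma WeightData.star_block46 (X : Op N) (a b : ι) :
    W.P a * star X * W.P b = star (W.P b * X * W.P a) := by
  rw [star_mul, star_mul, W.star_P, W.star_P, mul_assoc]

lemma WeightData.compo_ne46 {a b : ι} {Z : Op N} (h : W.P b * Z * W.P a ≠ 0) :
    W.compo46 (W.m W.H0 b - W.m W.H0 a) Z ≠ 0 := by
  intro h0
  apply h
  have := W.block_compo46 (W.m W.H0 b - W.m W.H0 a) Z b a
  rw [if_pos rfl, h0, mul_zero, zero_mul] at this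
  exact this.symm

end

end Pool.Agent.Lib.MP_d9b062_al
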