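import Mathlib

/-!
# Steering lemma (task STEER of MP_d9b062_al)
-/

namespace Pool.Agent.Lib.MP_d9b062_al

namespace Steer

open Filter
open scoped Topology

set_option linter.unusedSectionVars false

variable {F : Type*} [NormedAddCommGroup F] [InnerProductSpace ℝ F] [FiniteDimensional ℝ F]

lemma pow_isom (g : F ≃ₗᵢ[ℝ] F) (n : ℕ) (v : F) : (g ^ n) v = (g : F → F)^[n] v := by
  induction n generalizing v with
  | zero => simp
  | succ n ih =>
    rw [pow_succ, LinearIsometryEquiv.coe_mul, Function.comp_apply, ih, Function.iterate_succ,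
      Function.comp_apply]

/-- recurrence of isometries -/
lemma recur (g : F ≃ₗᵢ[ℝ] F) {ε : ℝ} (hε : 0 < ε) (N : ℕ) :
    ∃ n ≥ N, ∀ v, ‖(g ^ n) v - v‖ ≤ ε * ‖v‖ := by
  classical
  let G : ℕ → (F →L[ℝ] F) := fun n => ((g ^ n : F ≃ₗᵢ[ℝ] F) : F ≃L[ℝ] F)
  have hG : ∀ n v, G n v = (g ^ n) v := fun n v => rfl
  have hb : ∀ n, G n ∈ Metric.closedBall (0 : F →L[ℝ] F) 1 := by
    intro n
    rw [mem_closedBall_zero_iff]
    refine ContinuousLinearMap.opNorm_le_bound _ zero_le_one (fun v => ?_)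
    rw [hG, LinearIsometryEquiv.norm_map, one_mul]
  obtain ⟨a, -, φ, hφ, ha⟩ := tendsto_subseq_of_bounded Metric.isBounded_closedBall hb
  have hc := ha.cauchySeq
  rw [Metric.cauchySeq_iff] at hc
  obtain ⟨K, hK⟩ := hc ε hε
  have h1 : K + N ≤ φ (K + N) := hφ.id_le _
  have h2 : φ K + N ≤ φ (K + N) := by
    have := hφ.add_le_nat N K
    rw [add_comm N K] at this
    omega
  refine ⟨φ (K + N) - φ K, by omega, fun v => ?_⟩
  have h3 := (hK (K + N) (by omega) K le_rfl).le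
  rw [dist_eq_norm] at h3
  have h4 : ‖(G (φ (K + N)) - G (φ K)) v‖ ≤ ε * ‖v‖ :=
    (ContinuousLinearMap.le_opNorm _ _).trans (mul_le_mul_of_nonneg_right h3 (norm_nonneg _))
  have h5 : (G (φ (K + N)) - G (φ K)) v = (g ^ φ K) ((g ^ (φ (K + N) - φ K)) v - v) := by
    rw [sub_apply, hG, hG, map_sub]
    congr 1
    rw [← Function.comp_apply (f := (g ^ φ K : F ≃ₗᵢ[ℝ] F)), ← LinearIsometryEquiv.coe_mul,
      ← pow_add]
    congr 3
    omega
  rw [h5, LinearIsometryEquiv.norm_map] at h4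
  exact h4

/-- the set of limit directions of an unbounded map -/
def Dir {𝒲 : Type*} (β : 𝒲 → F) : Set F :=
  {d | ‖d‖ = 1 ∧ ∀ ε : ℝ, 0 < ε → ∀ R : ℝ, ∃ w, ∃ r : ℝ, R ≤ r ∧ 0 < r ∧ ‖β w - r • d‖ ≤ ε * r}

section

variable {𝒲 : Type*} {β : 𝒲 → F}

lemma Dir.of_approx {d : F} (h : ∀ ε : ℝ, 0 < ε → ∃ d' ∈ Dir β, ‖d' - d‖ ≤ ε) : d ∈ Dir β := by
  refine ⟨?_, fun ε hε R => ?_⟩
  · refine le_antisymm ?_ ?_
    · refine le_of_forall_pos_le_add (fun ε hε => ?_)
      obtain ⟨d', hd', hdd⟩ := h ε hε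
      have := norm_sub_norm_le d d'
      rw [norm_sub_rev] at this
      linarith [hd'.1]
    · refine le_of_forall_pos_le_add (fun ε hε => ?_)
      obtain ⟨d', hd', hdd⟩ := h ε hε
      have := norm_sub_norm_le d' d
      linarith [hd'.1]
  · obtain ⟨d', hd', hdd⟩ := h (ε / 2) (by positivity)
    obtain ⟨w, r, hr, hr0, hw⟩ := hd'.2 (ε / 2) (by positivity) R
    refine ⟨w, r, hr, hr0, ?_⟩
    have e : β w - r • d = (β w - r • d') + r • (d' - d) := by
      rw [smul_sub]; abel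
    rw [e]
    refine (norm_add_le _ _).trans ?_
    rw [norm_smul, Real.norm_eq_abs, abs_of_pos hr0]
    nlinarith [mul_le_mul_of_nonneg_left hdd hr0.le]

/-- a direction invariance criterion -/
lemma Dir.map (g : F ≃ₗᵢ[ℝ] F)
    (h : ∀ ε : ℝ, 0 < ε → ∃ K : ℝ, ∀ w, ∃ w', ‖β w' - g (β w)‖ ≤ ε * ‖β w‖ + K)
    {d : F} (hd : d ∈ Dir β) : g d ∈ Dir β := by
  refine ⟨by rw [LinearIsometryEquiv.norm_map]; exact hd.1, fun ε hε R => ?_⟩
  set ε' := min ε 1 with hε'
  have hε'0 : 0 < ε' := lt_min hε one_pos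
  have hε'1 : ε' ≤ 1 := min_le_right _ _
  have hε'2 : ε' ≤ ε := min_le_left _ _
  obtain ⟨K, hK⟩ := h (ε' / 4) (by positivity)
  obtain ⟨w, r, hr, hr0, hw⟩ := hd.2 (ε' / 4) (by positivity) (max R (4 * K / ε'))
  obtain ⟨w', hw'⟩ := hK w
  refine ⟨w', r, (le_max_left _ _).trans hr, hr0, ?_⟩
  have hKr : 4 * K / ε' ≤ r := (le_max_right _ _).trans hr
  rw [div_le_iff₀ hε'0] at hKr
  have e : β w' - r • g d = (β w' - g (β w)) + g (β w - r • d) := by
    rw [map_sub, map_smul]; abel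
  have hn : ‖β w‖ ≤ 2 * r := by
    have h1 : ‖β w‖ ≤ ‖β w - r • d‖ + ‖r • d‖ := by
      have := norm_add_le (β w - r • d) (r • d)
      simpa using this
    rw [norm_smul, hd.1, Real.norm_eq_abs, abs_of_pos hr0, mul_one] at h1
    nlinarith
  rw [e]
  calc ‖(β w' - g (β w)) + g (β w - r • d)‖
      ≤ ‖β w' - g (β w)‖ + ‖g (β w - r • d)‖ := norm_add_le _ _
    _ ≤ (ε' / 4 * ‖β w‖ + K) + ε' / 4 * r := by
        rw [LinearIsometryEquiv.norm_map]; exact add_le_add hw' hw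
    _ ≤ ε * r := by
        have : ε' / 4 * ‖β w‖ ≤ ε' / 4 * (2 * r) := mul_le_mul_of_nonneg_left hn (by positivity)
        nlinarith

lemma Dir.symm_mem {g : F ≃ₗᵢ[ℝ] F} (h : ∀ d ∈ Dir β, g d ∈ Dir β) {d : F} (hd : d ∈ Dir β) :
    g.symm d ∈ Dir β := by
  have hpow : ∀ n : ℕ, (g ^ n) d ∈ Dir β := by
    intro n
    induction n with
    | zero => simpa using hd
    | succ n ih =>
      rw [pow_succ', LinearIsometryEquiv.coe_mul, Function.comp_apply]
      exact h _ ih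
  refine Dir.of_approx (fun ε hε => ?_)
  obtain ⟨n, hn, hv⟩ := recur g hε 1
  refine ⟨(g ^ (n - 1)) d, hpow _, ?_⟩
  have h1 : g ((g ^ (n - 1)) d - g.symm d) = (g ^ n) d - d := by
    rw [map_sub, LinearIsometryEquiv.apply_symm_apply]
    congr 1
    conv_rhs => rw [show n = (n - 1) + 1 by omega, pow_succ', LinearIsometryEquiv.coe_mul,
      Function.comp_apply]
  have h2 := hv d
  rw [← h1, LinearIsometryEquiv.norm_map, hd.1, mul_one] at h2
  exact h2

/-- limit directions along a sequence -/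
lemma Dir.exists_of_seq (w : ℕ → 𝒲) (hw : ∀ k : ℕ, (k : ℝ) ≤ ‖β (w k)‖) (e : F) (δ : ℝ)
    (he : ∀ k : ℕ, 1 ≤ k → δ * ‖β (w k)‖ ≤ inner ℝ (β (w k)) e) :
    ∃ d ∈ Dir β, δ ≤ inner ℝ d e := by
  let u : ℕ → F := fun k => ‖β (w (k + 1))‖⁻¹ • β (w (k + 1))
  have hpos : ∀ k : ℕ, 0 < ‖β (w (k + 1))‖ := fun k =>
    lt_of_lt_of_le (by positivity) (hw (k + 1))
  have hu : ∀ k, ‖u k‖ = 1 := by
    intro k
    show ‖‖β (w (k + 1))‖⁻¹ • β (w (k + 1))‖ = 1
    rw [norm_smul, norm_inv, norm_norm, inv_mul_cancel₀ (hpos k).ne']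
  obtain ⟨d, -, φ, hφ, hd⟩ := tendsto_subseq_of_bounded
    (Metric.isBounded_closedBall (x := (0 : F)) (r := 1)) (x := u)
    (fun k => by rw [mem_closedBall_zero_iff]; exact (hu k).le)
  have hd1 : ‖d‖ = 1 := by
    have h1 : Tendsto (fun k => ‖(u ∘ φ) k‖) atTop (𝓝 ‖d‖) := hd.norm
    have h2 : (fun k => ‖(u ∘ φ) k‖) = fun _ => (1 : ℝ) := by
      ext k; exact hu _
    rw [h2] at h1
    exact (tendsto_nhds_unique tendsto_const_nhds h1).symm
  refine ⟨d, ⟨hd1, fun ε hε R => ?_⟩, ?_⟩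
  · rw [Metric.tendsto_atTop] at hd
    obtain ⟨N, hN⟩ := hd ε hε
    obtain ⟨M, hM⟩ := exists_nat_ge R
    let k := φ (N + M)
    have hk : M ≤ k := by
      have := hφ.id_le (N + M)
      simp only [id] at this
      omega
    refine ⟨w (k + 1), ‖β (w (k + 1))‖, ?_, hpos k, ?_⟩
    · have h1 : (M : ℝ) ≤ ((k + 1 : ℕ) : ℝ) := by exact_mod_cast (by omega : M ≤ k + 1)
      exact hM.trans (h1.trans (hw _))
    · have h1 := (hN (N + M) (by omega)).le
      rw [dist_eq_norm] at h1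
      have h2 : β (w (k + 1)) = ‖β (w (k + 1))‖ • u k := by
        show _ = ‖β (w (k + 1))‖ • (‖β (w (k + 1))‖⁻¹ • β (w (k + 1)))
        rw [smul_smul, mul_inv_cancel₀ (hpos k).ne', one_smul]
      conv_lhs => rw [h2, ← h2]
      have h3 : β (w (k + 1)) - ‖β (w (k + 1))‖ • d = ‖β (w (k + 1))‖ • (u k - d) := by
        rw [smul_sub, ← h2]
      rw [h3, norm_smul, norm_norm, mul_comm]
      exact mul_le_mul_of_nonneg_right h1 (hpos k).le
  · have h1 : Tendsto (fun k => inner ℝ ((u ∘ φ) k) e) atTop (𝓝 (inner ℝ d e)) :=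
      hd.inner tendsto_const_nhds
    refine ge_of_tendsto' h1 (fun k => ?_)
    have h2 := he (φ k + 1) (by omega)
    show δ ≤ inner ℝ (‖β (w (φ k + 1))‖⁻¹ • β (w (φ k + 1))) e
    rw [real_inner_smul_left, ← div_eq_inv_mul, le_div_iff₀ (hpos _)]
    exact h2

end

/-- cone lemma -/
lemma cone_lemma (B : Set F) (hBc : IsClosed B) (hBconv : Convex ℝ B)
    (hfix : ∀ z ∈ B, (∀ g : F ≃ₗᵢ[ℝ] F, (∀ y, g y ∈ B ↔ y ∈ B) → g z = z) → z = 0)
    {d e : F} (hd : ∀ y ∈ B, inner ℝ d y ≤ (0 : ℝ)) (hd1 : ‖d‖ = 1) (he : e ∈ B) :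
    inner ℝ d e = (0 : ℝ) := by
  classical
  by_contra hne
  have hlt : inner ℝ d e < (0 : ℝ) := lt_of_le_of_ne (hd e he) hne
  set δ : ℝ := -inner ℝ d e with hδ
  have hδ0 : 0 < δ := by rw [hδ]; linarith
  let S : Set (F ≃ₗᵢ[ℝ] F) := {g | ∀ y, g y ∈ B ↔ y ∈ B}
  have hSsymm : ∀ g ∈ S, ∀ y, g.symm y ∈ B ↔ y ∈ B := by
    intro g hg y
    have := hg (g.symm y)
    rw [LinearIsometryEquiv.apply_symm_apply] at this
    exact this.symm
  let O : Set F := {x | ∃ g ∈ S, x = g e}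
  have hOB : O ⊆ B := by
    rintro x ⟨g, hg, rfl⟩
    exact (hg e).2 he
  have heO : e ∈ O := ⟨LinearIsometryEquiv.refl ℝ F, fun y => Iff.rfl, rfl⟩
  have hObd : Bornology.IsBounded O := by
    refine (Metric.isBounded_closedBall (x := (0 : F)) (r := ‖e‖)).subset ?_
    rintro x ⟨g, hg, rfl⟩
    rw [mem_closedBall_zero_iff, LinearIsometryEquiv.norm_map]
  have hOtb : TotallyBounded O := (hObd.isCompact_closure.totallyBounded).subset subset_closure
  obtain ⟨k, hkO, hkf, hkc⟩ := hOtb.exists_subset (Metric.dist_mem_uniformity (half_pos hδ0))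
  have hkO' : ∀ y ∈ k, ∃ g : F ≃ₗᵢ[ℝ] F, g ∈ S ∧ y = g e := fun y hy => by
    obtain ⟨g, hg, rfl⟩ := hkO hy
    exact ⟨g, hg, rfl⟩
  choose! γ hγS hγ using hkO'
  set d' : F := ∑ y ∈ hkf.toFinset, γ y d with hd'
  have hd'O : ∀ x ∈ O, inner ℝ d' x ≤ -(δ / 2) := by
    rintro x ⟨g, hg, rfl⟩
    have hxO : g e ∈ O := ⟨g, hg, rfl⟩
    have h1 := hkc hxO
    simp only [Set.mem_iUnion, Set.mem_ofPred_eq, exists_prop] at h1
    obtain ⟨y, hyk, hy⟩ := h1
    have hterm : ∀ y ∈ hkf.toFinset, inner ℝ (γ y d) (g e) ≤ (0 : ℝ) := by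
      intro y hy
      have hyk : y ∈ k := hkf.mem_toFinset.1 hy
      have h2 : inner ℝ (γ y d) (g e) = inner ℝ d ((γ y).symm (g e)) := by
        rw [← LinearIsometryEquiv.inner_map_map (γ y) d, LinearIsometryEquiv.apply_symm_apply]
      rw [h2]
      exact hd _ ((hSsymm _ (hγS y hyk) _).2 ((hg e).2 he))
    have hy' : inner ℝ (γ y d) (g e) ≤ -(δ / 2) := by
      have h2 : inner ℝ (γ y d) (g e) = inner ℝ (γ y d) (γ y e) + inner ℝ (γ y d) (g e - γ y e) := by
        rw [← inner_add_right]; congr 1; abel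
      have h3 : inner ℝ (γ y d) (g e - γ y e) ≤ δ / 2 := by
        refine (real_inner_le_norm _ _).trans ?_
        rw [LinearIsometryEquiv.norm_map, hd1, one_mul, ← hγ y hyk, ← dist_eq_norm]
        exact hy.le
      rw [h2, LinearIsometryEquiv.inner_map_map]
      linarith
    rw [hd', sum_inner, ← Finset.add_sum_erase _ _ (hkf.mem_toFinset.2 hyk)]
    have h4 : ∑ x ∈ hkf.toFinset.erase y, inner ℝ (γ x d) (g e) ≤ (0 : ℝ) :=
      Finset.sum_nonpos (fun x hx => hterm x (Finset.mem_of_mem_erase hx))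
    linarith
  let K : Set F := closure (convexHull ℝ O)
  have hKconv : Convex ℝ K := (convex_convexHull ℝ O).closure
  have hKB : K ⊆ B := closure_minimal (convexHull_min hOB hBconv) hBc
  have hKd : ∀ z ∈ K, inner ℝ d' z ≤ -(δ / 2) := by
    have h1 : K ⊆ {z | inner ℝ d' z ≤ -(δ / 2)} := by
      refine closure_minimal (convexHull_min hd'O ?_) ?_
      · intro x hx y hy a b ha hb hab
        simp only [Set.mem_ofPred_eq] at hx hy ⊢
        rw [inner_add_right, real_inner_smul_right, real_inner_smul_right]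
        have e1 : b = 1 - a := by linarith
        subst e1
        nlinarith [mul_le_mul_of_nonneg_left hx ha, mul_le_mul_of_nonneg_left hy hb]
      · exact isClosed_le (continuous_const.inner continuous_id) continuous_const
    exact fun z hz => h1 hz
  have hKne : K.Nonempty := ⟨e, subset_closure (subset_convexHull ℝ O heO)⟩
  obtain ⟨z, hzK, hz⟩ := exists_norm_eq_iInf_of_complete_convex hKne
    (isClosed_closure.isComplete) hKconv 0
  rw [norm_eq_iInf_iff_real_inner_le_zero hKconv hzK] at hz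
  have hz0 : z = 0 := by
    refine hfix z (hKB hzK) (fun g hg => ?_)
    have hgK : g z ∈ K := by
      have h1 : K ⊆ g ⁻¹' K := by
        refine closure_minimal (convexHull_min ?_ ?_) (isClosed_closure.preimage g.continuous)
        · rintro x ⟨g', hg', rfl⟩
          refine subset_closure (subset_convexHull ℝ O ⟨g * g', ?_, rfl⟩)
          intro y
          rw [LinearIsometryEquiv.coe_mul, Function.comp_apply, hg, hg']
        · intro x hx y hy a b ha hb hab
          simp only [Set.mem_preimage, map_add, map_smul] at hx hy ⊢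
          exact hKconv hx hy ha hb hab
      exact h1 hzK
    have h2 := hz _ hgK
    rw [zero_sub, inner_neg_left, inner_sub_right, real_inner_self_eq_norm_sq] at h2
    have h3 : ‖g z - z‖ ^ 2 ≤ 0 := by
      rw [@norm_sub_sq_real, LinearIsometryEquiv.norm_map, real_inner_comm]
      linarith
    have h4 : ‖g z - z‖ = 0 := by
      have := sq_nonneg ‖g z - z‖
      exact pow_eq_zero_iff (two_ne_zero) |>.1 (le_antisymm h3 this)
    exact sub_eq_zero.1 (norm_eq_zero.1 h4)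
  have h5 := hKd z hzK
  rw [hz0, inner_zero_right] at h5
  linarith

end Steer

end Pool.Agent.Lib.MP_d9b062_al
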