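import Pool.Agent.Lib.MP_d9b062_al_h46.Prod
import Pool.Agent.Lib.MP_d9b062_al_h46.SteerMain

/-!
# Words
-/

namespace Pool.Agent.Lib.MP_d9b062_al

open Filter
open scoped Topology

namespace Aff

variable {E : Type*} [NormedAddCommGroup E] [NormedSpace ℝ E]

lemma act_mul46 (x y : Aff E) (v : E) : (x * y).act v = x.act (y.act v) := by
  rw [act, act, act, mul_lin, mul_tr, map_add]
  change (x.lin : E →L[ℝ] E) ((y.lin : E →L[ℝ] E) v) + _ = _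
  abel

lemma act_one46 (v : E) : (1 : Aff E).act v = v := by
  rw [act, one_lin, one_tr, add_zero]; rfl

lemma act_inv_act46 (x : Aff E) (v : E) : x.act (x⁻¹.act v) = v := by
  rw [← act_mul46, mul_inv_cancel, act_one46]

end Aff

namespace Cell

variable {N : ℕ} {G : Subgroup (Op N)ˣ} {ι : Type} [Fintype ι] [LinearOrder ι] (c : Cell G ι)

lemma inner_L46 {l : (Op N)ˣ} (hl : l ∈ c.L) {e : V N} (he : e ∈ c.EL) (v : V N) :
    inner ℝ ((l : Op N) v) e = inner ℝ v e := by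
  have h1 : ((star l : (Op N)ˣ) : Op N) e = e := he _ (c.star_L hl)
  have h2 : ((star l : (Op N)ˣ) : Op N) = ContinuousLinearMap.adjoint (l : Op N) := rfl
  rw [h2] at h1
  rw [← ContinuousLinearMap.adjoint_inner_right, h1]

lemma inner_mul_tr46 {D D' : Aff (V N)} (hD : D ∈ c.Mo46) {e : V N} (he : e ∈ c.EL) :
    inner ℝ (D * D').tr e = inner ℝ D.tr e + inner ℝ D'.tr e := by
  rw [Aff.mul_tr, inner_add_left, c.inner_L46 hD.1 he]

/-- the fixed data in the construction of words -/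
structure FCtx46 (Γ : Subgroup (Aff (V N))) where
  X : ι → ℝ
  hX : c.Sgn46 X
  F : Aff (V N)
  hF : F.lin ∈ G
  δ : Aff (V N)
  hδ : δ ∈ c.Mo46
  hl : (δ.lin : Op N) δ.tr = δ.tr
  hm : F * δ * F⁻¹ ∈ Γ
  C : ℝ
  hC : 0 < C
  a : ℝ
  ha : 0 < a
  hk : ∀ n : ℕ, c.kk46 X (δ ^ n) ≤ C * Real.exp (-a * n)

variable {c} {Γ : Subgroup (Aff (V N))}

/-- words: elements of `Γ` with a good affine LU decomposition -/
structure Word46 (S : c.FCtx46 Γ) where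
  Y : Aff (V N)
  D : Aff (V N)
  Z : Aff (V N)
  Y_mem : Y ∈ c.Um46 S.hX
  D_mem : D ∈ c.Mo46
  Z_mem : Z ∈ c.Up46 S.hX
  mem : S.F * (Y * D * Z) * S.F⁻¹ ∈ Γ
  hY : Y.nrm46 + c.kk46 S.X D ≤ 1 / 4
  hZ : Z.nrm46 + c.kk46 S.X D ≤ 1 / 4

namespace FCtx46

variable (S : c.FCtx46 Γ)

lemma pow_lin (n : ℕ) : (S.δ ^ n).lin = S.δ.lin ^ n := by
  have := Aff.pow_eq46 S.δ.lin S.hl n
  have h : (⟨S.δ.lin, S.δ.tr⟩ : Aff (V N)) = S.δ := rfl
  rw [h] at this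
  rw [this]

lemma pow_tr (n : ℕ) : (S.δ ^ n).tr = (n : ℝ) • S.δ.tr := by
  have := Aff.pow_eq46 S.δ.lin S.hl n
  have h : (⟨S.δ.lin, S.δ.tr⟩ : Aff (V N)) = S.δ := rfl
  rw [h] at this
  rw [this]

lemma conj_pow_mem (n : ℕ) : S.F * S.δ ^ n * S.F⁻¹ ∈ Γ := by
  have h : S.F * S.δ ^ n * S.F⁻¹ = (S.F * S.δ * S.F⁻¹) ^ n := (conj_pow).symm
  rw [h]
  exact Γ.pow_mem S.hm n

lemma exp_le_one (n : ℕ) : Real.exp (-S.a * n) ≤ 1 := by
  apply Real.exp_le_one_iff.2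
  have : 0 ≤ S.a * n := mul_nonneg S.ha.le (Nat.cast_nonneg n)
  linarith

lemma kk_pow_le (n : ℕ) : c.kk46 S.X (S.δ ^ n) ≤ S.C := by
  have h1 := S.hk n
  have h2 := S.exp_le_one n
  have := S.hC
  nlinarith

end FCtx46

namespace Word46

variable {S : c.FCtx46 Γ} (w : Word46 S)

lemma kk_le : c.kk46 S.X w.D ≤ 1 / 4 := by
  have := w.hY
  have := Aff.nrm_nonneg46 w.Y
  linarith

lemma nY_le : w.Y.nrm46 ≤ 1 / 4 := by
  have := w.hY
  have := c.kk_pos46 S.X w.D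
  linarith

lemma nZ_le : w.Z.nrm46 ≤ 1 / 4 := by
  have := w.hZ
  have := c.kk_pos46 S.X w.D
  linarith

/-- the size of a word -/
noncomputable def size : ℝ := -Real.log (c.kA46 S.X (w.D.lin : Op N))

lemma one_le_size : 1 ≤ w.size := by
  have h1 : c.kA46 S.X (w.D.lin : Op N) ≤ 1 / 4 := (c.kA_le_kk46 _ _).trans w.kk_le
  have h2 := c.kA_pos46 S.X (w.D.lin : Op N)
  have h3 : Real.log (c.kA46 S.X (w.D.lin : Op N)) ≤ -1 := by
    rw [Real.log_le_iff_le_exp h2]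
    have h4 : Real.exp (-1) = (Real.exp 1)⁻¹ := Real.exp_neg 1
    rw [h4]
    have h5 := Real.exp_one_lt_d9
    have h6 := Real.exp_pos 1
    have h7 : (1 / 4 : ℝ) ≤ (Real.exp 1)⁻¹ := by
      rw [one_div]
      exact inv_anti₀ h6 (by linarith)
    linarith
  rw [size]; linarith

end Word46

/-- sandwiching by powers of `δ` gives words -/
lemma exists_word46 (S : c.FCtx46 Γ) {M : ℝ} (hM : 0 ≤ M) :
    ∃ n₀ : ℕ, ∀ n ≥ n₀, ∀ Y ∈ c.Um46 S.hX, ∀ D ∈ c.Mo46, ∀ Z ∈ c.Up46 S.hX,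
      S.F * (Y * D * Z) * S.F⁻¹ ∈ Γ → Y.nrm46 ≤ M → c.kk46 S.X D ≤ M → Z.nrm46 ≤ M →
      ∃ w : Word46 S, w.D = S.δ ^ n * D * S.δ ^ n := by
  obtain ⟨n₀, hn₀⟩ := exists_exp_small46 (S.C * M + S.C * M * S.C) (a := S.a) (ε := 1 / 4)
    S.ha (by norm_num)
  refine ⟨n₀, fun n hn Y hY D hD Z hZ hm nY nD nZ => ?_⟩
  have hδn : S.δ ^ n ∈ c.Mo46 := c.Mo46.pow_mem S.hδ n
  obtain ⟨hY', nY'⟩ := c.conj_Um46 S.hX hδn hY
  obtain ⟨hZ', nZ'⟩ := c.conj_Up46 S.hX hδn hZ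
  have hE : 0 < Real.exp (-S.a * n) := Real.exp_pos _
  have hC := S.hC
  have hb := hn₀ n hn
  have k1 := S.hk n
  have k2 := S.kk_pow_le n
  have k3 := c.kk_pos46 S.X (S.δ ^ n)
  have k4 : c.kk46 S.X (S.δ ^ n * D * S.δ ^ n) ≤ S.C * Real.exp (-S.a * n) * M * S.C := by
    calc c.kk46 S.X (S.δ ^ n * D * S.δ ^ n)
        ≤ c.kk46 S.X (S.δ ^ n * D) * c.kk46 S.X (S.δ ^ n) :=
          c.kk_mul46 (c.Mo46.mul_mem hδn hD) hδn
      _ ≤ (c.kk46 S.X (S.δ ^ n) * c.kk46 S.X D) * c.kk46 S.X (S.δ ^ n) :=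
          mul_le_mul_of_nonneg_right (c.kk_mul46 hδn hD) k3.le
      _ ≤ (S.C * Real.exp (-S.a * n) * M) * S.C := by
          apply mul_le_mul _ k2 k3.le (by positivity)
          exact mul_le_mul k1 nD (c.kk_pos46 _ _).le (by positivity)
  have k5 : c.kk46 S.X (S.δ ^ n) * Y.nrm46 ≤ S.C * Real.exp (-S.a * n) * M :=
    mul_le_mul k1 nY (Aff.nrm_nonneg46 _) (by positivity)
  have k6 : c.kk46 S.X (S.δ ^ n) * Z.nrm46 ≤ S.C * Real.exp (-S.a * n) * M :=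
    mul_le_mul k1 nZ (Aff.nrm_nonneg46 _) (by positivity)
  refine ⟨{ Y := S.δ ^ n * Y * (S.δ ^ n)⁻¹
            D := S.δ ^ n * D * S.δ ^ n
            Z := (S.δ ^ n)⁻¹ * Z * S.δ ^ n
            Y_mem := hY'
            D_mem := c.Mo46.mul_mem (c.Mo46.mul_mem hδn hD) hδn
            Z_mem := hZ'
            mem := ?_
            hY := ?_
            hZ := ?_ }, rfl⟩
  · have h1 := Γ.mul_mem (Γ.mul_mem (S.conj_pow_mem n) hm) (S.conj_pow_mem n)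
    convert h1 using 1
    group
  · nlinarith
  · nlinarith

/-- closure of the set of words under `(p, n, w) ↦ p δⁿ w` -/
lemma exists_mul46 (S : c.FCtx46 Γ) : ∃ (K : ℝ) (n₀ : ℕ), ∀ p w : Word46 S, ∀ n ≥ n₀,
    ∃ w' : Word46 S,
      ‖w'.D.tr - (p.D.tr + (p.D.lin : Op N) ((n : ℝ) • S.δ.tr +
        ((S.δ.lin ^ n : (Op N)ˣ) : Op N) w.D.tr))‖ ≤
          K * Real.exp (-S.a * n) * (1 + n + ‖w.D.tr‖) ∧
      (∀ e ∈ c.EL, |inner ℝ w'.D.tr e -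
        (inner ℝ p.D.tr e + n * inner ℝ S.δ.tr e + inner ℝ w.D.tr e)| ≤ K * ‖e‖) ∧
      p.size + w.size ≤ w'.size := by
  obtain ⟨C', hC', n₁, hprod⟩ := c.exists_product46 S.hX S.hδ S.hC S.ha S.hk (R := 2) (by norm_num)
  obtain ⟨n₂, hn₂⟩ := exists_exp_small46 (S.C * (4 + C') + 2 * C' + S.C * C') (a := S.a) (ε := 1)
    S.ha one_pos
  refine ⟨C', max n₁ n₂, fun p w n hn => ?_⟩
  have hE : 0 < Real.exp (-S.a * n) := Real.exp_pos _
  have hE1 := S.exp_le_one n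
  have hC := S.hC
  have hb := hn₂ n ((le_max_right _ _).trans hn)
  have hδn : S.δ ^ n ∈ c.Mo46 := c.Mo46.pow_mem S.hδ n
  obtain ⟨Y1, hY1, D1, hD1, Z1, hZ1, heq, nY1, nD1, nZ1, kD1⟩ :=
    hprod n ((le_max_left _ _).trans hn) p.Y p.Y_mem p.D p.D_mem p.Z p.Z_mem
      w.Y w.Y_mem w.D w.D_mem w.Z w.Z_mem (p.nZ_le.trans (by norm_num))
      (w.nY_le.trans (by norm_num))
      (norm_inv_le_two46 _ ((Aff.norm_lin_sub_le46 w.Y).trans (w.nY_le.trans (by norm_num))))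
  set u : ℝ := Real.exp (-S.a * n) with hu
  have hCC : 0 < S.C * C' := mul_pos hC hC'
  have b1 : S.C * u * (4 + C') ≤ 1 := by nlinarith [mul_pos hC' hE, mul_pos hCC hE]
  have b2 : 2 * (C' * u) + S.C * u * C' ≤ 1 := by nlinarith [mul_pos hC hE, mul_pos hCC hE]
  have b3 : C' * u ≤ 1 := by nlinarith [mul_pos hC hE, mul_pos hCC hE, mul_pos hC' hE]
  have b4 : S.C * u * C' ≤ 1 := by nlinarith [mul_pos hC hE, mul_pos hCC hE, mul_pos hC' hE]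
  have nY1' : Y1.nrm46 ≤ 1 := nY1.trans b3
  have pD := c.kk_pos46 S.X p.D
  have wD := c.kk_pos46 S.X w.D
  have k1 := S.hk n
  have k3 := c.kk_pos46 S.X (S.δ ^ n)
  have pDδ := c.Mo46.mul_mem p.D_mem hδn
  have kD1' : c.kk46 S.X D1 ≤ 2 * C' := by
    rw [kk46]
    have : ‖D1.tr‖ ≤ 1 := (Aff.norm_tr_le46 D1).trans (nD1.trans b3)
    have h2 := c.kA_pos46 S.X (D1.lin : Op N)
    nlinarith [norm_nonneg D1.tr]
  have kD1p := c.kk_pos46 S.X D1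
  have kpδ : c.kk46 S.X (p.D * S.δ ^ n) ≤ c.kk46 S.X p.D * (S.C * u) :=
    (c.kk_mul46 p.D_mem hδn).trans (mul_le_mul_of_nonneg_left k1 pD.le)
  have kD' : c.kk46 S.X (p.D * S.δ ^ n * D1 * w.D) ≤
      c.kk46 S.X p.D * (S.C * u) * (2 * C') * c.kk46 S.X w.D := by
    calc c.kk46 S.X (p.D * S.δ ^ n * D1 * w.D)
        ≤ c.kk46 S.X (p.D * S.δ ^ n * D1) * c.kk46 S.X w.D :=
          c.kk_mul46 (c.Mo46.mul_mem pDδ hD1) w.D_mem
      _ ≤ (c.kk46 S.X (p.D * S.δ ^ n) * c.kk46 S.X D1) * c.kk46 S.X w.D :=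
          mul_le_mul_of_nonneg_right (c.kk_mul46 pDδ hD1) wD.le
      _ ≤ (c.kk46 S.X p.D * (S.C * u) * (2 * C')) * c.kk46 S.X w.D := by
          apply mul_le_mul_of_nonneg_right _ wD.le
          exact mul_le_mul kpδ kD1' kD1p.le (by positivity)
  -- the unipotent parts
  obtain ⟨hYc, nYc⟩ := c.conj_Um46 S.hX pDδ ((c.Um46 S.hX).mul_mem w.Y_mem hY1)
  obtain ⟨hZc, nZc⟩ := c.conj_Up46 S.hX w.D_mem hZ1
  have a1 : (w.Y * Y1).nrm46 ≤ 3 / 2 := by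
    have h1 := Aff.nrm_mul_le46 w.Y Y1
    have h2 := w.nY_le
    have h3 := Aff.nrm_nonneg46 w.Y
    have h4 := Aff.nrm_nonneg46 Y1
    nlinarith
  have a2 : (p.D * S.δ ^ n * (w.Y * Y1) * (p.D * S.δ ^ n)⁻¹).nrm46 ≤
      c.kk46 S.X p.D * (S.C * u) * (3 / 2) :=
    nYc.trans (mul_le_mul kpδ a1 (Aff.nrm_nonneg46 _) (by positivity))
  have a3 : (p.Y * (p.D * S.δ ^ n * (w.Y * Y1) * (p.D * S.δ ^ n)⁻¹)).nrm46 ≤
      p.Y.nrm46 + 2 * (c.kk46 S.X p.D * (S.C * u) * (3 / 2)) := by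
    refine (Aff.nrm_mul_le46 _ _).trans (add_le_add le_rfl ?_)
    exact mul_le_mul (by have := p.nY_le; linarith) a2 (Aff.nrm_nonneg46 _) (by norm_num)
  have a4 : (w.D⁻¹ * Z1 * w.D).nrm46 ≤ c.kk46 S.X w.D * (C' * u) :=
    nZc.trans (mul_le_mul_of_nonneg_left nZ1 wD.le)
  have a5 : (w.D⁻¹ * Z1 * w.D * w.Z).nrm46 ≤ w.Z.nrm46 + c.kk46 S.X w.D * (C' * u) * 2 := by
    have h1 := Aff.nrm_mul_le46 (w.D⁻¹ * Z1 * w.D) w.Z
    have h2 := w.nZ_le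
    have h3 := Aff.nrm_nonneg46 w.Z
    have h4 := Aff.nrm_nonneg46 (w.D⁻¹ * Z1 * w.D)
    nlinarith
  have p4 := p.kk_le
  have w4 := w.kk_le
  have hYfin : (p.Y * (p.D * S.δ ^ n * (w.Y * Y1) * (p.D * S.δ ^ n)⁻¹)).nrm46 +
      c.kk46 S.X (p.D * S.δ ^ n * D1 * w.D) ≤ 1 / 4 := by
    have h1 : c.kk46 S.X p.D * (S.C * u) * (2 * C') * c.kk46 S.X w.D ≤
        c.kk46 S.X p.D * (S.C * u) * (2 * C') * (1 / 4) :=
      mul_le_mul_of_nonneg_left w4 (by positivity)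
    have h2 : c.kk46 S.X p.D * (S.C * u * (4 + C')) ≤ c.kk46 S.X p.D * 1 :=
      mul_le_mul_of_nonneg_left b1 pD.le
    have h3 := p.hY
    have h4 : 0 ≤ c.kk46 S.X p.D * (S.C * u) * C' := by positivity
    have h5 : 0 ≤ c.kk46 S.X p.D * (S.C * u) := by positivity
    nlinarith
  have hZfin : (w.D⁻¹ * Z1 * w.D * w.Z).nrm46 +
      c.kk46 S.X (p.D * S.δ ^ n * D1 * w.D) ≤ 1 / 4 := by
    have h1 : c.kk46 S.X p.D * ((S.C * u) * (2 * C') * c.kk46 S.X w.D) ≤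
        (1 / 4) * ((S.C * u) * (2 * C') * c.kk46 S.X w.D) :=
      mul_le_mul_of_nonneg_right p4 (by positivity)
    have h2 : c.kk46 S.X w.D * (2 * (C' * u) + S.C * u * C') ≤ c.kk46 S.X w.D * 1 :=
      mul_le_mul_of_nonneg_left b2 wD.le
    have h3 := w.hZ
    have h4 : 0 ≤ c.kk46 S.X w.D * (S.C * u * C') := by positivity
    nlinarith
  have hmem : S.F * ((p.Y * (p.D * S.δ ^ n * (w.Y * Y1) * (p.D * S.δ ^ n)⁻¹)) *
      (p.D * S.δ ^ n * D1 * w.D) * (w.D⁻¹ * Z1 * w.D * w.Z)) * S.F⁻¹ ∈ Γ := by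
    rw [← heq]
    have h1 := Γ.mul_mem (Γ.mul_mem p.mem (S.conj_pow_mem n)) w.mem
    convert h1 using 1
    group
  refine ⟨{ Y := p.Y * (p.D * S.δ ^ n * (w.Y * Y1) * (p.D * S.δ ^ n)⁻¹)
            D := p.D * S.δ ^ n * D1 * w.D
            Z := w.D⁻¹ * Z1 * w.D * w.Z
            Y_mem := (c.Um46 S.hX).mul_mem p.Y_mem hYc
            D_mem := c.Mo46.mul_mem (c.Mo46.mul_mem pDδ hD1) w.D_mem
            Z_mem := (c.Up46 S.hX).mul_mem hZc w.Z_mem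
            mem := hmem, hY := hYfin, hZ := hZfin }, ?_, ?_, ?_⟩
  · change ‖(p.D * S.δ ^ n * D1 * w.D).tr - _‖ ≤ _
    have e1 : (p.D * S.δ ^ n * D1 * w.D).tr = p.D.tr + (p.D.lin : Op N) ((n : ℝ) • S.δ.tr +
        ((S.δ.lin ^ n : (Op N)ˣ) : Op N) (D1.tr + (D1.lin : Op N) w.D.tr)) := by
      rw [Aff.mul_tr, Aff.mul_tr, Aff.mul_tr, Aff.mul_lin, Aff.mul_lin, Aff.mul_lin, S.pow_tr,
        S.pow_lin, map_add, map_add, map_add]
      change p.D.tr + (p.D.lin : Op N) ((n : ℝ) • S.δ.tr) +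
        (p.D.lin : Op N) (((S.δ.lin ^ n : (Op N)ˣ) : Op N) D1.tr) +
        (p.D.lin : Op N) (((S.δ.lin ^ n : (Op N)ˣ) : Op N) ((D1.lin : Op N) w.D.tr)) = _
      abel
    have e2 : (p.D * S.δ ^ n * D1 * w.D).tr - (p.D.tr + (p.D.lin : Op N) ((n : ℝ) • S.δ.tr +
        ((S.δ.lin ^ n : (Op N)ˣ) : Op N) w.D.tr)) =
        (p.D.lin : Op N) (((S.δ.lin ^ n : (Op N)ˣ) : Op N)
          (D1.tr + ((D1.lin : Op N) w.D.tr - w.D.tr))) := by
      rw [e1, add_sub_add_left_eq_sub, ← map_sub, add_sub_add_left_eq_sub, ← map_sub]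
      congr 2; abel
    rw [e2]
    have hLn : S.δ.lin ^ n ∈ c.L := c.L.pow_mem S.hδ.1 n
    have o1 : c.P c.o (D1.tr + ((D1.lin : Op N) w.D.tr - w.D.tr)) =
        D1.tr + ((D1.lin : Op N) w.D.tr - w.D.tr) := by
      rw [map_add, map_sub, hD1.2, c.L_comm46 hD1.1, w.D_mem.2]
    have o2 : c.P c.o (((S.δ.lin ^ n : (Op N)ˣ) : Op N)
        (D1.tr + ((D1.lin : Op N) w.D.tr - w.D.tr))) = ((S.δ.lin ^ n : (Op N)ˣ) : Op N)
        (D1.tr + ((D1.lin : Op N) w.D.tr - w.D.tr)) := by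
      rw [c.L_comm46 hLn, o1]
    rw [c.norm_o p.D_mem.1 o2, c.norm_o hLn o1]
    have e3 : (D1.lin : Op N) w.D.tr - w.D.tr = ((D1.lin : Op N) - 1) w.D.tr := rfl
    have hn : (0 : ℝ) ≤ n := Nat.cast_nonneg n
    calc ‖D1.tr + ((D1.lin : Op N) w.D.tr - w.D.tr)‖
        ≤ ‖D1.tr‖ + ‖(D1.lin : Op N) - 1‖ * ‖w.D.tr‖ := by
          rw [e3]
          exact (norm_add_le _ _).trans (add_le_add le_rfl (ContinuousLinearMap.le_opNorm _ _))
      _ ≤ D1.nrm46 + D1.nrm46 * ‖w.D.tr‖ :=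
          add_le_add (Aff.norm_tr_le46 D1)
            (mul_le_mul_of_nonneg_right (Aff.norm_lin_sub_le46 D1) (norm_nonneg _))
      _ = D1.nrm46 * (1 + ‖w.D.tr‖) := by ring
      _ ≤ C' * u * (1 + n + ‖w.D.tr‖) := by
          apply mul_le_mul nD1 _ (by positivity) (by positivity)
          linarith
  · intro e he
    change |inner ℝ (p.D * S.δ ^ n * D1 * w.D).tr e - _| ≤ _
    rw [c.inner_mul_tr46 (c.Mo46.mul_mem pDδ hD1) he, c.inner_mul_tr46 pDδ he,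
      c.inner_mul_tr46 p.D_mem he, S.pow_tr, inner_smul_left]
    have h1 : |inner ℝ D1.tr e| ≤ C' * ‖e‖ := by
      refine (abs_real_inner_le_norm _ _).trans (mul_le_mul_of_nonneg_right ?_ (norm_nonneg _))
      have : D1.nrm46 ≤ C' := nD1.trans (by nlinarith)
      exact (Aff.norm_tr_le46 D1).trans this
    convert h1 using 2
    simp only [conj_trivial]
    ring
  · rw [Word46.size, Word46.size, Word46.size]
    change -Real.log (c.kA46 S.X (p.D.lin : Op N)) + -Real.log (c.kA46 S.X (w.D.lin : Op N)) ≤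
      -Real.log (c.kA46 S.X (((p.D.lin * (S.δ ^ n).lin * D1.lin * w.D.lin : (Op N)ˣ) : Op N)))
    have q1 := c.kA_pos46 S.X (p.D.lin : Op N)
    have q2 := c.kA_pos46 S.X (w.D.lin : Op N)
    have q3 := c.kA_pos46 S.X (D1.lin : Op N)
    have q4 := c.kA_pos46 S.X ((S.δ ^ n).lin : Op N)
    have q5 : c.kA46 S.X ((S.δ ^ n).lin : Op N) ≤ S.C * u := (c.kA_le_kk46 _ _).trans k1
    have m1 : c.kA46 S.X (((p.D.lin * (S.δ ^ n).lin * D1.lin * w.D.lin : (Op N)ˣ) : Op N)) ≤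
        c.kA46 S.X (p.D.lin : Op N) * c.kA46 S.X (w.D.lin : Op N) := by
      calc c.kA46 S.X (((p.D.lin * (S.δ ^ n).lin * D1.lin * w.D.lin : (Op N)ˣ) : Op N))
          ≤ c.kA46 S.X (((p.D.lin * (S.δ ^ n).lin * D1.lin : (Op N)ˣ) : Op N)) *
            c.kA46 S.X (w.D.lin : Op N) := c.kA_mul46 (c.Mo46.mul_mem pDδ hD1).1 w.D_mem.1
        _ ≤ (c.kA46 S.X (((p.D.lin * (S.δ ^ n).lin : (Op N)ˣ) : Op N)) *
            c.kA46 S.X (D1.lin : Op N)) * c.kA46 S.X (w.D.lin : Op N) :=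
            mul_le_mul_of_nonneg_right (c.kA_mul46 pDδ.1 hD1.1) q2.le
        _ ≤ ((c.kA46 S.X (p.D.lin : Op N) * c.kA46 S.X ((S.δ ^ n).lin : Op N)) *
            c.kA46 S.X (D1.lin : Op N)) * c.kA46 S.X (w.D.lin : Op N) := by
            apply mul_le_mul_of_nonneg_right _ q2.le
            exact mul_le_mul_of_nonneg_right (c.kA_mul46 p.D_mem.1 hδn.1) q3.le
        _ = c.kA46 S.X (p.D.lin : Op N) * c.kA46 S.X (w.D.lin : Op N) *
            (c.kA46 S.X ((S.δ ^ n).lin : Op N) * c.kA46 S.X (D1.lin : Op N)) := by ring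
        _ ≤ c.kA46 S.X (p.D.lin : Op N) * c.kA46 S.X (w.D.lin : Op N) * 1 := by
            apply mul_le_mul_of_nonneg_left _ (by positivity)
            exact (mul_le_mul q5 kD1 q3.le (by positivity)).trans b4
        _ = _ := mul_one _
    have m2 := Real.log_le_log (c.kA_pos46 S.X _) m1
    rw [Real.log_mul q1.ne' q2.ne'] at m2
    linarith

end Cell

end Pool.Agent.Lib.MP_d9b062_al
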